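import Pool.Agent.H382P.LocExp
import Pool.Agent.H370R2.PC1

set_option autoImplicit false

/-! # The real part of `ζ'/ζ` near the critical line as a sum over the zeros, under RH -/

open Complex Filter Topology Set MeasureTheory

namespace Pool.Agent.X83.VP

open SP SP.LocAux H370 H370.Loc

noncomputable section

/-- the Poisson kernel, cut at distance `1` -/
def pk (x y : ℝ) : ℝ := if |y| ≤ 1 then x / (x ^ 2 + y ^ 2) else 0

lemma pk_nonneg {x : ℝ} (hx : 0 ≤ x) (y : ℝ) : 0 ≤ pk x y := by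
  unfold pk
  split_ifs
  · positivity
  · exact le_rfl

/-- the sum over the zeros with ordinate in `(T, 2T]` -/
def hh (T x v : ℝ) : ℝ := ∑ s ∈ Zf riemannZeta T (2 * T), (mult riemannZeta s : ℝ) * pk x (v - s.im)

lemma AS_eq {T v : ℝ} (h : 1 ≤ T) : AS T v h =
    (Zf riemannZeta T (2 * T)).filter (fun s => |v - s.im| ≤ 1) := by
  ext s
  rw [Finset.mem_filter, mem_Zf good_zeta h, LocAux.mem_AS, abs_sub_comm v]
  rfl

lemma hh_eq {T v : ℝ} (h : 1 ≤ T) (x : ℝ) : hh T x v =
    ∑ s ∈ AS T v h, (mu s : ℝ) * (x / (x ^ 2 + (v - s.im) ^ 2)) := by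
  rw [AS_eq h, Finset.sum_filter]
  unfold hh pk mu
  refine Finset.sum_congr rfl fun s _ => ?_
  split_ifs
  · rfl
  · rw [mul_zero]

/-- the local formula under RH -/
theorem ld_loc (hRH : RHs) : ∃ C T0 : ℝ, 0 < C ∧ 10 ≤ T0 ∧ ∀ T : ℝ, T0 ≤ T → ∀ v : ℝ,
    T + 2 ≤ v → v ≤ 2 * T - 2 → ∀ x : ℝ, 0 < x → x ≤ 1 / 16 →
    |(deriv riemannZeta (⟨1 / 2 + x, v⟩ : ℂ) / riemannZeta (⟨1 / 2 + x, v⟩ : ℂ)).re -
      (hh T x v - 1 / 2 * Real.log v)| ≤ C * (1 + x * Real.log T) ∧
    ‖deriv riemannZeta (⟨1 / 2 + x, v⟩ : ℂ) / riemannZeta (⟨1 / 2 + x, v⟩ : ℂ)‖ ≤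
      C * (Real.log T / x) := by
  classical
  obtain ⟨C, T0, hC, hT0, h⟩ := loc_exp hRH
  obtain ⟨C0, hC0, hcount⟩ := AS_count
  obtain ⟨C1, hC1, hGam⟩ := H370.DL.logDeriv_Gammaℝ_bound
  refine ⟨C + C1 + 2 * C0 + 1 + C1, T0, by positivity, hT0, fun T hT v hv1 hv2 x hx hx1 => ?_⟩
  have hT1 : 1 ≤ T := by linarith
  have hlT : 1 ≤ Real.log T := one_le_log (by linarith)
  obtain ⟨h1, h2, h3⟩ := h T hT v hv1 hv2 x v hx hx1 (by simp)
  set z : ℂ := ⟨1 / 2 + x, v⟩ with hz
  have hzre : z.re = 1 / 2 + x := rfl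
  have hzim : z.im = v := rfl
  have hv0 : 0 < v := by linarith
  have hζ : riemannZeta z ≠ 0 := by
    intro h0
    have := hRH z (by rw [hzre]; linarith) (by rw [hzre]; linarith) h0
    rw [hzre] at this
    linarith
  have e2 : logDeriv completedRiemannZeta z = logDeriv Gammaℝ z + logDeriv riemannZeta z := by
    have h1 : completedRiemannZeta =ᶠ[𝓝 z] fun w => Gammaℝ w * riemannZeta w := by
      filter_upwards [H370.DL.eventually_im_ne (s := z) (by rw [hzim]; linarith)] with w hw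
      exact SG.AlgAux.Lam_eq hw
    rw [logDeriv_apply, h1.deriv_eq, h1.self_of_nhds, ← logDeriv_apply]
    exact logDeriv_mul z (SG.GamAux.GR_ne (by rw [hzim]; linarith)) hζ
      (SG.GamAux.GR_analytic (by rw [hzim]; linarith)).differentiableAt
      (differentiableAt_riemannZeta (SG.AlgAux.ne_one_of_im (by rw [hzim]; linarith)))
  have e3 : deriv riemannZeta z / riemannZeta z =
      logDeriv completedRiemannZeta z - logDeriv Gammaℝ z := by
    rw [e2, ← logDeriv_apply]; ring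
  have hG := hGam z (by rw [hzre]; linarith) (by rw [hzre]; linarith)
    (by rw [hzim, abs_of_pos hv0]; linarith)
  rw [hzim, abs_of_pos hv0] at hG
  have hfs : ∑ᶠ s ∈ {s : ℂ | s ∈ ZZ T ∧ |s.im - v| ≤ 1}, (mu s : ℝ) * x / (x ^ 2 + (v - s.im) ^ 2) =
      hh T x v := by
    rw [finsum_AS hT1, hh_eq hT1]
    exact Finset.sum_congr rfl fun s _ => by ring
  rw [hfs] at h3
  have hlv : Real.log v ≤ 2 * Real.log T := by
    have h1 : Real.log v ≤ Real.log (T ^ 2) := Real.log_le_log (by linarith) (by nlinarith)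
    rw [Real.log_pow] at h1
    exact_mod_cast h1
  have hlv0 : 0 ≤ Real.log v := Real.log_nonneg (by linarith)
  constructor
  · rw [e3, sub_re]
    have h4 : |(logDeriv Gammaℝ z).re - 1 / 2 * Real.log v| ≤ C1 := by
      have e : (logDeriv Gammaℝ z - 1 / 2 * Real.log v).re =
          (logDeriv Gammaℝ z).re - 1 / 2 * Real.log v := by
        rw [sub_re]
        congr 1
        have : (1 / 2 * (Real.log v : ℂ)) = ((1 / 2 * Real.log v : ℝ) : ℂ) := by push_cast; ring
        rw [this, ofReal_re]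
      rw [← e]
      exact (abs_re_le_norm _).trans hG
    have h5 : (logDeriv completedRiemannZeta z).re - (logDeriv Gammaℝ z).re -
        (hh T x v - 1 / 2 * Real.log v) = ((logDeriv completedRiemannZeta z).re - hh T x v) -
        ((logDeriv Gammaℝ z).re - 1 / 2 * Real.log v) := by ring
    rw [h5]
    refine (abs_sub _ _).trans ?_
    have h6 : 0 ≤ x * Real.log T := by positivity
    nlinarith
  · rw [e3]
    have h7 : ‖∑ᶠ s ∈ {s : ℂ | s ∈ ZZ T ∧ |s.im - v| ≤ 1},
        (mu s : ℂ) / ((x : ℂ) + I * (v - s.im : ℝ))‖ ≤ C0 * Real.log v / x := by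
      rw [finsum_AS hT1]
      refine (norm_sum_le _ _).trans ?_
      have h8 : ∀ s ∈ AS T v hT1, ‖(mu s : ℂ) / ((x : ℂ) + I * (v - s.im : ℝ))‖ ≤
          (mu s : ℝ) * (1 / x) := by
        intro s _
        rw [norm_div, Complex.norm_natCast, div_eq_mul_one_div]
        refine mul_le_mul_of_nonneg_left ?_ (Nat.cast_nonneg _)
        apply one_div_le_one_div_of_le hx
        have e : ((x : ℂ) + I * (v - s.im : ℝ)).re = x := by simp
        calc x = |((x : ℂ) + I * (v - s.im : ℝ)).re| := by rw [e, abs_of_pos hx]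
          _ ≤ _ := abs_re_le_norm _
      refine (Finset.sum_le_sum h8).trans ?_
      rw [← Finset.sum_mul]
      have h9 := hcount T v hT1 (by linarith)
      calc _ ≤ C0 * Real.log v * (1 / x) := mul_le_mul_of_nonneg_right h9 (by positivity)
        _ = _ := by ring
    have h10 : ‖logDeriv Gammaℝ z‖ ≤ C1 + 1 / 2 * Real.log v := by
      have e : logDeriv Gammaℝ z = (logDeriv Gammaℝ z - 1 / 2 * Real.log v) +
          ((1 / 2 * Real.log v : ℝ) : ℂ) := by push_cast; ring
      rw [e]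
      refine (norm_add_le _ _).trans (add_le_add hG ?_)
      rw [Complex.norm_real, Real.norm_of_nonneg (by positivity)]
    have h11 : ‖logDeriv completedRiemannZeta z‖ ≤ C * Real.log T + C0 * Real.log v / x := by
      calc _ = ‖(logDeriv completedRiemannZeta z - ∑ᶠ s ∈ {s : ℂ | s ∈ ZZ T ∧ |s.im - v| ≤ 1},
            (mu s : ℂ) / ((x : ℂ) + I * (v - s.im : ℝ))) + ∑ᶠ s ∈ {s : ℂ | s ∈ ZZ T ∧ |s.im - v| ≤ 1},
            (mu s : ℂ) / ((x : ℂ) + I * (v - s.im : ℝ))‖ := by congr 1; ring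
        _ ≤ _ := norm_add_le _ _
        _ ≤ _ := add_le_add h2 h7
    refine (norm_sub_le _ _).trans ?_
    have hx0 : 1 ≤ 1 / x := by rw [le_div_iff₀ hx]; linarith
    have hLx : Real.log T ≤ Real.log T / x := by
      rw [le_div_iff₀ hx]; nlinarith
    have h12 : C0 * Real.log v / x ≤ 2 * C0 * (Real.log T / x) := by
      rw [mul_div_assoc, mul_assoc]
      have : Real.log v / x ≤ 2 * (Real.log T / x) := by
        rw [← mul_div_assoc]; exact div_le_div_of_nonneg_right hlv hx.le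
      nlinarith
    have h13 : 1 ≤ Real.log T / x := hlT.trans hLx
    have h14 : C1 + 1 / 2 * Real.log v ≤ C1 * (Real.log T / x) + 1 * (Real.log T / x) := by
      nlinarith
    have h15 : C * Real.log T ≤ C * (Real.log T / x) := mul_le_mul_of_nonneg_left hLx hC.le
    have h16 : 0 ≤ C1 * (Real.log T / x) := by positivity
    linarith

end

end Pool.Agent.X83.VP
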