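import Pool.Agent.X83.VP.L5

set_option autoImplicit false

/-! # The mean square of `Re ζ'/ζ` on blocks, lower bound -/

open Complex Filter Topology Set MeasureTheory

namespace Pool.Agent.X83.VP

open SP SP.LocAux H370 H370.Loc

noncomputable section

lemma log_ratio {p : ℝ} (hp : 0 < p) (k : ℝ) :
    Tendsto (fun U : ℝ => Real.log (p * U + k) / Real.log U) atTop (𝓝 1) := by
  have h1 : ∀ᶠ U : ℝ in atTop, Real.log (p * U + k) / Real.log U =
      1 + Real.log (p + k * U⁻¹) / Real.log U := by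
    filter_upwards [eventually_gt_atTop 1, eventually_gt_atTop (2 * |k| / p)] with U hU hU2
    have hU0 : 0 < U := by linarith
    have hl : 0 < Real.log U := Real.log_pos hU
    have h3 : |k * U⁻¹| ≤ p / 2 := by
      rw [abs_mul, abs_of_pos (inv_pos.2 hU0), ← div_eq_mul_inv, div_le_iff₀ hU0]
      rw [div_lt_iff₀ hp] at hU2
      nlinarith
    have h4 : 0 < p + k * U⁻¹ := by
      have := (abs_le.1 h3).1
      linarith
    have h5 : p * U + k = U * (p + k * U⁻¹) := by field_simp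
    rw [h5, Real.log_mul hU0.ne' h4.ne', add_div, div_self hl.ne']
  rw [tendsto_congr' h1]
  have h2 : Tendsto (fun U : ℝ => Real.log (p + k * U⁻¹)) atTop (𝓝 (Real.log p)) := by
    have h3 : Tendsto (fun U : ℝ => p + k * U⁻¹) atTop (𝓝 (p + k * 0)) :=
      (tendsto_inv_atTop_zero.const_mul k).const_add p
    rw [mul_zero, add_zero] at h3
    exact h3.log hp.ne'
  have h3 := h2.div_atTop Real.tendsto_log_atTop
  have h4 := h3.const_add 1
  rw [add_zero] at h4
  exact h4

lemma NN_ratio {p : ℝ} (hp : 0 < p) (k : ℝ) :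
    Tendsto (fun U : ℝ => (NN riemannZeta 0 (p * U + k) : ℝ) / (U * Real.log U)) atTop
      (𝓝 (p / (2 * Real.pi))) := by
  obtain ⟨C, T0, hC, hT0, h⟩ := Pool.Agent.W54.TCF.NT_asymp
  have hpi := Real.pi_pos
  have hlin : Tendsto (fun U : ℝ => (p * U + k) / U) atTop (𝓝 p) := by
    have h3 : Tendsto (fun U : ℝ => p + k * U⁻¹) atTop (𝓝 (p + k * 0)) :=
      (tendsto_inv_atTop_zero.const_mul k).const_add p
    rw [mul_zero, add_zero] at h3
    refine h3.congr' ?_
    filter_upwards [eventually_gt_atTop 0] with U hU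
    field_simp
  have hmain : Tendsto (fun U : ℝ => (p * U + k) / U * (Real.log (p * U + k) / Real.log U) /
      (2 * Real.pi)) atTop (𝓝 (p / (2 * Real.pi))) := by
    have := (hlin.mul (log_ratio hp k)).div_const (2 * Real.pi)
    rwa [mul_one] at this
  have herr : Tendsto (fun U : ℝ => C * ((p * U + k) / U) / Real.log U) atTop (𝓝 0) :=
    (hlin.const_mul C).div_atTop Real.tendsto_log_atTop
  have hbig : Tendsto (fun U : ℝ => p * U + k) atTop atTop :=
    tendsto_atTop_add_const_right _ _ (tendsto_id.const_mul_atTop hp)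
  have hdiff : Tendsto (fun U : ℝ => (NN riemannZeta 0 (p * U + k) : ℝ) / (U * Real.log U) -
      (p * U + k) / U * (Real.log (p * U + k) / Real.log U) / (2 * Real.pi)) atTop (𝓝 0) := by
    refine squeeze_zero_norm' ?_ herr
    filter_upwards [hbig.eventually_ge_atTop T0, eventually_gt_atTop 1] with U hU hU1
    have hU0 : 0 < U := by linarith
    have hl : 0 < Real.log U := Real.log_pos hU1
    have h1 := h (p * U + k) hU
    have e : (NN riemannZeta 0 (p * U + k) : ℝ) / (U * Real.log U) -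
        (p * U + k) / U * (Real.log (p * U + k) / Real.log U) / (2 * Real.pi) =
        ((NN riemannZeta 0 (p * U + k) : ℝ) - (p * U + k) * Real.log (p * U + k) /
          (2 * Real.pi)) / (U * Real.log U) := by
      field_simp
    rw [e, Real.norm_eq_abs, abs_div, abs_of_pos (show 0 < U * Real.log U by positivity)]
    calc _ ≤ C * (p * U + k) / (U * Real.log U) := by gcongr
      _ = _ := by field_simp
  have := hdiff.add hmain
  rw [zero_add] at this
  refine this.congr fun U => ?_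
  ring

lemma NN_diff_ratio {p q : ℝ} (hp : 0 < p) (hpq : p < q) (k k' : ℝ) :
    Tendsto (fun U : ℝ => (NN riemannZeta (p * U + k) (q * U + k') : ℝ) / (U * Real.log U)) atTop
      (𝓝 ((q - p) / (2 * Real.pi))) := by
  have hq : 0 < q := hp.trans hpq
  have h1 := (NN_ratio hq k').sub (NN_ratio hp k)
  have e : q / (2 * Real.pi) - p / (2 * Real.pi) = (q - p) / (2 * Real.pi) := by ring
  rw [e] at h1
  refine h1.congr' ?_
  have hbig : Tendsto (fun U : ℝ => p * U + k) atTop atTop :=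
    tendsto_atTop_add_const_right _ _ (tendsto_id.const_mul_atTop hp)
  have hbig2 : Tendsto (fun U : ℝ => (q - p) * U + (k' - k)) atTop atTop :=
    tendsto_atTop_add_const_right _ _ (tendsto_id.const_mul_atTop (by linarith))
  filter_upwards [hbig.eventually_ge_atTop 1, hbig2.eventually_ge_atTop 0] with U hU hU2
  have h2 := Pool.Agent.W54.TCF.NN_zero_add (A := p * U + k) (X := q * U + k') hU (by linarith)
  rw [h2]
  push_cast
  ring

/-- the real part of `ζ'/ζ` -/
def RZ (x v : ℝ) : ℝ := (deriv riemannZeta (⟨1 / 2 + x, v⟩ : ℂ) / riemannZeta (⟨1 / 2 + x, v⟩ : ℂ)).re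

lemma RZ_cont (hRH : RHs) {x : ℝ} (hx : 0 < x) {v : ℝ} (hv : 1 ≤ v) : ContinuousAt (RZ x) v := by
  have hne : (⟨1 / 2 + x, v⟩ : ℂ) ≠ 1 := by
    intro h
    have := congrArg Complex.im h
    simp at this
    linarith
  have hz : riemannZeta (⟨1 / 2 + x, v⟩ : ℂ) ≠ 0 := by
    intro h0
    rcases lt_or_ge (1 / 2 + x) 1 with h | h
    · have := hRH _ (show 0 < (⟨1 / 2 + x, v⟩ : ℂ).re by show 0 < 1 / 2 + x; linarith) h h0
      have h2 : (1 / 2 + x : ℝ) = 1 / 2 := this
      linarith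
    · exact riemannZeta_ne_zero_of_one_le_re (s := ⟨1 / 2 + x, v⟩) h h0
  have hline : Continuous fun v : ℝ => (⟨1 / 2 + x, v⟩ : ℂ) := by
    have : (fun v : ℝ => (⟨1 / 2 + x, v⟩ : ℂ)) = fun v : ℝ => ((1 / 2 + x : ℝ) : ℂ) + v * I := by
      funext v
      apply Complex.ext <;> simp
    rw [this]; fun_prop
  have han : AnalyticAt ℂ riemannZeta (⟨1 / 2 + x, v⟩ : ℂ) := by
    have ho : IsOpen {s : ℂ | s ≠ 1} := isOpen_ne
    exact (DifferentiableOn.analyticOnNhd (s := {s : ℂ | s ≠ 1})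
      (fun s hs => (differentiableAt_riemannZeta hs).differentiableWithinAt) ho) _ hne
  have h1 : ContinuousAt (fun s : ℂ => deriv riemannZeta s / riemannZeta s) (⟨1 / 2 + x, v⟩ : ℂ) :=
    han.deriv.continuousAt.div han.continuousAt hz
  exact Complex.continuous_re.continuousAt.comp
    (ContinuousAt.comp (g := fun s : ℂ => deriv riemannZeta s / riemannZeta s)
      (f := fun v : ℝ => (⟨1 / 2 + x, v⟩ : ℂ)) h1 hline.continuousAt)

lemma RZ_ii (hRH : RHs) {x : ℝ} (hx : 0 < x) {A B : ℝ} (hA : 1 ≤ A) (hAB : A ≤ B) :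
    IntervalIntegrable (fun v => RZ x v ^ 2) volume A B := by
  refine ContinuousOn.intervalIntegrable fun v hv => ?_
  rw [uIcc_of_le hAB] at hv
  exact ((RZ_cont hRH hx (hA.trans hv.1)).pow 2).continuousWithinAt

/-- the block inequality, finite form -/
theorem blk_fin (hRH : RHs) : ∃ C T0 : ℝ, 0 < C ∧ 10 ≤ T0 ∧ ∀ T : ℝ, T0 ≤ T → ∀ A B : ℝ,
    T + 3 ≤ A → A ≤ B → B ≤ 2 * T - 3 → ∀ x : ℝ, 0 < x → x ≤ 1 / 16 → ∀ θ : ℝ, 0 < θ → θ < 1 →
    (1 - θ) * ((Real.pi / (2 * x) - 1) * (NN riemannZeta (A + 1) (B - 1) : ℝ) -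
      Real.log B * (Real.pi * (NN riemannZeta (A - 2) (B + 1) : ℝ)) +
      1 / 4 * ((B - A) * Real.log A ^ 2)) -
      1 / θ * ((B - A) * (C * (1 + x * Real.log T)) ^ 2) ≤ ∫ v in A..B, RZ x v ^ 2 := by
  obtain ⟨C, T0, hC, hT0, h⟩ := ld_loc hRH
  refine ⟨C, T0, hC, hT0, fun T hT A B hA hAB hB x hx hx1 θ hθ hθ1 => ?_⟩
  have hT1 : 1 ≤ T := by linarith
  have hA1 : 1 ≤ A := by linarith
  have hlA : 0 ≤ Real.log A := Real.log_nonneg hA1
  obtain ⟨E, hE⟩ : ∃ E : ℝ, E = C * (1 + x * Real.log T) := ⟨_, rfl⟩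
  rw [← hE]
  have hpt : ∀ v ∈ Icc A B, (1 - θ) * (hh T x v ^ 2 - Real.log B * hh T x v +
      1 / 4 * Real.log A ^ 2) - 1 / θ * E ^ 2 ≤ RZ x v ^ 2 := by
    intro v hv
    obtain ⟨h1, -⟩ := h T hT v (by linarith [hv.1]) (by linarith [hv.2]) x hx hx1
    rw [← hE] at h1
    obtain ⟨H, hH⟩ : ∃ H : ℝ, H = hh T x v - 1 / 2 * Real.log v := ⟨_, rfl⟩
    rw [← hH] at h1
    have h1' : |RZ x v - H| ≤ E := h1
    have hv0 : 0 < v := by linarith [hv.1]
    have e1 : Real.log A ≤ Real.log v := Real.log_le_log (by linarith) hv.1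
    have e2 : Real.log v ≤ Real.log B := Real.log_le_log hv0 hv.2
    have hh0 := hh_nonneg hx.le T v
    have h2 : hh T x v ^ 2 - Real.log B * hh T x v + 1 / 4 * Real.log A ^ 2 ≤ H ^ 2 := by
      have h3 : H ^ 2 = hh T x v ^ 2 - Real.log v * hh T x v + 1 / 4 * Real.log v ^ 2 := by
        rw [hH]; ring
      rw [h3]
      have h4 : Real.log v * hh T x v ≤ Real.log B * hh T x v :=
        mul_le_mul_of_nonneg_right e2 hh0
      have h5 : Real.log A ^ 2 ≤ Real.log v ^ 2 := pow_le_pow_left₀ hlA e1 2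
      linarith
    have h3 : (1 - θ) * H ^ 2 - 1 / θ * E ^ 2 ≤ RZ x v ^ 2 := by
      obtain ⟨e, he⟩ : ∃ e : ℝ, e = RZ x v - H := ⟨_, rfl⟩
      rw [← he] at h1'
      have h4 : e ^ 2 ≤ E ^ 2 := by
        rw [← sq_abs e]; exact pow_le_pow_left₀ (abs_nonneg _) h1' 2
      have h5 : RZ x v = H + e := by rw [he]; ring
      rw [h5]
      have h6 : 0 ≤ θ * (H + e / θ) ^ 2 + e ^ 2 := by positivity
      have h7 : θ * (H + e / θ) ^ 2 + e ^ 2 = (H + e) ^ 2 - (1 - θ) * H ^ 2 + 1 / θ * e ^ 2 := by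
        field_simp; ring
      rw [h7] at h6
      have h8 : 1 / θ * e ^ 2 ≤ 1 / θ * E ^ 2 := mul_le_mul_of_nonneg_left h4 (by positivity)
      linarith
    refine le_trans ?_ h3
    have := mul_le_mul_of_nonneg_left h2 (show 0 ≤ 1 - θ by linarith)
    linarith
  have hi1 := hh_sq_ii hx T A B
  have hi2 := hh_ii hx T A B
  have hmono := intervalIntegral.integral_mono_on (μ := volume) hAB
    (f := fun v => (1 - θ) * (hh T x v ^ 2 - Real.log B * hh T x v +
      1 / 4 * Real.log A ^ 2) - 1 / θ * E ^ 2) (g := fun v => RZ x v ^ 2)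
    (((((hi1.sub (hi2.const_mul _)).add intervalIntegrable_const).const_mul _).sub
      intervalIntegrable_const)) (RZ_ii hRH hx hA1 hAB) hpt
  refine le_trans ?_ hmono
  rw [intervalIntegral.integral_sub ((((hi1.sub (hi2.const_mul _)).add
      intervalIntegrable_const).const_mul _)) intervalIntegrable_const,
    intervalIntegral.integral_const_mul,
    intervalIntegral.integral_add (hi1.sub (hi2.const_mul _)) intervalIntegrable_const,
    intervalIntegral.integral_sub hi1 (hi2.const_mul _), intervalIntegral.integral_const_mul,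
    intervalIntegral.integral_const, intervalIntegral.integral_const, smul_eq_mul, smul_eq_mul]
  have b1 := hh_low hx (by linarith) hT1 hAB (by linarith) (by linarith : B ≤ 2 * T)
  have b2 := hh_up hx hT1 hAB (by linarith)
  have hlB : 0 ≤ Real.log B := Real.log_nonneg (by linarith)
  have b3 := mul_le_mul_of_nonneg_left b2 hlB
  have b4 : (Real.pi / (2 * x) - 1) * (NN riemannZeta (A + 1) (B - 1) : ℝ) -
      Real.log B * (Real.pi * (NN riemannZeta (A - 2) (B + 1) : ℝ)) +
      1 / 4 * ((B - A) * Real.log A ^ 2) ≤ (∫ v in A..B, hh T x v ^ 2) -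
      Real.log B * (∫ v in A..B, hh T x v) + (B - A) * (1 / 4 * Real.log A ^ 2) := by linarith
  have b5 := mul_le_mul_of_nonneg_left b4 (show 0 ≤ 1 - θ by linarith)
  have b6 : 1 / θ * ((B - A) * E ^ 2) = (B - A) * (1 / θ * E ^ 2) := by ring
  linarith

/-- blocks, asymptotic form -/
theorem blk_asym (hRH : RHs) {c : ℝ} (hc : 0 < c) {p q : ℝ} (hp : 0 < p) (hpq : p < q)
    (hq : q ≤ 3 / 2 * p) {ε : ℝ} (hε : 0 < ε) : ∀ᶠ U : ℝ in atTop,
    (q - p) * (1 / (4 * c) - 1 / 4 - ε) * (U * Real.log U ^ 2) ≤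
      ∫ v in (p * U)..(q * U), RZ (c / Real.log U) v ^ 2 := by
  obtain ⟨C, T0, hC, hT0, h⟩ := blk_fin hRH
  have hpi := Real.pi_pos
  have hq0 : 0 < q := hp.trans hpq
  obtain ⟨κ, hκ⟩ : ∃ κ : ℝ, κ = 1 / (4 * c) - 1 / 4 := ⟨_, rfl⟩
  obtain ⟨θ, hθ⟩ : ∃ θ : ℝ, θ = min (1 / 2) (ε / (4 * (|κ| + 1))) := ⟨_, rfl⟩
  have hθ0 : 0 < θ := by rw [hθ]; exact lt_min (by norm_num) (by positivity)
  have hθ1 : θ < 1 := by rw [hθ]; exact (min_le_left _ _).trans_lt (by norm_num)
  have hθ2 : θ * (|κ| + 1) ≤ ε / 4 := by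
    have h1 : θ ≤ ε / (4 * (|κ| + 1)) := by rw [hθ]; exact min_le_right _ _
    rw [le_div_iff₀ (by positivity)] at h1
    linarith
  -- the limit of the normalised main part
  have l1 := NN_diff_ratio hp hpq 1 (-1)
  have l2 := NN_diff_ratio hp hpq (-2) 1
  have l3 : Tendsto (fun U : ℝ => Real.log (p * U) / Real.log U) atTop (𝓝 1) := by
    refine (log_ratio hp 0).congr fun U => ?_
    rw [add_zero]
  have l4 : Tendsto (fun U : ℝ => Real.log (q * U) / Real.log U) atTop (𝓝 1) := by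
    refine (log_ratio hq0 0).congr fun U => ?_
    rw [add_zero]
  have l5 : Tendsto (fun U : ℝ => 1 / Real.log U) atTop (𝓝 0) :=
    tendsto_const_nhds.div_atTop Real.tendsto_log_atTop
  obtain ⟨M, hM⟩ : ∃ M : ℝ → ℝ, ∀ U, M U = (Real.pi / (2 * c) - 1 / Real.log U) *
      ((NN riemannZeta (p * U + 1) (q * U + -1) : ℝ) / (U * Real.log U)) -
      Real.log (q * U) / Real.log U * (Real.pi *
        ((NN riemannZeta (p * U + -2) (q * U + 1) : ℝ) / (U * Real.log U))) +
      1 / 4 * ((q - p) * (Real.log (p * U) / Real.log U) ^ 2) := ⟨_, fun _ => rfl⟩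
  have hMf : M = fun U => (Real.pi / (2 * c) - 1 / Real.log U) *
      ((NN riemannZeta (p * U + 1) (q * U + -1) : ℝ) / (U * Real.log U)) -
      Real.log (q * U) / Real.log U * (Real.pi *
        ((NN riemannZeta (p * U + -2) (q * U + 1) : ℝ) / (U * Real.log U))) +
      1 / 4 * ((q - p) * (Real.log (p * U) / Real.log U) ^ 2) := funext hM
  have hMlim : Tendsto M atTop (𝓝 ((q - p) * κ)) := by
    rw [hMf]
    have m1 := (l5.const_sub (Real.pi / (2 * c))).mul l1
    have m2 := l4.mul (l2.const_mul Real.pi)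
    have m3 := ((l3.pow 2).const_mul (q - p)).const_mul (1 / 4)
    have m4 := (m1.sub m2).add m3
    have e : (Real.pi / (2 * c) - 0) * ((q - p) / (2 * Real.pi)) -
        1 * (Real.pi * ((q - p) / (2 * Real.pi))) + 1 / 4 * ((q - p) * 1 ^ 2) = (q - p) * κ := by
      rw [hκ]; field_simp; ring
    rw [e] at m4
    exact m4
  -- the error term
  have herr : Tendsto (fun U : ℝ => 1 / θ * (C * (1 + 2 * c)) ^ 2 * (1 / Real.log U) ^ 2) atTop
      (𝓝 0) := by
    have := (l5.pow 2).const_mul (1 / θ * (C * (1 + 2 * c)) ^ 2)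
    simpa using this
  have hqp : 0 < q - p := by linarith
  have hUp : Tendsto (fun U : ℝ => p * U) atTop atTop := tendsto_id.const_mul_atTop hp
  filter_upwards [hMlim.eventually (lt_mem_nhds (show (q - p) * κ - (q - p) * (ε / 4) < (q - p) * κ by
      nlinarith [mul_pos hqp hε])),
    hMlim.eventually (gt_mem_nhds (show (q - p) * κ < (q - p) * κ + (q - p) * 1 by nlinarith)),
    herr.eventually (gt_mem_nhds (show (0 : ℝ) < ε / 4 by positivity)),
    hUp.eventually_ge_atTop (T0 + 20), Real.tendsto_log_atTop.eventually_ge_atTop (16 * c),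
    eventually_gt_atTop (Real.exp 1), Real.tendsto_log_atTop.eventually_ge_atTop |Real.log p|]
    with U u1 u1' u2 u3 u4 u5 u6
  have hU0 : 0 < U := (Real.exp_pos 1).trans u5
  have hl1 : 1 < Real.log U := by
    rw [Real.lt_log_iff_exp_lt hU0]; exact u5
  have hl0 : 0 < Real.log U := by linarith
  have hx0 : 0 < c / Real.log U := by positivity
  have hx1 : c / Real.log U ≤ 1 / 16 := by
    rw [div_le_div_iff₀ hl0 (by norm_num)]; linarith
  have hkey := h (p * U - 3) (by linarith) (p * U) (q * U) (by linarith)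
    (mul_le_mul_of_nonneg_right hpq.le hU0.le) (by nlinarith) (c / Real.log U) hx0 hx1 θ hθ0 hθ1
  refine le_trans ?_ hkey
  obtain ⟨L, hL⟩ : ∃ L : ℝ, L = Real.log U := ⟨_, rfl⟩
  rw [← hL] at hl1 hl0 hx0 hx1 u2 u6 ⊢
  have hW : 0 < U * L ^ 2 := by positivity
  have e1 : (Real.pi / (2 * (c / L)) - 1) * (NN riemannZeta (p * U + 1) (q * U - 1) : ℝ) -
      Real.log (q * U) * (Real.pi * (NN riemannZeta (p * U - 2) (q * U + 1) : ℝ)) +
      1 / 4 * ((q * U - p * U) * Real.log (p * U) ^ 2) = M U * (U * L ^ 2) := by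
    rw [hM, ← hL, ← sub_eq_add_neg, ← sub_eq_add_neg]
    field_simp
  rw [e1]
  have hlT : Real.log (p * U - 3) ≤ 2 * L := by
    have h1 : Real.log (p * U - 3) ≤ Real.log (p * U) := Real.log_le_log (by linarith) (by linarith)
    rw [Real.log_mul hp.ne' hU0.ne', ← hL] at h1
    have := le_abs_self (Real.log p)
    linarith
  have hlT0 : 0 ≤ Real.log (p * U - 3) := Real.log_nonneg (by linarith)
  have e2 : (C * (1 + c / L * Real.log (p * U - 3))) ^ 2 ≤ (C * (1 + 2 * c)) ^ 2 := by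
    have h1 : c / L * Real.log (p * U - 3) ≤ 2 * c := by
      calc _ ≤ c / L * (2 * L) := mul_le_mul_of_nonneg_left hlT hx0.le
        _ = 2 * c := by field_simp
    have h2 : 0 ≤ c / L * Real.log (p * U - 3) := by positivity
    refine pow_le_pow_left₀ (by positivity) ?_ 2
    exact mul_le_mul_of_nonneg_left (by linarith) hC.le
  have e3 : 1 / θ * ((q * U - p * U) * (C * (1 + c / L * Real.log (p * U - 3))) ^ 2) ≤
      (q - p) * (ε / 4) * (U * L ^ 2) := by
    have h1 : 1 / θ * (C * (1 + 2 * c)) ^ 2 ≤ ε / 4 * L ^ 2 := by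
      have h2 : 1 / θ * (C * (1 + 2 * c)) ^ 2 * (1 / L) ^ 2 * L ^ 2 =
        1 / θ * (C * (1 + 2 * c)) ^ 2 := by field_simp
      rw [← h2]
      exact mul_le_mul_of_nonneg_right u2.le (by positivity)
    have h3 : 0 ≤ q * U - p * U := by nlinarith
    calc _ ≤ 1 / θ * ((q * U - p * U) * (C * (1 + 2 * c)) ^ 2) := by gcongr
      _ = (q - p) * U * (1 / θ * (C * (1 + 2 * c)) ^ 2) := by ring
      _ ≤ (q - p) * U * (ε / 4 * L ^ 2) := mul_le_mul_of_nonneg_left h1 (by positivity)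
      _ = _ := by ring
  have hMb : |M U| ≤ (q - p) * (|κ| + 1) + (q - p) * ε := by
    rw [abs_le]
    have k1 := neg_abs_le κ
    have k2 := le_abs_self κ
    constructor
    · nlinarith [mul_pos hqp hε, mul_le_mul_of_nonneg_left k1 hqp.le]
    · nlinarith [mul_pos hqp hε, mul_le_mul_of_nonneg_left k2 hqp.le]
  have hθM : θ * M U ≤ (q - p) * (ε / 2) := by
    have h1 : M U ≤ (q - p) * (κ + 1) := by linarith
    have k2 := le_abs_self κ
    have h2 : M U ≤ (q - p) * (|κ| + 1) := h1.trans (mul_le_mul_of_nonneg_left (by linarith) hqp.le)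
    calc θ * M U ≤ θ * ((q - p) * (|κ| + 1)) := mul_le_mul_of_nonneg_left h2 hθ0.le
      _ = (q - p) * (θ * (|κ| + 1)) := by ring
      _ ≤ (q - p) * (ε / 4) := mul_le_mul_of_nonneg_left hθ2 hqp.le
      _ ≤ _ := by nlinarith [mul_pos hqp hε]
  have hfin : (q - p) * (1 / (4 * c) - 1 / 4 - ε) ≤ (1 - θ) * M U - (q - p) * (ε / 4) := by
    rw [← hκ]
    have : (1 - θ) * M U = M U - θ * M U := by ring
    rw [this]
    nlinarith
  calc (q - p) * (1 / (4 * c) - 1 / 4 - ε) * (U * L ^ 2) ≤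
      ((1 - θ) * M U - (q - p) * (ε / 4)) * (U * L ^ 2) := mul_le_mul_of_nonneg_right hfin hW.le
    _ = (1 - θ) * (M U * (U * L ^ 2)) - (q - p) * (ε / 4) * (U * L ^ 2) := by ring
    _ ≤ _ := by linarith

end

end Pool.Agent.X83.VP
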