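import Mathlib

set_option autoImplicit false

/-! # Families of densities with bounds on windows, tested against continuous functions -/

open Filter Topology Set MeasureTheory

namespace Pool.Agent.X83.VP

noncomputable section

/-- a partition with small oscillation -/
lemma partition {φ : ℝ → ℝ} (hφ : Continuous φ) {p q η r : ℝ} (hpq : p < q) (hη : 0 < η)
    (hr : 0 < r) : ∃ n : ℕ, 0 < n ∧ (q - p) / n ≤ r ∧ ∀ i : ℕ, i < n → ∀ y : ℝ,
      p + i * ((q - p) / n) ≤ y → y ≤ p + (i + 1 : ℕ) * ((q - p) / n) →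
      |φ y - φ (p + i * ((q - p) / n))| ≤ η := by
  have hu : UniformContinuousOn φ (Icc p q) :=
    isCompact_Icc.uniformContinuousOn_of_continuous hφ.continuousOn
  rw [Metric.uniformContinuousOn_iff] at hu
  obtain ⟨δ, hδ, h⟩ := hu η hη
  obtain ⟨m, hm⟩ : ∃ m : ℝ, m = min (δ / 2) r := ⟨_, rfl⟩
  have hm0 : 0 < m := by rw [hm]; exact lt_min (by positivity) hr
  obtain ⟨n, hn⟩ := exists_nat_gt ((q - p) / m)
  have hqp : 0 < q - p := by linarith
  have hn0 : (0 : ℝ) < n := lt_of_le_of_lt (by positivity) hn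
  have hstep : (q - p) / n ≤ m := by
    rw [div_le_iff₀ hn0]
    rw [div_lt_iff₀ hm0] at hn
    linarith
  refine ⟨n, by exact_mod_cast hn0, hstep.trans (by rw [hm]; exact min_le_right _ _), ?_⟩
  intro i hi y h1 h2
  have hd0 : 0 ≤ (q - p) / n := by positivity
  have hi1 : ((i + 1 : ℕ) : ℝ) * ((q - p) / n) ≤ q - p := by
    have : ((i + 1 : ℕ) : ℝ) ≤ n := by exact_mod_cast hi
    calc _ ≤ (n : ℝ) * ((q - p) / n) := mul_le_mul_of_nonneg_right this hd0
      _ = _ := by field_simp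
  have hi0 : 0 ≤ (i : ℝ) * ((q - p) / n) := by positivity
  push_cast at h2 hi1
  have hy : y ∈ Icc p q := ⟨by linarith, by linarith⟩
  have hpi : p + i * ((q - p) / n) ∈ Icc p q := ⟨by linarith, by linarith⟩
  have hdist : dist y (p + i * ((q - p) / n)) < δ := by
    rw [Real.dist_eq, abs_of_nonneg (by linarith)]
    have h3 : y - (p + i * ((q - p) / n)) ≤ m := by linarith
    have h4 : m ≤ δ / 2 := by rw [hm]; exact min_le_left _ _
    linarith
  have := h y hy _ hpi hdist
  rw [Real.dist_eq] at this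
  exact this.le

variable {w : ℝ → ℝ → ℝ} {l : Filter ℝ}

lemma sum_pieces {f : ℝ → ℝ} {p q : ℝ} (hpq : p < q) (hf : IntervalIntegrable f volume p q) {n : ℕ}
    (hn : 0 < n) : (∀ i < n, IntervalIntegrable f volume (p + i * ((q - p) / n))
      (p + (i + 1 : ℕ) * ((q - p) / n))) ∧
    ∑ i ∈ Finset.range n, ∫ y in (p + i * ((q - p) / n))..(p + (i + 1 : ℕ) * ((q - p) / n)), f y =
      ∫ y in p..q, f y := by
  have hn0 : (0 : ℝ) < n := by exact_mod_cast hn
  have hqp : 0 < q - p := by linarith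
  have hd0 : 0 ≤ (q - p) / n := by positivity
  have h1 : ∀ i < n, IntervalIntegrable f volume (p + i * ((q - p) / n))
      (p + (i + 1 : ℕ) * ((q - p) / n)) := by
    intro i hi
    refine hf.mono_set ?_
    rw [uIcc_of_le hpq.le, uIcc_of_le (by push_cast; linarith)]
    have hi1 : ((i + 1 : ℕ) : ℝ) * ((q - p) / n) ≤ q - p := by
      have : ((i + 1 : ℕ) : ℝ) ≤ n := by exact_mod_cast hi
      calc _ ≤ (n : ℝ) * ((q - p) / n) := mul_le_mul_of_nonneg_right this hd0
        _ = _ := by field_simp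
    have hi0 : 0 ≤ (i : ℝ) * ((q - p) / n) := by positivity
    exact Icc_subset_Icc (by linarith) (by linarith)
  refine ⟨h1, ?_⟩
  have h2 := intervalIntegral.sum_integral_adjacent_intervals (μ := volume) (f := f)
    (a := fun i : ℕ => p + i * ((q - p) / n)) (n := n) h1
  rw [h2]
  congr 1
  · simp
  · field_simp
    ring

/-- lower bounds on windows pass to continuous weights -/
theorem weight_low {κ : ℝ} (hκ : 0 ≤ κ) {p q r : ℝ} (hpq : p < q) (hr : 0 < r)
    (hw0 : ∀ U y, 0 ≤ w U y) (hwi : ∀ᶠ U in l, IntervalIntegrable (w U) volume p q)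
    (H : ∀ a b, p ≤ a → a < b → b ≤ q → b - a ≤ r → ∀ ε : ℝ, 0 < ε → ∀ᶠ U in l,
      (b - a) * (κ - ε) ≤ ∫ y in a..b, w U y)
    {φ : ℝ → ℝ} (hφ : Continuous φ) (hφ0 : ∀ y, 0 ≤ φ y) {ε : ℝ} (hε : 0 < ε) :
    ∀ᶠ U in l, κ * (∫ y in p..q, φ y) - ε ≤ ∫ y in p..q, φ y * w U y := by
  obtain ⟨M, hM⟩ := isCompact_Icc.exists_bound_of_continuousOn (s := Icc p q) hφ.continuousOn
  have hM0 : 0 ≤ |M| := abs_nonneg M
  have hqp : 0 < q - p := by linarith
  obtain ⟨η, hη⟩ : ∃ η : ℝ, η = ε / ((2 * κ + |M| + 1) * (q - p)) := ⟨_, rfl⟩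
  have hη0 : 0 < η := by rw [hη]; positivity
  have hη1 : (2 * κ + |M| + 1) * (q - p) * η = ε := by rw [hη]; field_simp
  obtain ⟨n, hn, hnr, hosc⟩ := partition hφ hpq hη0 hr
  have hn0 : (0 : ℝ) < n := by exact_mod_cast hn
  obtain ⟨d, hd⟩ : ∃ d : ℝ, d = (q - p) / n := ⟨_, rfl⟩
  have hd0 : 0 < d := by rw [hd]; positivity
  have hnd : n * d = q - p := by rw [hd]; field_simp
  rw [← hd] at hnr
  have hev : ∀ᶠ U in l, ∀ i ∈ Finset.range n, d * (κ - η) ≤
      ∫ y in (p + i * d)..(p + (i + 1 : ℕ) * d), w U y := by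
    rw [Finset.eventually_all]
    intro i hi
    have hi' := Finset.mem_range.1 hi
    have hi1 : ((i + 1 : ℕ) : ℝ) * d ≤ q - p := by
      have : ((i + 1 : ℕ) : ℝ) ≤ n := by exact_mod_cast hi'
      calc _ ≤ (n : ℝ) * d := mul_le_mul_of_nonneg_right this hd0.le
        _ = _ := hnd
    have hi0 : 0 ≤ (i : ℝ) * d := by positivity
    have h1 := H (p + i * d) (p + (i + 1 : ℕ) * d) (by linarith) (by push_cast; linarith)
      (by linarith) (by push_cast; linarith) η hη0
    have e : p + (i + 1 : ℕ) * d - (p + i * d) = d := by push_cast; ring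
    rw [e] at h1
    exact h1
  filter_upwards [hev, hwi] with U hU hUi
  have hφw : IntervalIntegrable (fun y => φ y * w U y) volume p q := hUi.continuousOn_mul hφ.continuousOn
  obtain ⟨s1, s2⟩ := sum_pieces hpq hφw hn
  obtain ⟨s3, s4⟩ := sum_pieces hpq (hφ.intervalIntegrable p q) hn
  obtain ⟨s5, -⟩ := sum_pieces hpq hUi hn
  rw [← hd] at s1 s2 s3 s4 s5 hosc
  rw [← s2, ← s4]
  have hpiece : ∀ i ∈ Finset.range n,
      κ * (∫ y in (p + i * d)..(p + (i + 1 : ℕ) * d), φ y) - (2 * κ + |M|) * η * d ≤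
      ∫ y in (p + i * d)..(p + (i + 1 : ℕ) * d), φ y * w U y := by
    intro i hi
    have hi' := Finset.mem_range.1 hi
    have hle : p + i * d ≤ p + (i + 1 : ℕ) * d := by push_cast; linarith
    have hlen : p + (i + 1 : ℕ) * d - (p + i * d) = d := by push_cast; ring
    have hi0 : 0 ≤ (i : ℝ) * d := by positivity
    have hi1 : ((i + 1 : ℕ) : ℝ) * d ≤ q - p := by
      have : ((i + 1 : ℕ) : ℝ) ≤ n := by exact_mod_cast hi'
      calc _ ≤ (n : ℝ) * d := mul_le_mul_of_nonneg_right this hd0.le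
        _ = _ := hnd
    obtain ⟨m, hm⟩ : ∃ m : ℝ, m = max (φ (p + i * d) - η) 0 := ⟨_, rfl⟩
    have hm0 : 0 ≤ m := by rw [hm]; exact le_max_right _ _
    have hmM : m ≤ |M| := by
      have h1 := hM (p + i * d) ⟨by linarith, by push_cast at hi1; linarith⟩
      rw [Real.norm_eq_abs, abs_of_nonneg (hφ0 _)] at h1
      rw [hm]
      refine max_le ?_ hM0
      have := le_abs_self M
      linarith
    have h1 : m * ∫ y in (p + i * d)..(p + (i + 1 : ℕ) * d), w U y ≤
        ∫ y in (p + i * d)..(p + (i + 1 : ℕ) * d), φ y * w U y := by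
      rw [← intervalIntegral.integral_const_mul]
      refine intervalIntegral.integral_mono_on hle ((s5 i hi').const_mul _) (s1 i hi') fun y hy => ?_
      refine mul_le_mul_of_nonneg_right ?_ (hw0 U y)
      rw [hm]
      have h2 := (abs_le.1 (hosc i hi' y hy.1 hy.2)).1
      exact max_le (by linarith) (hφ0 y)
    have h2 : ∫ y in (p + i * d)..(p + (i + 1 : ℕ) * d), φ y ≤ (m + 2 * η) * d := by
      have h3 : ∫ y in (p + i * d)..(p + (i + 1 : ℕ) * d), φ y ≤
          ∫ y in (p + i * d)..(p + (i + 1 : ℕ) * d), (m + 2 * η) := by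
        refine intervalIntegral.integral_mono_on hle (s3 i hi') intervalIntegrable_const
          fun y hy => ?_
        have h2 := (abs_le.1 (hosc i hi' y hy.1 hy.2)).2
        have h4 : φ (p + i * d) - η ≤ m := by rw [hm]; exact le_max_left _ _
        linarith
      rw [intervalIntegral.integral_const, smul_eq_mul, hlen] at h3
      linarith
    have h3 := mul_le_mul_of_nonneg_left (hU i hi) hm0
    have h4 := mul_le_mul_of_nonneg_left h2 hκ
    have h5 : m * η * d ≤ |M| * η * d := by gcongr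
    nlinarith
  have hsum := Finset.sum_le_sum hpiece
  rw [Finset.sum_sub_distrib, ← Finset.mul_sum, Finset.sum_const, Finset.card_range,
    nsmul_eq_mul] at hsum
  refine le_trans ?_ hsum
  have h6 : (n : ℝ) * ((2 * κ + |M|) * η * d) = (2 * κ + |M|) * (q - p) * η := by
    rw [← hnd]; ring
  rw [h6]
  have h7 : 0 ≤ (q - p) * η := by positivity
  nlinarith

/-- upper bounds on windows pass to continuous weights -/
theorem weight_up {p q : ℝ} (hpq : p < q)
    (hw0 : ∀ U y, 0 ≤ w U y) (hwi : ∀ᶠ U in l, IntervalIntegrable (w U) volume p q)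
    (H : ∀ a b, p ≤ a → a < b → b ≤ q → ∀ ε : ℝ, 0 < ε → ∀ᶠ U in l,
      ∫ y in a..b, w U y ≤ (b - a) + ε)
    {φ : ℝ → ℝ} (hφ : Continuous φ) (hφ0 : ∀ y, 0 ≤ φ y) {ε : ℝ} (hε : 0 < ε) :
    ∀ᶠ U in l, ∫ y in p..q, φ y * w U y ≤ (∫ y in p..q, φ y) + ε := by
  obtain ⟨M, hM⟩ := isCompact_Icc.exists_bound_of_continuousOn (s := Icc p q) hφ.continuousOn
  have hM0 : 0 ≤ |M| := abs_nonneg M
  have hqp : 0 < q - p := by linarith
  obtain ⟨η, hη⟩ : ∃ η : ℝ, η = min 1 (ε / ((|M| + 4) * (q - p))) := ⟨_, rfl⟩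
  have hη0 : 0 < η := by rw [hη]; exact lt_min one_pos (by positivity)
  have hη1 : (|M| + 4) * (q - p) * η ≤ ε := by
    have h1 : η ≤ ε / ((|M| + 4) * (q - p)) := by rw [hη]; exact min_le_right _ _
    rw [le_div_iff₀ (by positivity)] at h1
    linarith
  have hη2 : η ≤ 1 := by rw [hη]; exact min_le_left _ _
  obtain ⟨n, hn, -, hosc⟩ := partition hφ hpq hη0 one_pos
  have hn0 : (0 : ℝ) < n := by exact_mod_cast hn
  obtain ⟨d, hd⟩ : ∃ d : ℝ, d = (q - p) / n := ⟨_, rfl⟩
  have hd0 : 0 < d := by rw [hd]; positivity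
  have hnd : n * d = q - p := by rw [hd]; field_simp
  have hev : ∀ᶠ U in l, ∀ i ∈ Finset.range n,
      ∫ y in (p + i * d)..(p + (i + 1 : ℕ) * d), w U y ≤ d * (1 + η) := by
    rw [Finset.eventually_all]
    intro i hi
    have hi' := Finset.mem_range.1 hi
    have hi1 : ((i + 1 : ℕ) : ℝ) * d ≤ q - p := by
      have : ((i + 1 : ℕ) : ℝ) ≤ n := by exact_mod_cast hi'
      calc _ ≤ (n : ℝ) * d := mul_le_mul_of_nonneg_right this hd0.le
        _ = _ := hnd
    have hi0 : 0 ≤ (i : ℝ) * d := by positivity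
    have h1 := H (p + i * d) (p + (i + 1 : ℕ) * d) (by linarith) (by push_cast; linarith)
      (by linarith) (d * η) (by positivity)
    have e : p + (i + 1 : ℕ) * d - (p + i * d) = d := by push_cast; ring
    rw [e] at h1
    filter_upwards [h1] with U hU
    linarith
  filter_upwards [hev, hwi] with U hU hUi
  have hφw : IntervalIntegrable (fun y => φ y * w U y) volume p q := hUi.continuousOn_mul hφ.continuousOn
  obtain ⟨s1, s2⟩ := sum_pieces hpq hφw hn
  obtain ⟨s3, s4⟩ := sum_pieces hpq (hφ.intervalIntegrable p q) hn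
  obtain ⟨s5, -⟩ := sum_pieces hpq hUi hn
  rw [← hd] at s1 s2 s3 s4 s5 hosc
  rw [← s2, ← s4]
  have hpiece : ∀ i ∈ Finset.range n,
      ∫ y in (p + i * d)..(p + (i + 1 : ℕ) * d), φ y * w U y ≤
      (∫ y in (p + i * d)..(p + (i + 1 : ℕ) * d), φ y) + (|M| + 4) * η * d := by
    intro i hi
    have hi' := Finset.mem_range.1 hi
    have hle : p + i * d ≤ p + (i + 1 : ℕ) * d := by push_cast; linarith
    have hlen : p + (i + 1 : ℕ) * d - (p + i * d) = d := by push_cast; ring
    have hi0 : 0 ≤ (i : ℝ) * d := by positivity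
    have hi1 : ((i + 1 : ℕ) : ℝ) * d ≤ q - p := by
      have : ((i + 1 : ℕ) : ℝ) ≤ n := by exact_mod_cast hi'
      calc _ ≤ (n : ℝ) * d := mul_le_mul_of_nonneg_right this hd0.le
        _ = _ := hnd
    obtain ⟨m, hm⟩ : ∃ m : ℝ, m = φ (p + i * d) := ⟨_, rfl⟩
    have hm0 : 0 ≤ m := by rw [hm]; exact hφ0 _
    have hmM : m ≤ |M| := by
      have h1 := hM (p + i * d) ⟨by linarith, by push_cast at hi1; linarith⟩
      rw [Real.norm_eq_abs, abs_of_nonneg (hφ0 _)] at h1
      rw [hm]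
      exact h1.trans (le_abs_self M)
    have h1 : ∫ y in (p + i * d)..(p + (i + 1 : ℕ) * d), φ y * w U y ≤
        (m + η) * ∫ y in (p + i * d)..(p + (i + 1 : ℕ) * d), w U y := by
      rw [← intervalIntegral.integral_const_mul]
      refine intervalIntegral.integral_mono_on hle (s1 i hi') ((s5 i hi').const_mul _) fun y hy => ?_
      refine mul_le_mul_of_nonneg_right ?_ (hw0 U y)
      have h2 := (abs_le.1 (hosc i hi' y hy.1 hy.2)).2
      rw [← hm] at h2
      linarith
    have h2 : (m - η) * d ≤ ∫ y in (p + i * d)..(p + (i + 1 : ℕ) * d), φ y := by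
      have h3 : ∫ y in (p + i * d)..(p + (i + 1 : ℕ) * d), (m - η) ≤
          ∫ y in (p + i * d)..(p + (i + 1 : ℕ) * d), φ y := by
        refine intervalIntegral.integral_mono_on hle intervalIntegrable_const (s3 i hi')
          fun y hy => ?_
        have h2 := (abs_le.1 (hosc i hi' y hy.1 hy.2)).1
        rw [← hm] at h2
        linarith
      rw [intervalIntegral.integral_const, smul_eq_mul, hlen] at h3
      linarith
    have h3 := mul_le_mul_of_nonneg_left (hU i hi) (show 0 ≤ m + η by positivity)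
    have h5 : m * η * d ≤ |M| * η * d := by gcongr
    have h6 : η * η * d ≤ 1 * η * d := by gcongr
    nlinarith
  have hsum := Finset.sum_le_sum hpiece
  rw [Finset.sum_add_distrib, Finset.sum_const, Finset.card_range, nsmul_eq_mul] at hsum
  refine hsum.trans ?_
  have h6 : (n : ℝ) * ((|M| + 4) * η * d) = (|M| + 4) * (q - p) * η := by
    rw [← hnd]; ring
  rw [h6]
  linarith

end

end Pool.Agent.X83.VP
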