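import Pool.Agent.X83.VP.L3
import Pool.Agent.X83.VP.L6
import Pool.Agent.X83.VP.W1
import Pool.Agent.H336R2.V.ExistsLam

set_option autoImplicit false

/-! # The lower bound for the weighted mean square, under RH -/

open Filter Topology Set MeasureTheory

namespace Pool.Agent.X83.VP

open SP (RHs)
open Pool.Agent.W263.BSD (LInt lap lapC lapC_ofReal lapC_differentiableAt)

noncomputable section

lemma lapC_conj (f : ℝ → ℝ) (w : ℂ) : lapC f ((starRingEnd ℂ) w) = (starRingEnd ℂ) (lapC f w) := by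
  unfold Pool.Agent.W263.BSD.lapC
  rw [← integral_conj]
  refine setIntegral_congr_fun measurableSet_Ioi fun v _ => ?_
  simp only [map_mul, Complex.conj_ofReal]
  rw [← Complex.exp_conj, map_neg, map_mul, Complex.conj_ofReal]

lemma Rt_even (f : ℝ → ℝ) (a b t : ℝ) : Rt f a b (-t) = Rt f a b t := by
  unfold Rt
  have h1 : ((a : ℂ) + ((-t : ℝ) : ℂ) * Complex.I) = (starRingEnd ℂ) ((a : ℂ) + t * Complex.I) := by
    rw [map_add, map_mul, Complex.conj_ofReal, Complex.conj_ofReal, Complex.conj_I]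
    push_cast; ring
  have h2 : Complex.exp (-(Complex.I * b * ((-t : ℝ) : ℂ))) =
      (starRingEnd ℂ) (Complex.exp (-(Complex.I * b * t))) := by
    rw [← Complex.exp_conj]
    congr 1
    rw [map_neg, map_mul, map_mul, Complex.conj_ofReal, Complex.conj_ofReal, Complex.conj_I]
    push_cast; ring
  rw [h1, lapC_conj, h2, ← map_mul, Complex.conj_re]

lemma Rt_abs (f : ℝ → ℝ) (a b t : ℝ) : Rt f a b |t| = Rt f a b t := by
  rcases abs_choice t with h | h
  · rw [h]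
  · rw [h, Rt_even]

/-- twice the mean square over the positive half line -/
lemma planch_half {f : ℝ → ℝ} (hf : Measurable f) {a b : ℝ} (hb : 0 ≤ b) (h1 : LInt f a)
    (h2 : SqI f a) : IntegrableOn (fun t : ℝ => Rt f a b t ^ 2) (Ioi 0) ∧
    2 * ∫ t in Ioi (0 : ℝ), Rt f a b t ^ 2 =
      Real.pi * ∫ v in Ioi (0 : ℝ), f v ^ 2 * Real.exp (-(2 * a * v)) := by
  obtain ⟨i1, i2⟩ := planch hf hb h1 h2
  refine ⟨i1.integrableOn, ?_⟩
  have h3 := integral_comp_abs (f := fun t : ℝ => Rt f a b t ^ 2)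
  rw [← h3, ← i2]
  refine integral_congr_ae (Eventually.of_forall fun t => ?_)
  simp only
  rw [Rt_abs]

lemma exp_sub_le {δ : ℝ} (h0 : 0 ≤ δ) (h1 : δ ≤ 1 / 2) : Real.exp δ - 1 ≤ 2 * δ := by
  have h2 := Real.exp_bound_div_one_sub_of_interval h0 (by linarith : δ < 1)
  have h3 : 1 / (1 - δ) ≤ 1 + 2 * δ := by
    rw [div_le_iff₀ (by linarith)]; nlinarith
  linarith

/-- the multiplier is nearly real -/
lemma kern {δ a t : ℝ} (hδ : 0 ≤ δ) (hδ1 : δ ≤ 1 / 2) (ha : 0 ≤ a) (ha1 : a ≤ 1 / 2) (ht : 0 < t) :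
    ‖Complex.exp (-(Complex.I * (δ / 2 : ℝ) * t)) * CC δ (1 / 2 + ((a : ℂ) + t * Complex.I)) -
      ((2 * Real.sin (δ * t / 2) / t : ℝ) : ℂ)‖ ≤ 3 * δ / t := by
  obtain ⟨σ, hσ⟩ : ∃ σ : ℝ, σ = 1 / 2 + a := ⟨_, rfl⟩
  have hσ0 : 0 < σ := by rw [hσ]; linarith
  have hσ1 : σ ≤ 1 := by rw [hσ]; linarith
  obtain ⟨s, hs⟩ : ∃ s : ℂ, s = (σ : ℂ) + t * Complex.I := ⟨_, rfl⟩
  have hs' : (1 / 2 + ((a : ℂ) + t * Complex.I)) = s := by
    rw [hs, hσ]; push_cast; ring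
  have him : s.im = t := by rw [hs]; simp
  have hns : t ≤ ‖s‖ := by
    have := Complex.abs_im_le_norm s
    rw [him, abs_of_pos ht] at this
    exact this
  have hns0 : 0 < ‖s‖ := ht.trans_le hns
  have hs0 : s ≠ 0 := norm_pos_iff.1 hns0
  rw [hs']
  unfold CC
  have e1 : Complex.exp (-(Complex.I * (δ / 2 : ℝ) * t)) * (Complex.exp (δ * s) - 1) =
      ((Real.exp (δ * σ) - 1 : ℝ) : ℂ) * Complex.exp (((δ * t / 2 : ℝ) : ℂ) * Complex.I) +
      2 * Complex.I * ((Real.sin (δ * t / 2) : ℝ) : ℂ) := by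
    have a1 : Complex.exp (-(Complex.I * (δ / 2 : ℝ) * t)) * Complex.exp (δ * s) =
        ((Real.exp (δ * σ) : ℝ) : ℂ) * Complex.exp (((δ * t / 2 : ℝ) : ℂ) * Complex.I) := by
      rw [Complex.ofReal_exp, ← Complex.exp_add, ← Complex.exp_add, hs]
      congr 1
      push_cast; ring
    have a2 : Complex.exp (-(Complex.I * (δ / 2 : ℝ) * t)) =
        Complex.exp (-(((δ * t / 2 : ℝ) : ℂ) * Complex.I)) := by
      congr 1; push_cast; ring
    rw [mul_sub, a1, mul_one, a2]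
    have a3 : ((Real.sin (δ * t / 2) : ℝ) : ℂ) =
        (Complex.exp (-(((δ * t / 2 : ℝ) : ℂ) * Complex.I)) -
          Complex.exp (((δ * t / 2 : ℝ) : ℂ) * Complex.I)) * Complex.I / 2 := by
      rw [Complex.ofReal_sin, Complex.sin]
      congr 3
      ring
    rw [a3]
    push_cast
    linear_combination (-(Complex.exp (-((δ * t / 2 : ℂ) * Complex.I)) -
      Complex.exp ((δ * t / 2 : ℂ) * Complex.I))) * Complex.I_mul_I
  have e2 : Complex.exp (-(Complex.I * (δ / 2 : ℝ) * t)) * ((Complex.exp (δ * s) - 1) / s) -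
      ((2 * Real.sin (δ * t / 2) / t : ℝ) : ℂ) =
      ((Real.exp (δ * σ) - 1 : ℝ) : ℂ) * Complex.exp (((δ * t / 2 : ℝ) : ℂ) * Complex.I) / s +
      2 * ((Real.sin (δ * t / 2) : ℝ) : ℂ) * (-(σ : ℂ) / (s * t)) := by
    rw [← mul_div_assoc, e1]
    have ht0 : (t : ℂ) ≠ 0 := by exact_mod_cast ht.ne'
    rw [add_div, add_sub_assoc]
    congr 1
    push_cast
    rw [div_sub_div _ _ hs0 ht0, mul_div_assoc', div_left_inj' (mul_ne_zero hs0 ht0), hs]
    ring
  rw [e2]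
  have e4 : 3 * δ / t = 2 * δ / t + δ / t := by ring
  rw [e4]
  refine (norm_add_le _ _).trans (add_le_add ?_ ?_)
  · rw [norm_div, norm_mul, Complex.norm_exp_ofReal_mul_I, mul_one, Complex.norm_real,
      Real.norm_of_nonneg (by
        have : 1 ≤ Real.exp (δ * σ) := Real.one_le_exp (by positivity)
        linarith)]
    have h1 : Real.exp (δ * σ) - 1 ≤ 2 * δ := by
      have h2 : Real.exp (δ * σ) ≤ Real.exp δ := Real.exp_le_exp.2 (by nlinarith)
      have := exp_sub_le hδ hδ1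
      linarith
    exact div_le_div₀ (by positivity) h1 ht hns
  · rw [norm_mul, norm_mul, norm_div, norm_neg, norm_mul, Complex.norm_real, Complex.norm_real,
      Complex.norm_real, Real.norm_of_nonneg hσ0.le, Real.norm_of_nonneg ht.le]
    have h1 : ‖(2 : ℂ)‖ = 2 := by simp
    rw [h1]
    have h2 : ‖Real.sin (δ * t / 2)‖ ≤ δ * t / 2 := by
      rw [Real.norm_eq_abs]
      refine Real.abs_sin_le_abs.trans ?_
      rw [abs_of_nonneg (by positivity)]
    have h3 : σ / (‖s‖ * t) ≤ 1 / t ^ 2 := by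
      rw [sq]
      exact div_le_div₀ zero_le_one hσ1 (by positivity) (mul_le_mul_of_nonneg_right hns ht.le)
    calc 2 * ‖Real.sin (δ * t / 2)‖ * (σ / (‖s‖ * t)) ≤ 2 * (δ * t / 2) * (1 / t ^ 2) := by gcongr
      _ = _ := by field_simp

/-- the real part of the transform against the real part of `ζ'/ζ` -/
lemma Rt_near {δ a a0 t : ℝ} (hδ : 0 < δ) (hδ1 : δ ≤ 1 / 2) (ha0 : 0 ≤ a0) (haa : a0 < a)
    (ha1 : a ≤ 1 / 2) (h : ∀ a' > a0, LInt (fv δ) a') (ht : 0 < t) :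
    |Rt (fv δ) a (δ / 2) t + 2 * Real.sin (δ * t / 2) / t * RZ a t| ≤
      (3 * δ / t) * ‖deriv riemannZeta (⟨1 / 2 + a, t⟩ : ℂ) /
        riemannZeta (⟨1 / 2 + a, t⟩ : ℂ)‖ + 2 * δ / t := by
  have hlog2 : (1 / 2 : ℝ) ≤ Real.log 2 := by
    have := Real.log_two_gt_d9; linarith
  obtain ⟨w, hw⟩ : ∃ w : ℂ, w = (a : ℂ) + t * Complex.I := ⟨_, rfl⟩
  have hwre : w.re = a := by rw [hw]; simp
  have hwim : w.im = t := by rw [hw]; simp
  have hw1 : w ≠ 1 / 2 := by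
    intro h0
    have := congrArg Complex.im h0
    rw [hwim] at this
    simp at this
    linarith
  have hl := lapC_eq hδ (hδ1.trans hlog2) ha0 h (w := w) (by rw [hwre]; exact haa) hw1
  have hs : (1 / 2 + w : ℂ) = ⟨1 / 2 + a, t⟩ := by
    apply Complex.ext
    · simp [hwre]
    · simp [hwim]
  obtain ⟨Z, hZ⟩ : ∃ Z : ℂ, Z = deriv riemannZeta (⟨1 / 2 + a, t⟩ : ℂ) /
        riemannZeta (⟨1 / 2 + a, t⟩ : ℂ) := ⟨_, rfl⟩
  have hRZ : RZ a t = Z.re := by rw [hZ]; rfl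
  rw [← hZ, hRZ]
  have hk := kern hδ.le hδ1 (by linarith : (0 : ℝ) ≤ a) ha1 ht
  rw [← hw] at hk
  obtain ⟨X, hX⟩ : ∃ X : ℂ, X = Complex.exp (-(Complex.I * (δ / 2 : ℝ) * t)) := ⟨_, rfl⟩
  have hXn : ‖X‖ = 1 := by
    rw [hX, show -(Complex.I * ((δ / 2 : ℝ) : ℂ) * t) = ((-(δ / 2 * t) : ℝ) : ℂ) * Complex.I by
      push_cast; ring, Complex.norm_exp_ofReal_mul_I]
  rw [← hX] at hk
  obtain ⟨k, hkk⟩ : ∃ k : ℝ, k = 2 * Real.sin (δ * t / 2) / t := ⟨_, rfl⟩
  rw [← hkk] at hk ⊢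
  have e1 : Rt (fv δ) a (δ / 2) t + k * Z.re =
      (-((X * CC δ (1 / 2 + w) - (k : ℂ)) * Z) -
        X * (((Real.exp δ - 1 : ℝ) : ℂ) / (w - 1 / 2))).re := by
    unfold Rt
    rw [← hw, ← hX, hl, hs, ← hZ]
    have : (k * Z.re : ℝ) = ((k : ℂ) * Z).re := by rw [Complex.re_ofReal_mul]
    rw [this, ← Complex.add_re]
    congr 1
    ring
  rw [e1]
  refine (Complex.abs_re_le_norm _).trans ((norm_sub_le _ _).trans (add_le_add ?_ ?_))
  · rw [norm_neg, norm_mul]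
    exact mul_le_mul_of_nonneg_right hk (norm_nonneg _)
  · rw [norm_mul, hXn, one_mul, norm_div, Complex.norm_real, Real.norm_of_nonneg (by
      have : 1 ≤ Real.exp δ := Real.one_le_exp hδ.le
      linarith)]
    have h2 : t ≤ ‖w - 1 / 2‖ := by
      have h3 := Complex.abs_im_le_norm (w - 1 / 2)
      have h4 : (w - 1 / 2).im = t := by simp [hwim]
      rw [h4, abs_of_pos ht] at h3
      exact h3
    exact div_le_div₀ (by positivity) (exp_sub_le hδ.le hδ1) ht h2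

end

end Pool.Agent.X83.VP
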