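import Pool.Agent.X83.VP.L8
import Pool.Agent.W190.A17

set_option autoImplicit false

/-! # The lower bound for the weighted mean square, unconditionally -/

open Filter Topology Set MeasureTheory

namespace Pool.Agent.X83.VP

open SP (RHs)
open Pool.Agent.W263.BSD (LInt lap lapC lapC_ofReal lapC_differentiableAt)

noncomputable section

lemma RHs_of (RH : RiemannHypothesis) : RHs := by
  intro s h0 h1 hs
  refine RH s hs ?_ ?_
  · rintro ⟨n, rfl⟩
    have e : (-2 * ((n : ℂ) + 1)).re = -2 * ((n : ℝ) + 1) := by simp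
    rw [e] at h0
    have : (0 : ℝ) ≤ n := Nat.cast_nonneg n
    linarith
  · rintro rfl
    simp at h1

lemma exists_zero (h : ¬ RHs) : ∃ s : ℂ, 1 / 2 < s.re ∧ riemannZeta s = 0 := by
  by_contra hcon
  push Not at hcon
  exact h (RHs_of (Pool.Agent.W190.rh_free.2 hcon))

lemma sqI_mono {f : ℝ → ℝ} (hf : Measurable f) {a b : ℝ} (h : SqI f a) (hab : a ≤ b) : SqI f b := by
  unfold SqI at *
  refine Integrable.mono' h (((hf.pow_const 2).mul (by fun_prop)).aestronglyMeasurable) ?_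
  rw [ae_restrict_iff' measurableSet_Ioi]
  filter_upwards with v hv
  rw [norm_mul, Real.norm_of_nonneg (sq_nonneg _), Real.norm_of_nonneg (Real.exp_pos _).le]
  refine mul_le_mul_of_nonneg_left (Real.exp_le_exp.2 ?_) (sq_nonneg _)
  have : a * v ≤ b * v := mul_le_mul_of_nonneg_right hab (le_of_lt hv)
  nlinarith [this]

lemma sqI_int_mono {f : ℝ → ℝ} (hf : Measurable f) {a b : ℝ} (h : SqI f a) (hab : a ≤ b) :
    ∫ v in Ioi (0 : ℝ), f v ^ 2 * Real.exp (-(2 * b * v)) ≤
      ∫ v in Ioi (0 : ℝ), f v ^ 2 * Real.exp (-(2 * a * v)) := by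
  have h2 := sqI_mono hf h hab
  unfold SqI at *
  refine setIntegral_mono_on h2 h measurableSet_Ioi fun v hv => ?_
  refine mul_le_mul_of_nonneg_left (Real.exp_le_exp.2 ?_) (sq_nonneg _)
  have : a * v ≤ b * v := mul_le_mul_of_nonneg_right hab (le_of_lt hv)
  nlinarith [this]

/-- a constant slightly larger than `c` -/
lemma near_c {c : ℝ} (hc : 0 < c) {ε : ℝ} (hε : 0 < ε) :
    ∃ c' : ℝ, c < c' ∧ 1 / (2 * c) - ε ≤ 1 / (2 * c') := by
  have h1 : Tendsto (fun c' : ℝ => 1 / (2 * c')) (𝓝 c) (𝓝 (1 / (2 * c))) := by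
    have : ContinuousAt (fun c' : ℝ => 1 / (2 * c')) c := by
      refine ContinuousAt.div continuousAt_const (by fun_prop) (by positivity)
    exact this
  have h2 : ∀ᶠ c' in 𝓝 c, 1 / (2 * c) - ε < 1 / (2 * c') :=
    h1.eventually (lt_mem_nhds (by linarith))
  have h3 : ∀ᶠ c' in 𝓝[>] c, 1 / (2 * c) - ε < 1 / (2 * c') := h2.filter_mono nhdsWithin_le_nhds
  obtain ⟨c', h4, h5⟩ := (h3.and self_mem_nhdsWithin).exists
  exact ⟨c', h5, h4.le⟩

theorem low_unc {c : ℝ} (hc : 0 < c) {ε : ℝ} (hε : 0 < ε) :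
    ∀ᶠ U : ℝ in atTop, SqI (fv (1 / U)) (c / Real.log U) →
      (1 / (2 * c) - 1 / 2 - ε) * (Real.log U ^ 2 / U) ≤
        ∫ v in Ioi (0 : ℝ), fv (1 / U) v ^ 2 * Real.exp (-(2 * (c / Real.log U) * v)) := by
  by_cases hRH : RHs
  · obtain ⟨c', h1, h2⟩ := near_c hc (half_pos hε)
    filter_upwards [low_main hRH (hc.trans h1) (half_pos hε), eventually_gt_atTop (1 : ℝ)]
      with U hU hU1 hS
    have hL : 0 < Real.log U := Real.log_pos hU1
    have h3 : c / Real.log U < c' / Real.log U := div_lt_div_of_pos_right h1 hL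
    have h4 := hU (c / Real.log U) (by positivity) h3
      (fun a' ha' => lint_of_sq (fv_meas _) hS ha') (sqI_mono (fv_meas _) hS h3.le)
    refine le_trans ?_ (h4.trans (sqI_int_mono (fv_meas _) hS h3.le))
    refine mul_le_mul_of_nonneg_right (by linarith) (by positivity)
  · obtain ⟨s, h1, h2⟩ := exists_zero hRH
    have h3 : Tendsto (fun U : ℝ => c / Real.log U) atTop (𝓝 0) :=
      Tendsto.div_atTop tendsto_const_nhds Real.tendsto_log_atTop
    have h4 : Tendsto (fun U : ℝ => 1 / U) atTop (𝓝 0) :=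
      Tendsto.div_atTop tendsto_const_nhds tendsto_id
    have hlog2 : 0 < Real.log 2 := Real.log_pos (by norm_num)
    filter_upwards [h3.eventually (gt_mem_nhds (show 0 < s.re - 1 / 2 by linarith)),
      h4.eventually (gt_mem_nhds hlog2), eventually_gt_atTop (1 : ℝ)] with U a1 a2 hU1 hS
    exfalso
    have hL : 0 < Real.log U := Real.log_pos hU1
    exact zero_free (δ := 1 / U) (by positivity) a2.le (a0 := c / Real.log U) (by positivity)
      (fun a' ha' => lint_of_sq (fv_meas _) hS ha') (by linarith) h2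

/-- the parameter `δ = log (1 + 1/T)` and its inverse -/
lemma delta_facts {T : ℝ} (hT : 1 ≤ T) : 0 < Real.log (1 + 1 / T) ∧ Real.log (1 + 1 / T) ≤ 1 / T ∧
    T ≤ 1 / Real.log (1 + 1 / T) ∧ 1 / Real.log (1 + 1 / T) ≤ T + 1 := by
  have hT0 : 0 < T := by linarith
  have h0 : 0 < 1 / T := by positivity
  have h1 : 0 < Real.log (1 + 1 / T) := Real.log_pos (by linarith)
  have h2 : Real.log (1 + 1 / T) ≤ 1 / T := by
    have := Real.log_le_sub_one_of_pos (show 0 < 1 + 1 / T by positivity)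
    linarith
  have h3 : 1 / (T + 1) ≤ Real.log (1 + 1 / T) := by
    have h := Real.one_sub_inv_le_log_of_pos (show 0 < 1 + 1 / T by positivity)
    have e : 1 - (1 + 1 / T)⁻¹ = 1 / (T + 1) := by field_simp; ring
    rw [e] at h
    exact h
  refine ⟨h1, h2, ?_, ?_⟩
  · rw [le_div_iff₀ h1]
    calc T * Real.log (1 + 1 / T) ≤ T * (1 / T) := mul_le_mul_of_nonneg_left h2 hT0.le
      _ = 1 := by field_simp
  · rw [div_le_iff₀ h1]
    calc (1 : ℝ) = (T + 1) * (1 / (T + 1)) := by field_simp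
      _ ≤ _ := mul_le_mul_of_nonneg_left h3 (by linarith)

theorem low_T {c : ℝ} (hc : 0 < c) {ε : ℝ} (hε : 0 < ε) :
    ∀ᶠ T : ℝ in atTop, SqI (fv (Real.log (1 + 1 / T))) (c / Real.log T) →
      (1 / (2 * c) - 1 / 2 - ε) * (Real.log T ^ 2 / T) ≤
        ∫ v in Ioi (0 : ℝ), fv (Real.log (1 + 1 / T)) v ^ 2 *
          Real.exp (-(2 * (c / Real.log T) * v)) := by
  rcases le_or_gt (1 / (2 * c) - 1 / 2 - ε) 0 with hneg | hpos
  · filter_upwards [eventually_gt_atTop (1 : ℝ)] with T hT _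
    have h1 : 0 ≤ Real.log T ^ 2 / T := by positivity
    refine (mul_nonpos_of_nonpos_of_nonneg hneg h1).trans ?_
    exact setIntegral_nonneg measurableSet_Ioi fun v _ => by positivity
  · obtain ⟨c', h1, h2⟩ := near_c hc (half_pos (half_pos hε))
    have hc' : 0 < c' := hc.trans h1
    have hU : Tendsto (fun T : ℝ => 1 / Real.log (1 + 1 / T)) atTop atTop := by
      refine tendsto_atTop_mono' atTop ?_ tendsto_id
      filter_upwards [eventually_ge_atTop (1 : ℝ)] with T hT
      exact (delta_facts hT).2.2.1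
    have e1 := hU.eventually (low_unc hc' (half_pos (half_pos hε)))
    have e2 : ∀ᶠ T : ℝ in atTop, (c * Real.log 2) / (c' - c) ≤ Real.log T :=
      Real.tendsto_log_atTop.eventually (eventually_ge_atTop _)
    filter_upwards [e1, e2, eventually_gt_atTop (1 : ℝ),
      eventually_ge_atTop ((1 / (2 * c) - 1 / 2 - ε) / (ε / 2))] with T hT hT2 hT1 hT3 hS
    obtain ⟨d1, d2, d3, d4⟩ := delta_facts hT1.le
    obtain ⟨δ, hδ⟩ : ∃ δ : ℝ, δ = Real.log (1 + 1 / T) := ⟨_, rfl⟩
    obtain ⟨U, hUd⟩ : ∃ U : ℝ, U = 1 / δ := ⟨_, rfl⟩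
    rw [← hδ] at hT d1 d2 d3 d4 hS ⊢
    rw [← hUd] at hT d3 d4
    have hUδ : 1 / U = δ := by rw [hUd, one_div_one_div]
    rw [hUδ] at hT
    have hT0 : 0 < T := by linarith
    have hU1 : 1 < U := by linarith
    have hL : 0 < Real.log T := Real.log_pos hT1
    have hLU : 0 < Real.log U := Real.log_pos hU1
    have hLL : Real.log T ≤ Real.log U := Real.log_le_log hT0 d3
    have hLL2 : Real.log U ≤ Real.log T + Real.log 2 := by
      rw [← Real.log_mul (by positivity) (by norm_num)]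
      exact Real.log_le_log (by linarith) (by linarith)
    have h3 : c / Real.log T ≤ c' / Real.log U := by
      rw [div_le_div_iff₀ hL hLU]
      rw [div_le_iff₀ (by linarith)] at hT2
      calc c * Real.log U ≤ c * (Real.log T + Real.log 2) :=
            mul_le_mul_of_nonneg_left hLL2 hc.le
        _ ≤ c' * Real.log T := by nlinarith
    have h4 := hT (sqI_mono (fv_meas _) hS h3)
    refine le_trans ?_ (h4.trans (sqI_int_mono (fv_meas _) hS h3))
    obtain ⟨K, hK⟩ : ∃ K : ℝ, K = 1 / (2 * c) - 1 / 2 - ε := ⟨_, rfl⟩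
    rw [← hK] at hpos hT3 ⊢
    have h5 : K + ε / 2 ≤ 1 / (2 * c') - 1 / 2 - ε / 2 / 2 := by rw [hK]; linarith
    rw [div_le_iff₀ (by positivity)] at hT3
    calc K * (Real.log T ^ 2 / T) ≤ (K + ε / 2) * (Real.log U ^ 2 / U) := by
          rw [mul_div_assoc', mul_div_assoc', div_le_div_iff₀ hT0 (by linarith)]
          have g1 : Real.log T ^ 2 ≤ Real.log U ^ 2 := pow_le_pow_left₀ hL.le hLL 2
          have g2 : K * U ≤ (K + ε / 2) * T := by nlinarith
          calc K * Real.log T ^ 2 * U = (K * U) * Real.log T ^ 2 := by ring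
            _ ≤ ((K + ε / 2) * T) * Real.log T ^ 2 := mul_le_mul_of_nonneg_right g2 (by positivity)
            _ ≤ ((K + ε / 2) * T) * Real.log U ^ 2 :=
                mul_le_mul_of_nonneg_left g1 (by positivity)
            _ = _ := by ring
      _ ≤ _ := mul_le_mul_of_nonneg_right h5 (by positivity)

end

end Pool.Agent.X83.VP
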