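import Pool.Agent.X112.RO.B

set_option autoImplicit false

/-! # The error term of primes in short intervals: the Laplace transform -/

open MeasureTheory Filter Topology Set

namespace Pool.Agent.X83.VP

open Pool.Agent.W263.BSD (LInt lap lapC lapC_ofReal)
open Pool.Agent.X112.RO (psi_lap exp_lap zeta1_eq deriv_log_eq)

noncomputable section

/-- `e^{-v/2} (ψ(e^{v+δ}) - ψ(e^v) - (e^δ - 1) e^v)` -/
def fv (δ v : ℝ) : ℝ :=
  (Chebyshev.psi (Real.exp (v + δ)) - Chebyshev.psi (Real.exp v) - (Real.exp δ - 1) * Real.exp v) *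
    Real.exp (-v / 2)

lemma fv_meas (δ : ℝ) : Measurable (fv δ) := by
  unfold fv
  have h1 : Measurable fun v : ℝ => Chebyshev.psi (Real.exp (v + δ)) :=
    Chebyshev.psi_mono.measurable.comp (by fun_prop)
  have h2 : Measurable fun v : ℝ => Chebyshev.psi (Real.exp v) :=
    Chebyshev.psi_mono.measurable.comp (by fun_prop)
  have h3 : Measurable fun v : ℝ => (Real.exp δ - 1) * Real.exp v := by fun_prop
  have h4 : Measurable fun v : ℝ => Real.exp (-v / 2) := by fun_prop
  exact ((h1.sub h2).sub h3).mul h4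

/-- a crude bound -/
def Kd (δ : ℝ) : ℝ := (Real.log 4 + 4) * (Real.exp δ + 1) + |Real.exp δ - 1|

lemma Kd_nonneg (δ : ℝ) : 0 ≤ Kd δ := by
  unfold Kd
  have : 0 ≤ Real.log 4 := Real.log_nonneg (by norm_num)
  have h2 := Real.exp_pos δ
  positivity

lemma fv_bd (δ v : ℝ) : |fv δ v| ≤ Kd δ * Real.exp (v / 2) := by
  unfold fv
  rw [abs_mul, abs_of_pos (Real.exp_pos (-v / 2))]
  have h0 : 0 ≤ Real.log 4 := Real.log_nonneg (by norm_num)
  have h1 : Chebyshev.psi (Real.exp (v + δ)) ≤ (Real.log 4 + 4) * Real.exp (v + δ) :=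
    Chebyshev.psi_le_const_mul_self (Real.exp_pos _).le
  have h2 : Chebyshev.psi (Real.exp v) ≤ (Real.log 4 + 4) * Real.exp v :=
    Chebyshev.psi_le_const_mul_self (Real.exp_pos _).le
  have h3 := Chebyshev.psi_nonneg (Real.exp (v + δ))
  have h4 := Chebyshev.psi_nonneg (Real.exp v)
  have h5 : |Chebyshev.psi (Real.exp (v + δ)) - Chebyshev.psi (Real.exp v) -
      (Real.exp δ - 1) * Real.exp v| ≤ Kd δ * Real.exp v := by
    have e1 : |(Real.exp δ - 1) * Real.exp v| = |Real.exp δ - 1| * Real.exp v := by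
      rw [abs_mul, abs_of_pos (Real.exp_pos v)]
    have e2 : |Chebyshev.psi (Real.exp (v + δ)) - Chebyshev.psi (Real.exp v)| ≤
        (Real.log 4 + 4) * (Real.exp δ + 1) * Real.exp v := by
      rw [Real.exp_add] at h1
      have h6 := Real.exp_pos v
      have h7 := Real.exp_pos δ
      rw [abs_le]
      rw [Real.exp_add] at h3
      rw [Real.exp_add]
      constructor
      · nlinarith [mul_pos h6 h7]
      · nlinarith [mul_pos h6 h7]
    calc _ ≤ |Chebyshev.psi (Real.exp (v + δ)) - Chebyshev.psi (Real.exp v)| +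
          |(Real.exp δ - 1) * Real.exp v| := abs_sub _ _
      _ ≤ _ := by rw [e1]; unfold Kd; linarith
  calc _ ≤ Kd δ * Real.exp v * Real.exp (-v / 2) :=
        mul_le_mul_of_nonneg_right h5 (Real.exp_pos _).le
    _ = _ := by
        rw [mul_assoc, ← Real.exp_add]; congr 2; ring

lemma fv_lint {δ a : ℝ} (ha : 1 / 2 < a) : LInt (fv δ) a := by
  unfold Pool.Agent.W263.BSD.LInt
  have h1 : IntegrableOn (fun v : ℝ => Kd δ * Real.exp (-(a - 1 / 2) * v)) (Ioi 0) :=
    (integrableOn_exp_mul_Ioi (by linarith) 0).const_mul _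
  refine Integrable.mono' h1 (((fv_meas δ).mul (by fun_prop)).aestronglyMeasurable) ?_
  filter_upwards with v
  rw [norm_mul, Real.norm_eq_abs, Real.norm_of_nonneg (Real.exp_pos _).le]
  calc _ ≤ Kd δ * Real.exp (v / 2) * Real.exp (-(a * v)) :=
        mul_le_mul_of_nonneg_right (fv_bd δ v) (Real.exp_pos _).le
    _ = _ := by rw [mul_assoc, ← Real.exp_add]; congr 2; ring

/-- the multiplier -/
def CC (δ : ℝ) (s : ℂ) : ℂ := (Complex.exp (δ * s) - 1) / s

/-- `ψ(e^v) e^{-sv}` -/
def PP (s : ℂ) (v : ℝ) : ℂ := ((Chebyshev.psi (Real.exp v) : ℝ) : ℂ) * Complex.exp (-(s * v))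

lemma PP_int {s : ℂ} (hs : 1 < s.re) (b : ℝ) : IntegrableOn (PP s) (Ioi b) := by
  have h1 : IntegrableOn (fun v : ℝ => (Real.log 4 + 4) * Real.exp (-(s.re - 1) * v)) (Ioi b) :=
    (integrableOn_exp_mul_Ioi (by linarith) b).const_mul _
  refine Integrable.mono' h1 ?_ ?_
  · refine ((Complex.measurable_ofReal.comp (Chebyshev.psi_mono.measurable.comp
      (by fun_prop))).mul (by fun_prop)).aestronglyMeasurable
  · filter_upwards with v
    unfold PP
    have h0 : 0 ≤ Real.log 4 := Real.log_nonneg (by norm_num)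
    rw [norm_mul, Complex.norm_real, Real.norm_of_nonneg (Chebyshev.psi_nonneg _),
      Complex.norm_exp]
    have e : (-(s * (v : ℂ))).re = -(s.re * v) := by simp
    rw [e]
    calc _ ≤ (Real.log 4 + 4) * Real.exp v * Real.exp (-(s.re * v)) :=
          mul_le_mul_of_nonneg_right (Chebyshev.psi_le_const_mul_self (Real.exp_pos _).le)
            (Real.exp_pos _).le
      _ = _ := by rw [mul_assoc, ← Real.exp_add]; congr 2; ring

lemma PP_val {s : ℂ} (hs : 1 < s.re) :
    ∫ v in Ioi (0 : ℝ), PP s v = -(deriv riemannZeta s / riemannZeta s) / s := by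
  have h1 := psi_lap (w := s - 1) (by rw [Complex.sub_re, Complex.one_re]; linarith)
  rw [show 1 + (s - 1) = s by ring] at h1
  rw [← h1]
  refine setIntegral_congr_fun measurableSet_Ioi fun v _ => ?_
  unfold PP
  push_cast
  rw [mul_assoc, ← Complex.exp_add]
  congr 2
  ring

lemma shift_Ioi (g : ℝ → ℂ) (δ : ℝ) : ∫ v in Ioi (0 : ℝ), g (v + δ) = ∫ u in Ioi δ, g u := by
  have h1 := (measurePreserving_add_right (volume : Measure ℝ) δ).setIntegral_preimage_emb
    (measurableEmbedding_addRight δ) g (Ioi δ)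
  have h2 : (fun x => x + δ) ⁻¹' Ioi δ = Ioi 0 := by
    ext x; simp
  rw [h2] at h1
  exact h1

lemma PP_shift {s : ℂ} (hs : 1 < s.re) {δ : ℝ} (hδ : 0 ≤ δ) (hδ2 : δ ≤ Real.log 2) :
    ∫ v in Ioi (0 : ℝ), PP s (v + δ) = -(deriv riemannZeta s / riemannZeta s) / s := by
  rw [shift_Ioi, ← PP_val hs]
  have h1 : ∫ v in Ioi (0 : ℝ), PP s v = (∫ v in Ioc 0 δ, PP s v) + ∫ v in Ioi δ, PP s v := by
    rw [← setIntegral_union (Set.Ioc_disjoint_Ioi le_rfl) measurableSet_Ioi
      ((PP_int hs 0).mono_set Ioc_subset_Ioi_self) (PP_int hs δ), Ioc_union_Ioi_eq_Ioi hδ]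
  rw [h1, integral_Ioc_eq_integral_Ioo]
  have h2 : ∫ v in Ioo 0 δ, PP s v = 0 := by
    refine setIntegral_eq_zero_of_forall_eq_zero fun v hv => ?_
    unfold PP
    have h3 : Real.exp v < 2 := by
      rw [← Real.exp_log (show (0 : ℝ) < 2 by norm_num)]
      exact Real.exp_lt_exp.2 (hv.2.trans_le hδ2)
    rw [Chebyshev.psi_eq_zero_of_lt_two h3]
    simp
  rw [h2, zero_add]

/-- the transform in the half plane of absolute convergence -/
theorem lapC_fv {δ : ℝ} (hδ : 0 ≤ δ) (hδ2 : δ ≤ Real.log 2) {w : ℂ} (hw : 1 / 2 < w.re) :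
    lapC (fv δ) w = -(CC δ (1 / 2 + w) * (deriv riemannZeta (1 / 2 + w) /
      riemannZeta (1 / 2 + w))) - ((Real.exp δ - 1 : ℝ) : ℂ) / (w - 1 / 2) := by
  obtain ⟨s, hs⟩ : ∃ s : ℂ, s = 1 / 2 + w := ⟨_, rfl⟩
  have hsre : 1 < s.re := by
    rw [hs, Complex.add_re]; norm_num; linarith
  have hs0 : s ≠ 0 := by rintro rfl; norm_num at hsre
  rw [← hs]
  have h1 := PP_val hsre
  have h2 := PP_shift hsre hδ hδ2
  have hw2 : 0 < (w - 1 / 2).re := by
    rw [Complex.sub_re]; norm_num; linarith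
  obtain ⟨e1, e2⟩ := exp_lap hw2
  have hi2 : IntegrableOn (fun v : ℝ => PP s (v + δ)) (Ioi 0) := by
    have h3 := (measurePreserving_add_right (volume : Measure ℝ) δ).integrableOn_comp_preimage
      (measurableEmbedding_addRight δ) (f := PP s) (s := Ioi δ)
    have h4 : (fun x => x + δ) ⁻¹' Ioi δ = Ioi 0 := by
      ext x; simp
    rw [h4] at h3
    exact h3.2 (PP_int hsre δ)
  have hint : ∫ v in Ioi (0 : ℝ), (Complex.exp (s * δ) * PP s (v + δ) - PP s v -
      ((Real.exp δ - 1 : ℝ) : ℂ) * Complex.exp (-((w - 1 / 2) * v))) =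
      Complex.exp (s * δ) * (-(deriv riemannZeta s / riemannZeta s) / s) -
        (-(deriv riemannZeta s / riemannZeta s) / s) -
        ((Real.exp δ - 1 : ℝ) : ℂ) * (1 / (w - 1 / 2)) := by
    have hA : IntegrableOn (fun v : ℝ => Complex.exp (s * δ) * PP s (v + δ) - PP s v) (Ioi 0) :=
      (hi2.const_mul _).sub (PP_int hsre 0)
    rw [integral_sub hA (e1.const_mul _),
      integral_sub (hi2.const_mul _) (PP_int hsre 0), integral_const_mul, integral_const_mul,
      h1, h2, e2]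
  have h5 : lapC (fv δ) w = ∫ v in Ioi (0 : ℝ), (Complex.exp (s * δ) * PP s (v + δ) - PP s v -
      ((Real.exp δ - 1 : ℝ) : ℂ) * Complex.exp (-((w - 1 / 2) * v))) := by
    unfold Pool.Agent.W263.BSD.lapC
    refine setIntegral_congr_fun measurableSet_Ioi fun v _ => ?_
    unfold fv PP
    push_cast
    have a1 : Complex.exp (-(v : ℂ) / 2) * Complex.exp (-(w * v)) = Complex.exp (-(s * v)) := by
      rw [← Complex.exp_add, hs]; congr 1; ring
    have a2 : Complex.exp (s * δ) * Complex.exp (-(s * (v + δ))) = Complex.exp (-(s * v)) := by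
      rw [← Complex.exp_add]; congr 1; ring
    have a3 : Complex.exp (v : ℂ) * Complex.exp (-(s * v)) = Complex.exp (-((w - 1 / 2) * v)) := by
      rw [← Complex.exp_add, hs]; congr 1; ring
    rw [← a3]
    calc _ = ((Chebyshev.psi (Real.exp (v + δ)) : ℂ) - (Chebyshev.psi (Real.exp v) : ℂ) -
          (Complex.exp δ - 1) * Complex.exp v) *
          (Complex.exp (-(v : ℂ) / 2) * Complex.exp (-(w * v))) := by ring
      _ = (Chebyshev.psi (Real.exp (v + δ)) : ℂ) * Complex.exp (-(s * v)) -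
          (Chebyshev.psi (Real.exp v) : ℂ) * Complex.exp (-(s * v)) -
          (Complex.exp δ - 1) * (Complex.exp v * Complex.exp (-(s * v))) := by rw [a1]; ring
      _ = _ := by
          have a4 : Complex.exp (s * δ) * ((Chebyshev.psi (Real.exp (v + δ)) : ℂ) *
              Complex.exp (-(s * (v + δ)))) = (Chebyshev.psi (Real.exp (v + δ)) : ℂ) *
              Complex.exp (-(s * v)) := by
            rw [← a2]; ring
          rw [a4]
  rw [h5, hint]
  unfold CC
  field_simp
  ring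

end

end Pool.Agent.X83.VP
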