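import Pool.Agent.X83.VP.L9

set_option autoImplicit false

/-! # Change of variable `x = e^v` -/

open Filter Topology Set MeasureTheory

namespace Pool.Agent.X83.VP

noncomputable section

/-- the error in an interval of length `x / T` -/
def DD (T x : ℝ) : ℝ := Chebyshev.psi (x + x / T) - Chebyshev.psi x - x / T

lemma DD_meas (T : ℝ) (hT : 0 < T) : Measurable (DD T) := by
  unfold DD
  have h1 : Monotone fun x : ℝ => x + x / T := fun x y h => by
    have : x / T ≤ y / T := div_le_div_of_nonneg_right h hT.le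
    simp only
    linarith
  exact ((Chebyshev.psi_mono.measurable.comp h1.measurable).sub
    Chebyshev.psi_mono.measurable).sub (by fun_prop)

lemma DD_exp {T : ℝ} (hT : 1 ≤ T) (v : ℝ) :
    DD T (Real.exp v) = fv (Real.log (1 + 1 / T)) v * Real.exp (v / 2) := by
  have hT0 : 0 < T := by linarith
  have h0 : (0 : ℝ) < 1 + 1 / T := by positivity
  unfold DD fv
  rw [Real.exp_add, Real.exp_log h0, mul_assoc, ← Real.exp_add]
  rw [show -v / 2 + v / 2 = 0 by ring, Real.exp_zero, mul_one]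
  have e1 : Real.exp v + Real.exp v / T = Real.exp v * (1 + 1 / T) := by ring
  rw [e1]
  ring

lemma DD_sq {T : ℝ} (hT : 1 ≤ T) (a v : ℝ) :
    Real.exp v * (DD T (Real.exp v) ^ 2 * Real.exp v ^ (-(2 + 2 * a))) =
      fv (Real.log (1 + 1 / T)) v ^ 2 * Real.exp (-(2 * a * v)) := by
  rw [DD_exp hT, ← Real.exp_mul, mul_pow, ← Real.exp_nat_mul]
  have : Real.exp v * (fv (Real.log (1 + 1 / T)) v ^ 2 * Real.exp (((2 : ℕ) : ℝ) * (v / 2)) *
      Real.exp (v * -(2 + 2 * a))) = fv (Real.log (1 + 1 / T)) v ^ 2 *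
      (Real.exp v * Real.exp (((2 : ℕ) : ℝ) * (v / 2)) * Real.exp (v * -(2 + 2 * a))) := by ring
  rw [this, ← Real.exp_add, ← Real.exp_add]
  congr 2
  push_cast
  ring

lemma DD_sq2 {T : ℝ} (hT : 1 ≤ T) (v : ℝ) :
    Real.exp v * (DD T (Real.exp v) ^ 2 / Real.exp v ^ 2) =
      fv (Real.log (1 + 1 / T)) v ^ 2 := by
  rw [DD_exp hT, mul_pow]
  have h1 : Real.exp (v / 2) ^ 2 = Real.exp v := by
    rw [← Real.exp_nat_mul]; congr 1; push_cast; ring
  rw [h1]
  have h2 := (Real.exp_pos v).ne'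
  field_simp

lemma exp_image_Ioi : Real.exp '' Ioi 0 = Ioi 1 := by
  ext x
  constructor
  · rintro ⟨v, hv, rfl⟩
    exact Real.one_lt_exp_iff.2 hv
  · intro hx
    exact ⟨Real.log x, Real.log_pos hx, Real.exp_log (by
      have : (1 : ℝ) < x := hx
      linarith)⟩

lemma exp_image_Ioc (p q : ℝ) : Real.exp '' Ioc p q = Ioc (Real.exp p) (Real.exp q) := by
  ext x
  constructor
  · rintro ⟨v, hv, rfl⟩
    exact ⟨Real.exp_lt_exp.2 hv.1, Real.exp_le_exp.2 hv.2⟩
  · rintro ⟨h1, h2⟩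
    have hx : 0 < x := (Real.exp_pos p).trans h1
    refine ⟨Real.log x, ⟨(Real.lt_log_iff_exp_lt hx).2 h1, (Real.log_le_iff_le_exp hx).2 h2⟩,
      Real.exp_log hx⟩

lemma cov_lint {T : ℝ} (hT : 1 ≤ T) (a : ℝ) :
    ∫⁻ x in Ioi (1 : ℝ), ENNReal.ofReal (DD T x ^ 2 * x ^ (-(2 + 2 * a))) =
      ∫⁻ v in Ioi (0 : ℝ), ENNReal.ofReal (fv (Real.log (1 + 1 / T)) v ^ 2 *
        Real.exp (-(2 * a * v))) := by
  rw [← exp_image_Ioi, lintegral_image_eq_lintegral_abs_deriv_mul measurableSet_Ioi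
    (fun v _ => (Real.hasDerivAt_exp v).hasDerivWithinAt) (Real.exp_injective.injOn)]
  refine setLIntegral_congr_fun measurableSet_Ioi fun v _ => ?_
  rw [← ENNReal.ofReal_mul (abs_nonneg _), abs_of_pos (Real.exp_pos v), DD_sq hT]

lemma cov_int {T : ℝ} (hT : 1 ≤ T) {p q : ℝ} (hpq : p ≤ q) :
    ∫ x in (Real.exp p)..(Real.exp q), DD T x ^ 2 / x ^ 2 =
      ∫ v in p..q, fv (Real.log (1 + 1 / T)) v ^ 2 := by
  rw [intervalIntegral.integral_of_le (Real.exp_le_exp.2 hpq), intervalIntegral.integral_of_le hpq,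
    ← exp_image_Ioc, integral_image_eq_integral_abs_deriv_smul measurableSet_Ioc
    (fun v _ => (Real.hasDerivAt_exp v).hasDerivWithinAt) (Real.exp_injective.injOn)]
  refine setIntegral_congr_fun measurableSet_Ioc fun v _ => ?_
  rw [abs_of_pos (Real.exp_pos v), smul_eq_mul, DD_sq2 hT]

/-- the unconditional lower bound -/
theorem scale_low {c : ℝ} (hc : 0 < c) {ε : ℝ} (hε : 0 < ε) :
    ∀ᶠ T : ℝ in atTop, ENNReal.ofReal ((1 / (2 * c) - 1 / 2 - ε) * (Real.log T ^ 2 / T)) ≤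
      ∫⁻ x in Ioi (1 : ℝ), ENNReal.ofReal (DD T x ^ 2 * x ^ (-(2 + 2 * (c / Real.log T)))) := by
  filter_upwards [low_T hc hε, eventually_ge_atTop (1 : ℝ)] with T hT hT1
  rw [cov_lint hT1]
  by_cases hS : SqI (fv (Real.log (1 + 1 / T))) (c / Real.log T)
  · have h1 := hT hS
    unfold SqI at hS
    rw [← ofReal_integral_eq_lintegral_ofReal hS (Eventually.of_forall fun v => by positivity)]
    exact ENNReal.ofReal_le_ofReal h1
  · have h2 : ∫⁻ v in Ioi (0 : ℝ), ENNReal.ofReal (fv (Real.log (1 + 1 / T)) v ^ 2 *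
        Real.exp (-(2 * (c / Real.log T) * v))) = ⊤ := by
      by_contra h3
      apply hS
      unfold SqI
      refine ⟨(((fv_meas _).pow_const 2).mul (by fun_prop)).aestronglyMeasurable, ?_⟩
      rw [hasFiniteIntegral_iff_ofReal (Eventually.of_forall fun v => by positivity)]
      exact lt_top_iff_ne_top.2 h3
    rw [h2]
    exact le_top

end

end Pool.Agent.X83.VP
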