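import Pool.Agent.X83.VP.L6
import Pool.Agent.X83.PC.Diag5

set_option autoImplicit false

/-! # An upper bound for the mean square of the sum over zeros -/

open Filter Topology Set MeasureTheory

namespace Pool.Agent.X83.VP

open H370 (Zf mult mem_Zf good_zeta)
open Pool.Agent.X113.PC (SU cc BM cc_nonneg)
open Pool.Agent.X113.PG (ite01)
open Pool.Agent.TH850.UV (mS mS_nonneg)

noncomputable section

lemma om_sum {y : ℝ} (hy : 0 < y) (K : ℕ) :
    ∑ k ∈ Finset.range K, y / (y ^ 2 + ((k : ℝ) + 1) ^ 2) ≤ 2 := by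
  have h1 : ∀ K : ℕ, ∑ k ∈ Finset.range K, y / (y ^ 2 + ((k : ℝ) + 1) ^ 2) ≤
      2 * y * (1 / y - 1 / (y + K)) := by
    intro K
    induction K with
    | zero => simp
    | succ K ih =>
      rw [Finset.sum_range_succ]
      have hK : (0 : ℝ) ≤ K := Nat.cast_nonneg K
      have h2 : y / (y ^ 2 + ((K : ℝ) + 1) ^ 2) ≤ 2 * y * (1 / (y + K) - 1 / (y + (K + 1))) := by
        have e1 : 1 / (y + K) - 1 / (y + (K + 1)) = 1 / ((y + K) * (y + (K + 1))) := by
          field_simp; ring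
        rw [e1, mul_one_div, div_le_div_iff₀ (by positivity) (by positivity)]
        have h3 : (y + K) * (y + (K + 1)) ≤ 2 * (y ^ 2 + ((K : ℝ) + 1) ^ 2) := by
          have h4 : (y + K) * (y + (K + 1)) ≤ (y + (K + 1)) ^ 2 := by nlinarith
          have h5 : (y + ((K : ℝ) + 1)) ^ 2 ≤ 2 * (y ^ 2 + ((K : ℝ) + 1) ^ 2) := by
            nlinarith [sq_nonneg (y - ((K : ℝ) + 1))]
          linarith
        calc y * ((y + K) * (y + (K + 1))) ≤ y * (2 * (y ^ 2 + ((K : ℝ) + 1) ^ 2)) :=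
              mul_le_mul_of_nonneg_left h3 hy.le
          _ = _ := by ring
      have e2 : 2 * y * (1 / y - 1 / (y + ((K + 1 : ℕ) : ℝ))) =
          2 * y * (1 / y - 1 / (y + K)) + 2 * y * (1 / (y + K) - 1 / (y + (K + 1))) := by
        push_cast; ring
      rw [e2]
      linarith
  refine (h1 K).trans ?_
  have hK : (0 : ℝ) ≤ K := Nat.cast_nonneg K
  have h2 : (0 : ℝ) ≤ 1 / (y + K) := by positivity
  calc 2 * y * (1 / y - 1 / (y + K)) ≤ 2 * y * (1 / y) :=
        mul_le_mul_of_nonneg_left (by linarith) (by positivity)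
    _ = 2 := by field_simp

/-- the weights -/
def om (x h : ℝ) (k : ℕ) : ℝ := x / (x ^ 2 + (k * h) ^ 2)

lemma om_nonneg {x : ℝ} (hx : 0 < x) (h : ℝ) (k : ℕ) : 0 ≤ om x h k := by unfold om; positivity

lemma om_total {x h : ℝ} (hx : 0 < x) (hh : 0 < h) (K : ℕ) :
    ∑ k ∈ Finset.range K, om x h k ≤ 1 / x + 2 / h := by
  rcases Nat.eq_zero_or_pos K with rfl | hK
  · simp; positivity
  obtain ⟨M, rfl⟩ : ∃ M, K = M + 1 := ⟨K - 1, by omega⟩
  rw [Finset.sum_range_succ']
  have h0 : om x h 0 = 1 / x := by unfold om; field_simp; simp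
  have h1 : ∑ k ∈ Finset.range M, om x h (k + 1) ≤ 2 / h := by
    have h2 := om_sum (y := x / h) (by positivity) M
    have e : ∀ k ∈ Finset.range M, om x h (k + 1) =
        1 / h * (x / h / ((x / h) ^ 2 + ((k : ℝ) + 1) ^ 2)) := by
      intro k _
      unfold om
      push_cast
      have g1 : (0 : ℝ) < x ^ 2 + (((k : ℝ) + 1) * h) ^ 2 := by positivity
      have g2 : (0 : ℝ) < (x / h) ^ 2 + ((k : ℝ) + 1) ^ 2 := by positivity
      rw [eq_comm]
      field_simp
    rw [Finset.sum_congr rfl e, ← Finset.mul_sum]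
    calc 1 / h * ∑ k ∈ Finset.range M, x / h / ((x / h) ^ 2 + ((k : ℝ) + 1) ^ 2) ≤ 1 / h * 2 :=
          mul_le_mul_of_nonneg_left h2 (by positivity)
      _ = 2 / h := by ring
  rw [h0]
  linarith

lemma pk_le_win {x h : ℝ} (hx : 0 < x) (hh : 0 < h) {K : ℕ} (hK : 1 < K * h) (v g : ℝ) :
    pk x (v - g) ≤ ∑ k ∈ Finset.range K, om x h k *
      ((if v + k * h < g ∧ g ≤ v + k * h + h then (1 : ℝ) else 0) +
        (if v - (k + 1) * h < g ∧ g ≤ v - (k + 1) * h + h then (1 : ℝ) else 0)) := by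
  classical
  have hnn : ∀ k ∈ Finset.range K, 0 ≤ om x h k *
      ((if v + k * h < g ∧ g ≤ v + k * h + h then (1 : ℝ) else 0) +
        (if v - (k + 1) * h < g ∧ g ≤ v - (k + 1) * h + h then (1 : ℝ) else 0)) := fun k _ =>
    mul_nonneg (om_nonneg hx h k) (add_nonneg (ite01 _) (ite01 _))
  by_cases hvg : |v - g| ≤ 1
  · have e : pk x (v - g) = x / (x ^ 2 + (v - g) ^ 2) := by unfold pk; rw [if_pos hvg]
    rw [e]
    have key : ∀ k : ℕ, k < K → (k : ℝ) * h ≤ |v - g| → (1 : ℝ) ≤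
        ((if v + k * h < g ∧ g ≤ v + k * h + h then (1 : ℝ) else 0) +
        (if v - (k + 1) * h < g ∧ g ≤ v - (k + 1) * h + h then (1 : ℝ) else 0)) →
        x / (x ^ 2 + (v - g) ^ 2) ≤ ∑ k ∈ Finset.range K, om x h k *
      ((if v + k * h < g ∧ g ≤ v + k * h + h then (1 : ℝ) else 0) +
        (if v - (k + 1) * h < g ∧ g ≤ v - (k + 1) * h + h then (1 : ℝ) else 0)) := by
      intro k hk h1 h2
      refine le_trans ?_ (Finset.single_le_sum hnn (Finset.mem_range.2 hk))
      have h3 : x / (x ^ 2 + (v - g) ^ 2) ≤ om x h k := by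
        unfold om
        refine div_le_div_of_nonneg_left hx.le (by positivity) ?_
        have : (k * h) ^ 2 ≤ (v - g) ^ 2 := by
          rw [← sq_abs (v - g)]
          exact pow_le_pow_left₀ (by positivity) h1 2
        linarith
      calc x / (x ^ 2 + (v - g) ^ 2) ≤ om x h k * 1 := by rw [mul_one]; exact h3
        _ ≤ _ := mul_le_mul_of_nonneg_left h2 (om_nonneg hx h k)
    rcases le_or_gt g v with hgv | hgv
    · -- `g ≤ v`
      have hab : |v - g| = v - g := abs_of_nonneg (by linarith)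
      obtain ⟨k, hk⟩ : ∃ k : ℕ, k = ⌊(v - g) / h⌋₊ := ⟨_, rfl⟩
      have g1 : (k : ℝ) ≤ (v - g) / h := by
        rw [hk]; exact Nat.floor_le (div_nonneg (by linarith) hh.le)
      have g2 : (v - g) / h < k + 1 := by rw [hk]; exact Nat.lt_floor_add_one _
      rw [le_div_iff₀ hh] at g1
      rw [div_lt_iff₀ hh] at g2
      refine key k ?_ (by rw [hab]; exact g1) ?_
      · have : (k : ℝ) < K := by
          by_contra hcon
          push Not at hcon
          have : (K : ℝ) * h ≤ k * h := mul_le_mul_of_nonneg_right hcon hh.le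
          rw [hab] at hvg
          linarith
        exact_mod_cast this
      · rw [if_pos (show v - (k + 1) * h < g ∧ g ≤ v - (k + 1) * h + h from
          ⟨by linarith, by linarith⟩)]
        have := ite01 (v + k * h < g ∧ g ≤ v + k * h + h)
        linarith
    · have hab : |v - g| = g - v := by rw [abs_of_neg (by linarith)]; ring
      obtain ⟨n, hn⟩ : ∃ n : ℕ, n = ⌈(g - v) / h⌉₊ := ⟨_, rfl⟩
      have hpos : 0 < (g - v) / h := div_pos (by linarith) hh
      have hn1 : 0 < n := by rw [hn]; exact Nat.ceil_pos.2 hpos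
      obtain ⟨k, hk⟩ : ∃ k, n = k + 1 := ⟨n - 1, by omega⟩
      have g1 : (g - v) / h ≤ n := by rw [hn]; exact Nat.le_ceil _
      have g2 : (n : ℝ) < (g - v) / h + 1 := by rw [hn]; exact Nat.ceil_lt_add_one hpos.le
      rw [hk] at g1 g2
      push_cast at g1 g2
      rw [div_le_iff₀ hh] at g1
      have g3 : (k : ℝ) < (g - v) / h := by linarith
      rw [lt_div_iff₀ hh] at g3
      refine key k ?_ (by rw [hab]; exact g3.le) ?_
      · have : (k : ℝ) < K := by
          by_contra hcon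
          push Not at hcon
          have : (K : ℝ) * h ≤ k * h := mul_le_mul_of_nonneg_right hcon hh.le
          rw [hab] at hvg
          linarith
        exact_mod_cast this
      · rw [if_pos (show v + k * h < g ∧ g ≤ v + k * h + h from ⟨by linarith, by linarith⟩)]
        have := ite01 (v - (k + 1) * h < g ∧ g ≤ v - (k + 1) * h + h)
        linarith
  · have e : pk x (v - g) = 0 := by unfold pk; rw [if_neg hvg]
    rw [e]
    exact Finset.sum_nonneg hnn

lemma hh_le_cc {x h T : ℝ} (hT : 2 ≤ T) (hx : 0 < x) (hh0 : 0 < h) {K : ℕ} (hK : 1 < K * h)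
    (v : ℝ) : hh T x v ≤ ∑ k ∈ Finset.range K, om x h k *
      (cc T h (v + k * h) + cc T h (v - (k + 1) * h)) := by
  classical
  have h1 : hh T x v ≤ ∑ s ∈ Zf riemannZeta T (2 * T), mS s *
      ∑ k ∈ Finset.range K, om x h k *
      ((if v + k * h < s.im ∧ s.im ≤ v + k * h + h then (1 : ℝ) else 0) +
        (if v - (k + 1) * h < s.im ∧ s.im ≤ v - (k + 1) * h + h then (1 : ℝ) else 0)) := by
    unfold hh
    exact Finset.sum_le_sum fun s _ => mul_le_mul_of_nonneg_left (pk_le_win hx hh0 hK v s.im)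
      (mS_nonneg s)
  have hsub : Zf riemannZeta T (2 * T) ⊆ SU T := by
    intro s hs
    unfold SU
    rw [mem_Zf good_zeta (by linarith)] at hs ⊢
    obtain ⟨a0, a1, a2, a3, a4⟩ := hs
    exact ⟨a0, a1, by linarith, by linarith, a4⟩
  have hnn : ∀ s : ℂ, 0 ≤ mS s * ∑ k ∈ Finset.range K, om x h k *
      ((if v + k * h < s.im ∧ s.im ≤ v + k * h + h then (1 : ℝ) else 0) +
        (if v - (k + 1) * h < s.im ∧ s.im ≤ v - (k + 1) * h + h then (1 : ℝ) else 0)) := fun s =>
    mul_nonneg (mS_nonneg s) (Finset.sum_nonneg fun k _ =>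
      mul_nonneg (om_nonneg hx h k) (add_nonneg (ite01 _) (ite01 _)))
  refine h1.trans ((Finset.sum_le_sum_of_subset_of_nonneg hsub fun s _ _ => hnn s).trans ?_)
  apply le_of_eq
  simp_rw [Finset.mul_sum]
  rw [Finset.sum_comm]
  refine Finset.sum_congr rfl fun k _ => ?_
  have e1 : cc T h (v + k * h) = ∑ s ∈ SU T, mS s *
      (if v + k * h < s.im ∧ s.im ≤ v + k * h + h then (1 : ℝ) else 0) := rfl
  have e2 : cc T h (v - (k + 1) * h) = ∑ s ∈ SU T, mS s *
      (if v - (k + 1) * h < s.im ∧ s.im ≤ v - (k + 1) * h + h then (1 : ℝ) else 0) := rfl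
  rw [e1, e2, ← Finset.sum_add_distrib, Finset.mul_sum]
  refine Finset.sum_congr rfl fun s _ => ?_
  ring

/-- Cauchy–Schwarz with weights -/
lemma cs_w {K : ℕ} (w y z : ℕ → ℝ) (hw : ∀ k, 0 ≤ w k) :
    (∑ k ∈ Finset.range K, w k * (y k + z k)) ^ 2 ≤
      (∑ k ∈ Finset.range K, w k) * ∑ k ∈ Finset.range K, w k * (2 * y k ^ 2 + 2 * z k ^ 2) := by
  have h1 := Finset.sum_mul_sq_le_sq_mul_sq (Finset.range K) (fun k => Real.sqrt (w k))
    (fun k => Real.sqrt (w k) * (y k + z k))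
  have e1 : ∑ k ∈ Finset.range K, Real.sqrt (w k) * (Real.sqrt (w k) * (y k + z k)) =
      ∑ k ∈ Finset.range K, w k * (y k + z k) := by
    refine Finset.sum_congr rfl fun k _ => ?_
    rw [← mul_assoc, Real.mul_self_sqrt (hw k)]
  have e2 : ∑ k ∈ Finset.range K, Real.sqrt (w k) ^ 2 = ∑ k ∈ Finset.range K, w k :=
    Finset.sum_congr rfl fun k _ => Real.sq_sqrt (hw k)
  rw [e1, e2] at h1
  refine h1.trans (mul_le_mul_of_nonneg_left ?_ (Finset.sum_nonneg fun k _ => hw k))
  refine Finset.sum_le_sum fun k _ => ?_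
  rw [mul_pow, Real.sq_sqrt (hw k)]
  refine mul_le_mul_of_nonneg_left ?_ (hw k)
  nlinarith [sq_nonneg (y k - z k)]

/-- the mean square of the sum over zeros, from above -/
theorem hh_mean_le : ∃ C T0 : ℝ, 1 ≤ C ∧ 100 ≤ T0 ∧ ∀ T : ℝ, T0 ≤ T → ∀ x : ℝ, 0 < x →
    ∫ v in (6 / 5 * T)..(9 / 5 * T), hh T x v ^ 2 ≤ C * T * (1 / x + Real.log T) ^ 2 := by
  obtain ⟨C, U0, hC, hU0, h⟩ := Pool.Agent.X83.PC.second2
  have hpi := Real.pi_pos
  have hpi3 := Real.pi_gt_three
  refine ⟨16 * (2 + C), U0, by linarith, hU0, fun T hT x hx => ?_⟩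
  have hT100 : 100 ≤ T := hU0.trans hT
  have hL : 1 < Real.log T := by
    rw [Real.lt_log_iff_exp_lt (by linarith)]
    have := Real.exp_one_lt_d9
    linarith
  obtain ⟨w, hw⟩ : ∃ w : ℝ, w = 1 / Real.log T := ⟨_, rfl⟩
  have hw0 : 0 < w := by rw [hw]; positivity
  have hw1 : w < 1 := by rw [hw, div_lt_one (by linarith)]; exact hL
  have hw2 : w * Real.log T = 1 := by rw [hw]; field_simp
  have hw3 : w ^ 2 * Real.log T ≤ 4 * Real.pi ^ 2 := by
    have : w ^ 2 * Real.log T = w := by rw [pow_two, mul_assoc, hw2, mul_one]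
    rw [this]
    nlinarith
  obtain ⟨-, -, h1, -⟩ := h T hT w hw0 hw3 _ rfl
  rw [hw2] at h1
  have h2 : ∫ t in T..(2 * T), cc T w t ^ 2 ≤ (2 + C) * T := by
    refine h1.trans ?_
    have g1 : (1 / (2 * Real.pi)) ≤ 1 := by
      rw [div_le_one (by positivity)]; linarith
    have g0 : 0 < 1 / (2 * Real.pi) := by positivity
    have g2 : (1 / (2 * Real.pi)) ^ 2 ≤ 1 := by nlinarith
    have g3 : Real.log (1 + 1 / (2 * Real.pi)) / Real.pi ^ 2 ≤ 1 := by
      rw [div_le_one (by positivity)]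
      have := Real.log_le_sub_one_of_pos (show 0 < 1 + 1 / (2 * Real.pi) by positivity)
      nlinarith
    calc T * ((1 / (2 * Real.pi)) ^ 2 + Real.log (1 + 1 / (2 * Real.pi)) / Real.pi ^ 2 + C) ≤
        T * (1 + 1 + C) := mul_le_mul_of_nonneg_left (by linarith) (by linarith)
      _ = _ := by ring
  obtain ⟨I, hI⟩ : ∃ I : ℝ, I = ∫ t in T..(2 * T), cc T w t ^ 2 := ⟨_, rfl⟩
  have hbm : BM fun t => cc T w t ^ 2 := (BM.cc T w).sq
  have hI0 : 0 ≤ I := by
    rw [hI]; exact intervalIntegral.integral_nonneg (by linarith) fun t _ => sq_nonneg _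
  obtain ⟨K, hK⟩ : ∃ K : ℕ, K = ⌊1 / w⌋₊ + 1 := ⟨_, rfl⟩
  have hK1 : 1 < K * w := by
    rw [hK]; push_cast
    have := Nat.lt_floor_add_one (1 / w)
    rw [div_lt_iff₀ hw0] at this
    exact this
  have hK2 : (K : ℝ) * w ≤ 2 := by
    rw [hK]; push_cast
    have := Nat.floor_le (show 0 ≤ 1 / w by positivity)
    rw [le_div_iff₀ hw0] at this
    linarith
  -- the pointwise bound
  obtain ⟨O, hO⟩ : ∃ O : ℝ, O = ∑ k ∈ Finset.range K, om x w k := ⟨_, rfl⟩
  have hO0 : 0 ≤ O := by rw [hO]; exact Finset.sum_nonneg fun k _ => om_nonneg hx w k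
  have hO1 : O ≤ 2 * (1 / x + Real.log T) := by
    rw [hO]
    refine (om_total hx hw0 K).trans ?_
    have : 2 / w = 2 * Real.log T := by rw [hw]; field_simp
    rw [this]
    have : 0 < 1 / x := by positivity
    linarith
  have h3 : ∀ v, hh T x v ^ 2 ≤ O * ∑ k ∈ Finset.range K, om x w k *
      (2 * cc T w (v + k * w) ^ 2 + 2 * cc T w (v - (k + 1) * w) ^ 2) := by
    intro v
    have h4 := hh_le_cc (T := T) (by linarith) hx hw0 hK1 v
    have h5 := cs_w (K := K) (om x w) (fun k => cc T w (v + k * w))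
      (fun k => cc T w (v - (k + 1) * w)) (om_nonneg hx w)
    rw [← hO] at h5
    exact (pow_le_pow_left₀ (hh_nonneg hx.le T v) h4 2).trans h5
  -- the shifted integrals
  have hi1 : ∀ k : ℕ, IntervalIntegrable (fun v => cc T w (v + k * w) ^ 2) volume
      (6 / 5 * T) (9 / 5 * T) := fun k => (hbm.shift (k * w)).ii _ _
  have hi2 : ∀ k : ℕ, IntervalIntegrable (fun v => cc T w (v - (k + 1) * w) ^ 2) volume
      (6 / 5 * T) (9 / 5 * T) := fun k => by
    have := (hbm.shift (-((k + 1) * w))).ii (6 / 5 * T) (9 / 5 * T)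
    simpa only [← sub_eq_add_neg] using this
  have hgen : ∀ p q : ℝ, T ≤ p → p ≤ q → q ≤ 2 * T → ∫ t in p..q, cc T w t ^ 2 ≤ I := by
    intro p q hp hpq hq
    rw [hI]
    refine intervalIntegral.integral_mono_interval hp hpq hq ?_ (hbm.ii _ _)
    exact Eventually.of_forall fun t => sq_nonneg _
  have hkw : ∀ k ∈ Finset.range K, ((k : ℝ) + 1) * w ≤ 2 := by
    intro k hk
    have : (k : ℝ) + 1 ≤ K := by exact_mod_cast (Finset.mem_range.1 hk)
    exact (mul_le_mul_of_nonneg_right this hw0.le).trans hK2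
  have h6 : ∀ k ∈ Finset.range K, ∫ v in (6 / 5 * T)..(9 / 5 * T), cc T w (v + k * w) ^ 2 ≤ I := by
    intro k hk
    have g := hkw k hk
    have g0 : 0 ≤ (k : ℝ) * w := by positivity
    rw [intervalIntegral.integral_comp_add_right (fun t => cc T w t ^ 2)]
    exact hgen _ _ (by linarith) (by linarith) (by nlinarith)
  have h7 : ∀ k ∈ Finset.range K,
      ∫ v in (6 / 5 * T)..(9 / 5 * T), cc T w (v - (k + 1) * w) ^ 2 ≤ I := by
    intro k hk
    have g := hkw k hk
    have g0 : 0 ≤ ((k : ℝ) + 1) * w := by positivity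
    rw [intervalIntegral.integral_comp_sub_right (fun t => cc T w t ^ 2)]
    exact hgen _ _ (by linarith) (by linarith) (by linarith)
  have hint : ∀ k ∈ Finset.range K, IntervalIntegrable (fun v => om x w k *
      (2 * cc T w (v + k * w) ^ 2 + 2 * cc T w (v - (k + 1) * w) ^ 2)) volume
      (6 / 5 * T) (9 / 5 * T) := fun k _ =>
    (((hi1 k).const_mul 2).add ((hi2 k).const_mul 2)).const_mul _
  have hint2 : IntervalIntegrable (fun v => O * ∑ k ∈ Finset.range K, om x w k *
      (2 * cc T w (v + k * w) ^ 2 + 2 * cc T w (v - (k + 1) * w) ^ 2)) volume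
      (6 / 5 * T) (9 / 5 * T) :=
    (Pool.Agent.X113.PG.ii_sum hint).const_mul _
  calc ∫ v in (6 / 5 * T)..(9 / 5 * T), hh T x v ^ 2 ≤
      ∫ v in (6 / 5 * T)..(9 / 5 * T), O * ∑ k ∈ Finset.range K, om x w k *
      (2 * cc T w (v + k * w) ^ 2 + 2 * cc T w (v - (k + 1) * w) ^ 2) :=
        intervalIntegral.integral_mono_on (by linarith) (hh_sq_ii hx T _ _) hint2
          fun v _ => h3 v
    _ = O * ∑ k ∈ Finset.range K, om x w k *
        (2 * (∫ v in (6 / 5 * T)..(9 / 5 * T), cc T w (v + k * w) ^ 2) +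
          2 * ∫ v in (6 / 5 * T)..(9 / 5 * T), cc T w (v - (k + 1) * w) ^ 2) := by
        rw [intervalIntegral.integral_const_mul, intervalIntegral.integral_finsetSum hint]
        congr 1
        refine Finset.sum_congr rfl fun k _ => ?_
        rw [intervalIntegral.integral_const_mul,
          intervalIntegral.integral_add ((hi1 k).const_mul 2) ((hi2 k).const_mul 2),
          intervalIntegral.integral_const_mul, intervalIntegral.integral_const_mul]
    _ ≤ O * ∑ k ∈ Finset.range K, om x w k * (4 * I) := by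
        refine mul_le_mul_of_nonneg_left (Finset.sum_le_sum fun k hk => ?_) hO0
        refine mul_le_mul_of_nonneg_left ?_ (om_nonneg hx w k)
        have a1 := h6 k hk
        have a2 := h7 k hk
        linarith
    _ = 4 * I * O ^ 2 := by rw [← Finset.sum_mul, ← hO]; ring
    _ ≤ 4 * ((2 + C) * T) * (2 * (1 / x + Real.log T)) ^ 2 := by
        have a1 : O ^ 2 ≤ (2 * (1 / x + Real.log T)) ^ 2 := pow_le_pow_left₀ hO0 hO1 2
        rw [hI] at hI0 ⊢
        exact mul_le_mul (by linarith) a1 (sq_nonneg _) (by positivity)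
    _ = _ := by ring

end

end Pool.Agent.X83.VP
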