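import Pool.Agent.X83.VP.L9
import Pool.Agent.X83.VP.L11

set_option autoImplicit false

/-! # The logarithmic derivative near a compact set and the small ordinates -/

open Filter Topology Set MeasureTheory

namespace Pool.Agent.X83.VP

open SP (RHs)
open Pool.Agent.X112.RO (zeta1_eq deriv_log_eq)
open Pool.Agent.W263.BSD (LInt lap lapC lapC_ofReal lapC_differentiableAt)

noncomputable section

/-- near one point -/
lemma ld_bd_loc {f : ℂ → ℂ} (hf : Differentiable ℂ f) {z1 : ℂ} (hne : f z1 ≠ 0) {σ : ℝ}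
    (hz : ∀ z, f z = 0 → z.re ≤ σ) (z0 : ℂ) : ∃ C : ℝ, 0 ≤ C ∧ ∀ᶠ s in 𝓝 z0, σ < s.re →
      s.re ≤ σ + 1 → ‖deriv f s / f s‖ ≤ C / (s.re - σ) := by
  have hall : AnalyticOnNhd ℂ f univ := fun z _ => hf.analyticAt z
  have han : AnalyticAt ℂ f z0 := hf.analyticAt z0
  have hfin : analyticOrderAt f z0 ≠ ⊤ := by
    refine hall.analyticOrderAt_ne_top_of_isPreconnected isPreconnected_univ (mem_univ z1)
      (mem_univ z0) ?_
    rw [(hall z1 (mem_univ _)).analyticOrderAt_eq_zero.mpr hne]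
    exact ENat.zero_ne_top
  obtain ⟨g, hg, hg0, hfg⟩ := (han.analyticOrderAt_ne_top).1 hfin
  obtain ⟨n, hn⟩ : ∃ n : ℕ, n = analyticOrderNatAt f z0 := ⟨_, rfl⟩
  rw [← hn] at hfg
  have hdg : ContinuousAt (fun z => ‖deriv g z / g z‖) z0 :=
    (hg.deriv.continuousAt.div hg.continuousAt hg0).norm
  obtain ⟨B, hB⟩ : ∃ B : ℝ, B = ‖deriv g z0 / g z0‖ + 1 := ⟨_, rfl⟩
  have hB0 : 0 ≤ B := by rw [hB]; positivity
  have e1 : ∀ᶠ s in 𝓝 z0, ‖deriv g s / g s‖ < B :=
    hdg.eventually_lt continuousAt_const (by rw [hB]; linarith)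
  have e2 : ∀ᶠ s in 𝓝 z0, g s ≠ 0 := hg.continuousAt.eventually_ne hg0
  have e3 : ∀ᶠ s in 𝓝 z0, AnalyticAt ℂ g s := hg.eventually_analyticAt
  have e4 : ∀ᶠ s in 𝓝 z0, ∀ᶠ z in 𝓝 s, f z = (z - z0) ^ n • g z := hfg.eventually_nhds
  refine ⟨n + B, by positivity, ?_⟩
  filter_upwards [e1, e2, e3, e4] with s h1 h2 h3 h4 hs1 hs2
  have hpos : 0 < s.re - σ := by linarith
  have hle : s.re - σ ≤ 1 := by linarith
  have hBle : B ≤ B / (s.re - σ) := by
    rw [le_div_iff₀ hpos]; nlinarith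
  have hfs : f s ≠ 0 := fun h0 => absurd (hz s h0) (by linarith)
  have hfs2 : f s = (s - z0) ^ n • g s := h4.self_of_nhds
  have hder : deriv f s = (n : ℂ) * (s - z0) ^ (n - 1) * g s + (s - z0) ^ n * deriv g s := by
    have h5 : f =ᶠ[𝓝 s] fun z => (z - z0) ^ n * g z := by
      filter_upwards [h4] with z hz using by rw [hz, smul_eq_mul]
    rw [h5.deriv_eq]
    have h6 : HasDerivAt (fun z : ℂ => (z - z0) ^ n) ((n : ℂ) * (s - z0) ^ (n - 1) * 1) s :=
      ((hasDerivAt_id s).sub_const z0).pow n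
    have h7 : deriv (fun z => (z - z0) ^ n * g z) s =
        (n : ℂ) * (s - z0) ^ (n - 1) * 1 * g s + (s - z0) ^ n * deriv g s :=
      (h6.mul h3.differentiableAt.hasDerivAt).deriv
    rw [h7, mul_one]
  rcases Nat.eq_zero_or_pos n with h0 | h0
  · subst h0
    have e : deriv f s / f s = deriv g s / g s := by
      rw [hder, hfs2]; simp
    rw [e]
    calc ‖deriv g s / g s‖ ≤ B := h1.le
      _ ≤ B / (s.re - σ) := hBle
      _ ≤ (((0 : ℕ) : ℝ) + B) / (s.re - σ) := by simp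
  · have hsz : s - z0 ≠ 0 := by
      intro hc
      apply hfs
      rw [hfs2, hc, zero_pow h0.ne', zero_smul]
    have hz0 : f z0 = 0 := by
      have : f z0 = (z0 - z0) ^ n • g z0 := hfg.self_of_nhds
      rw [this, sub_self, zero_pow h0.ne', zero_smul]
    have e : deriv f s / f s = n / (s - z0) + deriv g s / g s := by
      rw [hder, hfs2, smul_eq_mul]
      obtain ⟨m, rfl⟩ : ∃ m, n = m + 1 := ⟨n - 1, by omega⟩
      have : m + 1 - 1 = m := by omega
      rw [this]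
      field_simp
      ring
    rw [e]
    have hre : s.re - σ ≤ ‖s - z0‖ := by
      have h8 := Complex.re_le_norm (s - z0)
      rw [Complex.sub_re] at h8
      have := hz z0 hz0
      linarith
    calc ‖(n : ℂ) / (s - z0) + deriv g s / g s‖ ≤ ‖(n : ℂ) / (s - z0)‖ + ‖deriv g s / g s‖ :=
          norm_add_le _ _
      _ ≤ n / (s.re - σ) + B / (s.re - σ) := by
          refine add_le_add ?_ (h1.le.trans hBle)
          rw [norm_div, Complex.norm_natCast]
          exact div_le_div_of_nonneg_left (Nat.cast_nonneg _) hpos hre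
      _ = _ := by ring

/-- uniformly on a compact set -/
lemma ld_bd {f : ℂ → ℂ} (hf : Differentiable ℂ f) {z1 : ℂ} (hne : f z1 ≠ 0) {σ : ℝ}
    (hz : ∀ z, f z = 0 → z.re ≤ σ) {K : Set ℂ} (hK : IsCompact K) : ∃ C : ℝ, 0 ≤ C ∧ ∀ s ∈ K,
      σ < s.re → s.re ≤ σ + 1 → ‖deriv f s / f s‖ ≤ C / (s.re - σ) := by
  refine hK.induction_on (p := fun S => ∃ C : ℝ, 0 ≤ C ∧ ∀ s ∈ S,
      σ < s.re → s.re ≤ σ + 1 → ‖deriv f s / f s‖ ≤ C / (s.re - σ)) ?_ ?_ ?_ ?_
  · exact ⟨0, le_rfl, fun s hs => absurd hs (notMem_empty s)⟩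
  · rintro S S' hSS ⟨C, hC, h⟩
    exact ⟨C, hC, fun s hs => h s (hSS hs)⟩
  · rintro S S' ⟨C, hC, h⟩ ⟨C', hC', h'⟩
    refine ⟨C + C', by positivity, fun s hs h1 h2 => ?_⟩
    have hpos : 0 < s.re - σ := by linarith
    rcases hs with hs | hs
    · exact (h s hs h1 h2).trans (div_le_div_of_nonneg_right (by linarith) hpos.le)
    · exact (h' s hs h1 h2).trans (div_le_div_of_nonneg_right (by linarith) hpos.le)
  · intro z0 _
    obtain ⟨C, hC, h⟩ := ld_bd_loc hf hne hz z0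
    exact ⟨_, mem_nhdsWithin_of_mem_nhds h, C, hC, fun s hs => hs⟩

lemma one_ne_ : riemannZeta₁ 1 ≠ 0 := by rw [riemannZeta₁_one]; exact one_ne_zero

lemma zeta1_zero (hRH : RHs) (z : ℂ) (hz : riemannZeta₁ z = 0) : z.re ≤ 1 / 2 := by
  by_contra hcon
  push Not at hcon
  have hz1 : z ≠ 1 := by rintro rfl; exact one_ne_ hz
  rw [zeta1_eq hz1] at hz
  have h0 : riemannZeta z = 0 := (mul_eq_zero.1 hz).resolve_left (sub_ne_zero.2 hz1)
  rcases lt_or_ge z.re 1 with h | h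
  · have := hRH z (by linarith) h h0
    linarith
  · exact riemannZeta_ne_zero_of_one_le_re h h0

/-- `ζ'/ζ` at bounded ordinates -/
theorem ld_small (hRH : RHs) (T1 : ℝ) : ∃ C : ℝ, 0 ≤ C ∧ ∀ x t : ℝ, 0 < x → x ≤ 1 / 4 → 0 ≤ t →
    t ≤ T1 → ‖deriv riemannZeta (1 / 2 + ((x : ℂ) + t * Complex.I)) /
      riemannZeta (1 / 2 + ((x : ℂ) + t * Complex.I))‖ ≤ C / x := by
  obtain ⟨C, hC, h⟩ := ld_bd differentiable_riemannZeta₁ one_ne_ (σ := 1 / 2) (zeta1_zero hRH)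
    (K := Metric.closedBall 0 (2 + |T1|)) (isCompact_closedBall _ _)
  refine ⟨C + 4, by positivity, fun x t hx hx1 ht0 ht1 => ?_⟩
  obtain ⟨s, hs⟩ : ∃ s : ℂ, s = 1 / 2 + ((x : ℂ) + t * Complex.I) := ⟨_, rfl⟩
  have hre : s.re = 1 / 2 + x := by rw [hs]; simp
  have him : s.im = t := by rw [hs]; simp
  rw [← hs]
  have hs1 : s ≠ 1 := by
    rintro rfl
    rw [Complex.one_re] at hre
    linarith
  have hz : riemannZeta s ≠ 0 := by
    intro h0
    have := hRH s (by linarith) (by linarith) h0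
    linarith
  rw [deriv_log_eq hs1 hz]
  have hmem : s ∈ Metric.closedBall (0 : ℂ) (2 + |T1|) := by
    rw [mem_closedBall_zero_iff]
    refine (Complex.norm_le_abs_re_add_abs_im s).trans ?_
    rw [hre, him, abs_of_pos (by linarith), abs_of_nonneg ht0]
    have := le_abs_self T1
    linarith
  have h1 := h s hmem (by linarith) (by linarith)
  rw [hre] at h1
  rw [show 1 / 2 + x - 1 / 2 = x by ring] at h1
  have h2 : ‖1 / (s - 1)‖ ≤ 4 := by
    rw [norm_div, norm_one]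
    have h3 : 1 / 4 ≤ ‖s - 1‖ := by
      have h4 := Complex.abs_re_le_norm (s - 1)
      rw [Complex.sub_re, hre, Complex.one_re, abs_of_neg (by linarith)] at h4
      linarith
    rw [div_le_iff₀ (by linarith)]
    linarith
  calc ‖deriv riemannZeta₁ s / riemannZeta₁ s - 1 / (s - 1)‖ ≤
      ‖deriv riemannZeta₁ s / riemannZeta₁ s‖ + ‖1 / (s - 1)‖ := norm_sub_le _ _
    _ ≤ C / x + 4 := add_le_add h1 h2
    _ ≤ C / x + 4 / x := by
        have : 4 ≤ 4 / x := by rw [le_div_iff₀ hx]; linarith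
        linarith
    _ = _ := by ring

/-- the transform at bounded ordinates -/
theorem Rt_small (hRH : RHs) (T1 : ℝ) (hT1 : 1 ≤ T1) : ∃ C δ0 : ℝ, 0 ≤ C ∧ 0 < δ0 ∧ ∀ δ : ℝ, 0 < δ →
    δ ≤ δ0 → ∀ a0 a : ℝ, 0 ≤ a0 → a0 < a → a ≤ 1 / 4 → (∀ a' > a0, LInt (fv δ) a') →
    ∀ b t : ℝ, 0 ≤ t → t ≤ T1 → Rt (fv δ) a b t ^ 2 ≤ C * (δ / a) ^ 2 := by
  obtain ⟨C, hC, h⟩ := ld_small hRH T1
  have hlog2 : (0.69 : ℝ) < Real.log 2 := by have := Real.log_two_gt_d9; linarith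
  refine ⟨(2 * C + 8) ^ 2, 1 / (2 + T1), by positivity, by positivity,
    fun δ hδ hδ0 a0 a ha0 ha ha1 hL b t ht0 ht1 => ?_⟩
  have hδ1 : δ ≤ 1 / 2 := hδ0.trans (one_div_le_one_div_of_le (by norm_num) (by linarith))
  obtain ⟨w, hw⟩ : ∃ w : ℂ, w = (a : ℂ) + t * Complex.I := ⟨_, rfl⟩
  have hwre : w.re = a := by rw [hw]; simp
  have hwim : w.im = t := by rw [hw]; simp
  have ha' : 0 < a := by linarith
  have hw1 : w ≠ 1 / 2 := by
    rintro rfl
    norm_num at hwre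
    linarith
  have h1 := lapC_eq hδ (by linarith) ha0 hL (w := w) (by rw [hwre]; exact ha) hw1
  have hCC : ‖CC δ (1 / 2 + w)‖ ≤ 2 * δ := by
    obtain ⟨s, hs⟩ : ∃ s : ℂ, s = 1 / 2 + w := ⟨_, rfl⟩
    have hsre : s.re = 1 / 2 + a := by rw [hs, Complex.add_re, hwre]; norm_num
    have hsim : s.im = t := by rw [hs, Complex.add_im, hwim]; norm_num
    have hs0 : s ≠ 0 := by
      rintro rfl
      rw [Complex.zero_re] at hsre
      linarith
    have hsn : ‖s‖ ≤ 2 + T1 := by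
      refine (Complex.norm_le_abs_re_add_abs_im s).trans ?_
      rw [hsre, hsim, abs_of_pos (by linarith), abs_of_nonneg ht0]
      linarith
    rw [← hs]
    unfold CC
    have h3 : ‖(δ : ℂ) * s‖ ≤ 1 := by
      rw [norm_mul, Complex.norm_real, Real.norm_of_nonneg hδ.le]
      calc δ * ‖s‖ ≤ 1 / (2 + T1) * (2 + T1) := mul_le_mul hδ0 hsn (norm_nonneg _) (by positivity)
        _ = 1 := by field_simp
    have h4 := Complex.norm_exp_sub_one_le h3
    rw [norm_div, div_le_iff₀ (norm_pos_iff.2 hs0)]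
    refine h4.trans (le_of_eq ?_)
    rw [norm_mul, Complex.norm_real, Real.norm_of_nonneg hδ.le]
    ring
  have hld : ‖deriv riemannZeta (1 / 2 + w) / riemannZeta (1 / 2 + w)‖ ≤ C / a := by
    rw [hw]; exact h a t ha' ha1 ht0 ht1
  have h5 : ‖((Real.exp δ - 1 : ℝ) : ℂ) / (w - 1 / 2)‖ ≤ 8 * δ := by
    rw [norm_div, Complex.norm_real, Real.norm_of_nonneg (by
      have := Real.add_one_le_exp δ; linarith)]
    have h6 : 1 / 4 ≤ ‖w - 1 / 2‖ := by
      have h4 := Complex.abs_re_le_norm (w - 1 / 2)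
      rw [Complex.sub_re, hwre] at h4
      norm_num at h4
      rw [abs_of_neg (by linarith)] at h4
      linarith
    have h7 := exp_sub_le hδ.le hδ1
    rw [div_le_iff₀ (by linarith)]
    nlinarith
  have h8 : ‖lapC (fv δ) w‖ ≤ (2 * C + 8) * (δ / a) := by
    rw [h1]
    calc ‖-(CC δ (1 / 2 + w) * (deriv riemannZeta (1 / 2 + w) / riemannZeta (1 / 2 + w))) -
          ((Real.exp δ - 1 : ℝ) : ℂ) / (w - 1 / 2)‖ ≤
        ‖CC δ (1 / 2 + w)‖ * ‖deriv riemannZeta (1 / 2 + w) / riemannZeta (1 / 2 + w)‖ +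
          ‖((Real.exp δ - 1 : ℝ) : ℂ) / (w - 1 / 2)‖ := by
          refine (norm_sub_le _ _).trans ?_
          rw [norm_neg, norm_mul]
      _ ≤ 2 * δ * (C / a) + 8 * δ := by
          refine add_le_add ?_ h5
          exact mul_le_mul hCC hld (norm_nonneg _) (by positivity)
      _ ≤ 2 * δ * (C / a) + 8 * (δ / a) := by
          have : δ ≤ δ / a := by rw [le_div_iff₀ ha']; nlinarith
          linarith
      _ = _ := by ring
  have h9 : |Rt (fv δ) a b t| ≤ ‖lapC (fv δ) w‖ := by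
    unfold Rt
    refine (Complex.abs_re_le_norm _).trans (le_of_eq ?_)
    rw [← hw, norm_mul, Complex.norm_exp]
    have e : (-(Complex.I * (b : ℂ) * (t : ℂ))).re = 0 := by simp
    rw [e, Real.exp_zero, one_mul]
  calc Rt (fv δ) a b t ^ 2 = |Rt (fv δ) a b t| ^ 2 := (sq_abs _).symm
    _ ≤ ((2 * C + 8) * (δ / a)) ^ 2 := pow_le_pow_left₀ (abs_nonneg _) (h9.trans h8) 2
    _ = _ := by ring

end

end Pool.Agent.X83.VP
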