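import Pool.Agent.X83.VP.L12

set_option autoImplicit false

/-! # An upper bound for the weighted mean square, under RH -/

open Filter Topology Set MeasureTheory

namespace Pool.Agent.X83.VP

open SP (RHs)
open Pool.Agent.W263.BSD (LInt lap lapC lapC_ofReal lapC_differentiableAt)

noncomputable section

/-- the mean square of the real part on a block -/
theorem RZ_blk (hRH : RHs) : ∃ C T0 : ℝ, 1 ≤ C ∧ 120 ≤ T0 ∧ ∀ t : ℝ, T0 ≤ t → ∀ x : ℝ, 0 < x →
    x ≤ 1 / 16 → (∫ v in t..(3 / 2 * t), RZ x v ^ 2) ≤ C * t * (1 / x + Real.log t) ^ 2 ∧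
    ∀ v : ℝ, t ≤ v → v ≤ 3 / 2 * t → ‖deriv riemannZeta (⟨1 / 2 + x, v⟩ : ℂ) /
      riemannZeta (⟨1 / 2 + x, v⟩ : ℂ)‖ ≤ C * (Real.log t / x) := by
  obtain ⟨C1, T1, hC1, hT1, h1⟩ := hh_mean_le
  obtain ⟨C2, T2, hC2, hT2, h2⟩ := ld_loc hRH
  refine ⟨3 * C1 + 3 + 3 * C2 ^ 2 + C2, 6 / 5 * max T1 T2, by nlinarith [sq_nonneg C2], ?_,
    fun t ht x hx hx1 => ?_⟩
  · have := le_max_left T1 T2
    linarith
  obtain ⟨T, hT⟩ : ∃ T : ℝ, T = 5 / 6 * t := ⟨_, rfl⟩
  have hTa : T1 ≤ T := by have := le_max_left T1 T2; rw [hT]; linarith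
  have hTb : T2 ≤ T := by have := le_max_right T1 T2; rw [hT]; linarith
  have ht1 : t = 6 / 5 * T := by rw [hT]; ring
  have ht2 : 3 / 2 * t = 9 / 5 * T := by rw [hT]; ring
  have hT100 : 100 ≤ T := hT1.trans hTa
  have hlT : 1 ≤ Real.log T := by
    rw [Real.le_log_iff_exp_le (by linarith)]
    have := Real.exp_one_lt_d9
    linarith
  have hlTt : Real.log T ≤ Real.log t := Real.log_le_log (by linarith) (by linarith)
  obtain ⟨E, hE⟩ : ∃ E : ℝ, E = 1 / x + Real.log t := ⟨_, rfl⟩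
  have hx16 : 16 ≤ 1 / x := by rw [le_div_iff₀ hx]; linarith
  have hE1 : 1 ≤ E := by rw [hE]; linarith
  have hxT : 1 + x * Real.log T ≤ E := by
    have : x * Real.log T ≤ 1 * Real.log T := mul_le_mul_of_nonneg_right (by linarith) (by linarith)
    rw [hE]; linarith
  have hpt : ∀ v : ℝ, t ≤ v → v ≤ 3 / 2 * t →
      RZ x v ^ 2 ≤ 3 * hh T x v ^ 2 + (3 + 3 * C2 ^ 2) * E ^ 2 := by
    intro v hv1 hv2
    obtain ⟨g1, -⟩ := h2 T hTb v (by linarith) (by linarith) x hx hx1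
    have hv0 : 0 < v := by linarith
    have g2 : Real.log v ≤ 2 * Real.log t := by
      have e : Real.log (3 / 2 * t) = Real.log (3 / 2) + Real.log t :=
        Real.log_mul (by norm_num) (by linarith)
      have e2 : Real.log (3 / 2) ≤ 1 := by
        have := Real.log_le_sub_one_of_pos (show (0 : ℝ) < 3 / 2 by norm_num)
        linarith
      have := Real.log_le_log hv0 hv2
      linarith
    have g3 : 0 ≤ Real.log v := Real.log_nonneg (by linarith)
    have g4 : |RZ x v| ≤ hh T x v + (E + C2 * E) := by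
      have g5 : |RZ x v - (hh T x v - 1 / 2 * Real.log v)| ≤ C2 * (1 + x * Real.log T) := g1
      have g6 := hh_nonneg hx.le T v
      have g7 : C2 * (1 + x * Real.log T) ≤ C2 * E := mul_le_mul_of_nonneg_left hxT hC2.le
      have g8 : 1 / 2 * Real.log v ≤ E := by rw [hE]; linarith
      rw [abs_le] at g5 ⊢
      constructor <;> linarith [g5.1, g5.2]
    have g9 := pow_le_pow_left₀ (abs_nonneg _) g4 2
    rw [sq_abs] at g9
    refine g9.trans ?_
    nlinarith [sq_nonneg (hh T x v - E), sq_nonneg (hh T x v - C2 * E), sq_nonneg (E - C2 * E)]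
  constructor
  · have hA := h1 T hTa x hx
    rw [← ht1, ← ht2] at hA
    have hi1 : IntervalIntegrable (fun v => hh T x v ^ 2) volume t (3 / 2 * t) := hh_sq_ii hx _ _ _
    have hi2 : IntervalIntegrable (fun _ : ℝ => (3 + 3 * C2 ^ 2) * E ^ 2) volume t (3 / 2 * t) :=
      intervalIntegrable_const
    have ht0 : 0 ≤ t := by linarith
    calc ∫ v in t..(3 / 2 * t), RZ x v ^ 2 ≤
        ∫ v in t..(3 / 2 * t), (3 * hh T x v ^ 2 + (3 + 3 * C2 ^ 2) * E ^ 2) :=
          intervalIntegral.integral_mono_on (by linarith) (RZ_ii hRH hx (by linarith) (by linarith))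
            ((hi1.const_mul 3).add hi2) fun v hv => hpt v hv.1 hv.2
      _ = 3 * (∫ v in t..(3 / 2 * t), hh T x v ^ 2) +
          (3 / 2 * t - t) * ((3 + 3 * C2 ^ 2) * E ^ 2) := by
          rw [intervalIntegral.integral_add (hi1.const_mul 3) hi2,
            intervalIntegral.integral_const_mul, intervalIntegral.integral_const, smul_eq_mul]
      _ ≤ 3 * (C1 * t * E ^ 2) + t * ((3 + 3 * C2 ^ 2) * E ^ 2) := by
          have a1 : C1 * T * (1 / x + Real.log T) ^ 2 ≤ C1 * t * E ^ 2 := by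
            have b1 : (1 / x + Real.log T) ^ 2 ≤ E ^ 2 :=
              pow_le_pow_left₀ (by linarith) (by rw [hE]; linarith) 2
            have b2 : C1 * T ≤ C1 * t := mul_le_mul_of_nonneg_left (by linarith) (by linarith)
            exact mul_le_mul b2 b1 (sq_nonneg _) (by nlinarith)
          have a2 : 0 ≤ (3 + 3 * C2 ^ 2) * E ^ 2 := by positivity
          have a3 : (3 / 2 * t - t) * ((3 + 3 * C2 ^ 2) * E ^ 2) ≤ t * ((3 + 3 * C2 ^ 2) * E ^ 2) :=
            mul_le_mul_of_nonneg_right (by linarith) a2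
          linarith
      _ ≤ (3 * C1 + 3 + 3 * C2 ^ 2 + C2) * t * E ^ 2 := by
          have : 0 ≤ C2 * t * E ^ 2 := by positivity
          nlinarith
      _ = _ := by rw [hE]
  · intro v hv1 hv2
    obtain ⟨-, g1⟩ := h2 T hTb v (by linarith) (by linarith) x hx hx1
    refine g1.trans ?_
    have g2 : Real.log T / x ≤ Real.log t / x := div_le_div_of_nonneg_right hlTt hx.le
    have g3 : 0 ≤ Real.log T / x := by positivity
    calc C2 * (Real.log T / x) ≤ C2 * (Real.log t / x) := mul_le_mul_of_nonneg_left g2 hC2.le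
      _ ≤ _ := mul_le_mul_of_nonneg_right (by nlinarith [sq_nonneg C2]) (g3.trans g2)

/-- the mean square of the transform on a block -/
theorem Rt_blk (hRH : RHs) : ∃ C T0 : ℝ, 1 ≤ C ∧ 120 ≤ T0 ∧ ∀ t : ℝ, T0 ≤ t → ∀ δ : ℝ, 0 < δ →
    δ ≤ 1 / 2 → ∀ a : ℝ, 0 < a → a ≤ 1 / 16 → (∀ a' > 0, LInt (fv δ) a') → SqI (fv δ) a →
    (∫ τ in t..(3 / 2 * t), Rt (fv δ) a (δ / 2) τ ^ 2) ≤
      C * (min (δ ^ 2) (4 / t ^ 2) * t * (1 / a + Real.log t) ^ 2 +
        δ ^ 2 / t * ((Real.log t / a) ^ 2 + 1)) := by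
  obtain ⟨C, T0, hC, hT0, h⟩ := RZ_blk hRH
  refine ⟨27 * C ^ 2 + 12, T0, by nlinarith, hT0, fun t ht δ hδ hδ1 a ha ha1 hL hS => ?_⟩
  obtain ⟨h1, h2⟩ := h t ht a ha ha1
  have ht0 : 0 < t := by linarith
  obtain ⟨M, hM⟩ : ∃ M : ℝ, M = min (δ ^ 2) (4 / t ^ 2) := ⟨_, rfl⟩
  have hM0 : 0 ≤ M := by rw [hM]; exact le_min (sq_nonneg _) (by positivity)
  obtain ⟨R, hR⟩ : ∃ R : ℝ, R = Real.log t / a := ⟨_, rfl⟩
  have hlt : 0 ≤ Real.log t := Real.log_nonneg (by linarith)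
  have hR0 : 0 ≤ R := by rw [hR]; positivity
  rw [← hM, ← hR]
  rw [← hR] at h2
  have hpt : ∀ τ : ℝ, t ≤ τ → τ ≤ 3 / 2 * t → Rt (fv δ) a (δ / 2) τ ^ 2 ≤
      3 * M * RZ a τ ^ 2 + (27 * C ^ 2 * R ^ 2 + 12) * (δ / t) ^ 2 := by
    intro τ h3 h4
    have hτ : 0 < τ := by linarith
    have g1 := Rt_near (δ := δ) (a0 := 0) (a := a) hδ hδ1 le_rfl ha (by linarith) hL hτ
    have g2 := h2 τ h3 h4
    obtain ⟨s, hs⟩ : ∃ s : ℝ, s = 2 * Real.sin (δ * τ / 2) / τ * RZ a τ := ⟨_, rfl⟩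
    have g3 : s ^ 2 ≤ M * RZ a τ ^ 2 := by
      rw [hs, mul_pow]
      refine mul_le_mul_of_nonneg_right ?_ (sq_nonneg _)
      rw [hM]
      refine le_min ?_ ?_
      · have e : |Real.sin (δ * τ / 2)| ≤ δ * τ / 2 := by
          have := Real.abs_sin_le_abs (x := δ * τ / 2)
          rwa [abs_of_nonneg (show 0 ≤ δ * τ / 2 by positivity)] at this
        have e2 : |2 * Real.sin (δ * τ / 2) / τ| ≤ δ := by
          rw [abs_div, abs_mul, abs_of_pos hτ, abs_of_pos (by norm_num : (0 : ℝ) < 2),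
            div_le_iff₀ hτ]
          linarith
        rw [← sq_abs]
        exact pow_le_pow_left₀ (abs_nonneg _) e2 2
      · have e : |Real.sin (δ * τ / 2)| ≤ 1 := Real.abs_sin_le_one _
        have e2 : |2 * Real.sin (δ * τ / 2) / τ| ≤ 2 / t := by
          rw [abs_div, abs_mul, abs_of_pos hτ, abs_of_pos (by norm_num : (0 : ℝ) < 2),
            div_le_div_iff₀ hτ ht0]
          nlinarith [abs_nonneg (Real.sin (δ * τ / 2))]
        rw [← sq_abs]
        refine (pow_le_pow_left₀ (abs_nonneg _) e2 2).trans (le_of_eq ?_)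
        rw [div_pow]; norm_num
    have g4 : |Rt (fv δ) a (δ / 2) τ| ≤ |s| + 3 * (C * R) * (δ / t) + 2 * (δ / t) := by
      have e0 : δ / τ ≤ δ / t := div_le_div_of_nonneg_left hδ.le ht0 h3
      have e1 : 3 * δ / τ * ‖deriv riemannZeta (⟨1 / 2 + a, τ⟩ : ℂ) /
          riemannZeta (⟨1 / 2 + a, τ⟩ : ℂ)‖ ≤ 3 * (C * R) * (δ / t) := by
        calc _ ≤ 3 * δ / τ * (C * R) := mul_le_mul_of_nonneg_left g2 (by positivity)
          _ = 3 * (C * R) * (δ / τ) := by ring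
          _ ≤ _ := mul_le_mul_of_nonneg_left e0 (by positivity)
      have e2 : 2 * δ / τ ≤ 2 * (δ / t) := by
        rw [mul_div_assoc]; exact mul_le_mul_of_nonneg_left e0 (by norm_num)
      have e3 : |Rt (fv δ) a (δ / 2) τ + s| ≤ 3 * (C * R) * (δ / t) + 2 * (δ / t) := by
        rw [hs]; exact g1.trans (add_le_add e1 e2)
      have e4 := abs_sub (Rt (fv δ) a (δ / 2) τ + s) s
      rw [add_sub_cancel_right] at e4
      linarith
    have g5 := pow_le_pow_left₀ (abs_nonneg _) g4 2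
    rw [sq_abs] at g5
    refine g5.trans ?_
    obtain ⟨y, hy⟩ : ∃ y : ℝ, y = 3 * (C * R) * (δ / t) := ⟨_, rfl⟩
    obtain ⟨z, hz⟩ : ∃ z : ℝ, z = 2 * (δ / t) := ⟨_, rfl⟩
    have e5 : (27 * C ^ 2 * R ^ 2 + 12) * (δ / t) ^ 2 = 3 * y ^ 2 + 3 * z ^ 2 := by
      rw [hy, hz]; ring
    rw [e5, ← hy, ← hz]
    have e6 : |s| ^ 2 = s ^ 2 := sq_abs s
    nlinarith [sq_nonneg (|s| - y), sq_nonneg (|s| - z), sq_nonneg (y - z)]
  have hi0 : IntervalIntegrable (fun τ => Rt (fv δ) a (δ / 2) τ ^ 2) volume t (3 / 2 * t) := by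
    have h5 := (planch_half (fv_meas δ) (b := δ / 2) (by positivity) (hL a ha) hS).1
    rw [intervalIntegrable_iff, uIoc_of_le (by linarith)]
    exact h5.mono_set fun τ hτ => lt_trans ht0 hτ.1
  have hi1 : IntervalIntegrable (fun τ => 3 * M * RZ a τ ^ 2) volume t (3 / 2 * t) :=
    (RZ_ii hRH ha (by linarith) (by linarith)).const_mul _
  have hi2 : IntervalIntegrable (fun _ : ℝ => (27 * C ^ 2 * R ^ 2 + 12) * (δ / t) ^ 2) volume t
      (3 / 2 * t) := intervalIntegrable_const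
  calc ∫ τ in t..(3 / 2 * t), Rt (fv δ) a (δ / 2) τ ^ 2 ≤
      ∫ τ in t..(3 / 2 * t), (3 * M * RZ a τ ^ 2 + (27 * C ^ 2 * R ^ 2 + 12) * (δ / t) ^ 2) :=
        intervalIntegral.integral_mono_on (by linarith) hi0 (hi1.add hi2)
          fun τ hτ => hpt τ hτ.1 hτ.2
    _ = 3 * M * (∫ τ in t..(3 / 2 * t), RZ a τ ^ 2) +
        (3 / 2 * t - t) * ((27 * C ^ 2 * R ^ 2 + 12) * (δ / t) ^ 2) := by
        rw [intervalIntegral.integral_add hi1 hi2, intervalIntegral.integral_const_mul,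
          intervalIntegral.integral_const, smul_eq_mul]
    _ ≤ 3 * M * (C * t * (1 / a + Real.log t) ^ 2) +
        t * ((27 * C ^ 2 * R ^ 2 + 12) * (δ / t) ^ 2) := by
        refine add_le_add (mul_le_mul_of_nonneg_left h1 (by positivity)) ?_
        exact mul_le_mul_of_nonneg_right (by linarith) (by positivity)
    _ ≤ _ := by
        have e1 : t * ((27 * C ^ 2 * R ^ 2 + 12) * (δ / t) ^ 2) =
            (27 * C ^ 2 * R ^ 2 + 12) * (δ ^ 2 / t) := by field_simp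
        rw [e1]
        have hC0 : 0 ≤ C := by linarith
        have e2 : 0 ≤ M * t * (1 / a + Real.log t) ^ 2 := by positivity
        have e3 : 3 * M * (C * t * (1 / a + Real.log t) ^ 2) ≤
            (27 * C ^ 2 + 12) * (M * t * (1 / a + Real.log t) ^ 2) := by
          calc 3 * M * (C * t * (1 / a + Real.log t) ^ 2) =
              (3 * C) * (M * t * (1 / a + Real.log t) ^ 2) := by ring
            _ ≤ _ := mul_le_mul_of_nonneg_right (by nlinarith) e2
        have e4 : (27 * C ^ 2 * R ^ 2 + 12) * (δ ^ 2 / t) ≤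
            (27 * C ^ 2 + 12) * (δ ^ 2 / t * (R ^ 2 + 1)) := by
          have e5 : 27 * C ^ 2 * R ^ 2 + 12 ≤ (27 * C ^ 2 + 12) * (R ^ 2 + 1) := by
            nlinarith [sq_nonneg R, sq_nonneg C]
          calc _ ≤ (27 * C ^ 2 + 12) * (R ^ 2 + 1) * (δ ^ 2 / t) :=
                mul_le_mul_of_nonneg_right e5 (by positivity)
            _ = _ := by ring
        linarith

end

end Pool.Agent.X83.VP
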