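import Pool.Agent.X83.VP.L13

set_option autoImplicit false

/-! # An upper bound for the weighted mean square, under RH: summation over blocks -/

open Filter Topology Set MeasureTheory

namespace Pool.Agent.X83.VP

open SP (RHs)
open Pool.Agent.W263.BSD (LInt lap lapC lapC_ofReal lapC_differentiableAt)

noncomputable section

/-- a bounded function that majorises the sum over blocks -/
def Ph (δ t : ℝ) : ℝ := Real.sqrt (δ * t) / (1 + Real.sqrt (δ * t)) - 1 / Real.sqrt t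

lemma Ph_le (δ : ℝ) {t : ℝ} : Ph δ t ≤ 1 := by
  unfold Ph
  have h1 : Real.sqrt (δ * t) / (1 + Real.sqrt (δ * t)) ≤ 1 := by
    rw [div_le_one (by positivity)]; linarith
  have h2 : 0 ≤ 1 / Real.sqrt t := by positivity
  linarith

lemma Ph_ge (δ : ℝ) {t : ℝ} (ht : 1 ≤ t) : -1 ≤ Ph δ t := by
  unfold Ph
  have h1 : 0 ≤ Real.sqrt (δ * t) / (1 + Real.sqrt (δ * t)) := by positivity
  have h2 : 1 / Real.sqrt t ≤ 1 := by
    have : 1 ≤ Real.sqrt t := Real.one_le_sqrt.2 ht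
    rw [div_le_one (by linarith)]; exact this
  linarith

/-- the ratio of the square roots -/
lemma sq_ratio : ∃ r : ℝ, 6 / 5 ≤ r ∧ r ≤ 5 / 4 ∧ ∀ u : ℝ, 0 ≤ u →
    Real.sqrt (3 / 2 * u) = r * Real.sqrt u := by
  refine ⟨Real.sqrt (3 / 2), Real.le_sqrt_of_sq_le (by norm_num),
    Real.sqrt_le_iff.2 ⟨by norm_num, by norm_num⟩, fun u hu => ?_⟩
  rw [Real.sqrt_mul (by norm_num)]

lemma log_le_fourth {y : ℝ} (hy : 0 ≤ y) : Real.log y ≤ 4 * Real.sqrt (Real.sqrt y) := by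
  have h1 := Real.log_le_rpow_div hy (show (0 : ℝ) < 1 / 4 by norm_num)
  have h2 : y ^ (1 / 4 : ℝ) = Real.sqrt (Real.sqrt y) := by
    rw [Real.sqrt_eq_rpow, Real.sqrt_eq_rpow, ← Real.rpow_mul hy]
    norm_num
  rw [h2] at h1
  linarith

/-- elementary inequality in the variable `z = √(δ t)` -/
lemma min_z {z : ℝ} (hz : 0 < z) : min (z ^ 2) (4 / z ^ 2) * (1 + z) ≤ 32 * (z / (1 + z) ^ 2) := by
  rw [mul_div_assoc', le_div_iff₀ (by positivity)]
  rcases le_or_gt z 1 with h | h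
  · have h1 : min (z ^ 2) (4 / z ^ 2) ≤ z ^ 2 := min_le_left _ _
    have h2 : (1 + z) ^ 3 ≤ 2 ^ 3 := pow_le_pow_left₀ (by positivity) (by linarith) 3
    calc min (z ^ 2) (4 / z ^ 2) * (1 + z) * (1 + z) ^ 2 =
        min (z ^ 2) (4 / z ^ 2) * (1 + z) ^ 3 := by ring
      _ ≤ z ^ 2 * 2 ^ 3 := mul_le_mul h1 h2 (by positivity) (by positivity)
      _ ≤ 32 * z := by nlinarith
  · have h1 : min (z ^ 2) (4 / z ^ 2) ≤ 4 / z ^ 2 := min_le_right _ _
    have h2 : (1 + z) ^ 3 ≤ (2 * z) ^ 3 := pow_le_pow_left₀ (by positivity) (by linarith) 3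
    calc min (z ^ 2) (4 / z ^ 2) * (1 + z) * (1 + z) ^ 2 =
        min (z ^ 2) (4 / z ^ 2) * (1 + z) ^ 3 := by ring
      _ ≤ 4 / z ^ 2 * (2 * z) ^ 3 := mul_le_mul h1 h2 (by positivity) (by positivity)
      _ = 32 * z := by field_simp; ring

/-- the block bound is dominated by an increment -/
lemma blk_dom {c : ℝ} (hc : 0 < c) {L δ t : ℝ} (hδ : 0 < δ) (hδ1 : δ ≤ 1) (hL : L = Real.log (1 / δ))
    (hL1 : 1 ≤ L) (ht : 1 ≤ t) :
    min (δ ^ 2) (4 / t ^ 2) * t * (1 / (c / L) + Real.log t) ^ 2 +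
        δ ^ 2 / t * ((Real.log t / (c / L)) ^ 2 + 1) ≤
      (500 * (1 / c + 5) ^ 2) * (δ * L ^ 2) * (Ph δ (3 / 2 * t) - Ph δ t) := by
  have ht0 : 0 < t := by linarith
  obtain ⟨z, hz⟩ : ∃ z : ℝ, z = Real.sqrt (δ * t) := ⟨_, rfl⟩
  have hz0 : 0 < z := by rw [hz]; exact Real.sqrt_pos.2 (by positivity)
  have hz2 : z ^ 2 = δ * t := by rw [hz]; exact Real.sq_sqrt (by positivity)
  obtain ⟨p, hp⟩ : ∃ p : ℝ, p = Real.sqrt t := ⟨_, rfl⟩
  have hp1 : 1 ≤ p := by rw [hp]; exact Real.one_le_sqrt.2 ht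
  have hp2 : p ^ 2 = t := by rw [hp]; exact Real.sq_sqrt ht0.le
  obtain ⟨r, hr1, hr2, hr⟩ := sq_ratio
  -- the increment
  have hinc : 1 / 10 * (z / (1 + z) ^ 2) + 1 / 6 * (1 / p) ≤ Ph δ (3 / 2 * t) - Ph δ t := by
    unfold Ph
    rw [show δ * (3 / 2 * t) = 3 / 2 * (δ * t) by ring, hr _ (by positivity), hr _ ht0.le, ← hz, ← hp]
    have e1 : r * z / (1 + r * z) - z / (1 + z) = (r - 1) * z / ((1 + r * z) * (1 + z)) := by
      field_simp; ring
    have e2 : 1 / 10 * (z / (1 + z) ^ 2) ≤ (r - 1) * z / ((1 + r * z) * (1 + z)) := by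
      rw [mul_div_assoc', div_le_div_iff₀ (by positivity) (by positivity)]
      have e3 : 1 / 10 * z * ((1 + r * z) * (1 + z)) ≤ 1 / 10 * z * ((5 / 4 * (1 + z)) * (1 + z)) := by
        refine mul_le_mul_of_nonneg_left ?_ (by positivity)
        refine mul_le_mul_of_nonneg_right ?_ (by positivity)
        nlinarith
      have e4 : 1 / 5 * z * (1 + z) ^ 2 ≤ (r - 1) * z * (1 + z) ^ 2 := by
        refine mul_le_mul_of_nonneg_right ?_ (by positivity)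
        exact mul_le_mul_of_nonneg_right (by linarith) hz0.le
      have e5 : 0 ≤ z * (1 + z) ^ 2 := by positivity
      nlinarith
    have e6 : 1 / 6 * (1 / p) ≤ 1 / p - 1 / (r * p) := by
      have e7 : 1 / p - 1 / (r * p) = (1 - 1 / r) * (1 / p) := by field_simp
      have e8 : 1 / r ≤ 5 / 6 := by
        rw [div_le_iff₀ (by linarith)]; linarith
      rw [e7]
      exact mul_le_mul_of_nonneg_right (by linarith) (by positivity)
    linarith
  -- the logarithm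
  have hL0 : 0 < L := by linarith
  have hinvc : 0 < 1 / c := by positivity
  have hlogt : Real.log t ≤ L * (1 + 4 * Real.sqrt (1 + z)) := by
    have e1 : Real.log t = L + Real.log (z ^ 2) := by
      rw [hL, hz2, ← Real.log_mul (by positivity) (by positivity)]
      congr 1; field_simp
    have e2 : Real.log (z ^ 2) ≤ 4 * Real.sqrt (1 + z) := by
      have e3 := log_le_fourth (y := z ^ 2) (by positivity)
      rw [Real.sqrt_sq hz0.le] at e3
      refine e3.trans (mul_le_mul_of_nonneg_left (Real.sqrt_le_sqrt (by linarith)) (by norm_num))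
    have e4 : 4 * Real.sqrt (1 + z) ≤ L * (4 * Real.sqrt (1 + z)) := by
      have : 0 ≤ 4 * Real.sqrt (1 + z) := by positivity
      nlinarith
    rw [e1]
    linarith
  have hs1 : 1 ≤ Real.sqrt (1 + z) := Real.one_le_sqrt.2 (by linarith)
  have hfirst : (1 / (c / L) + Real.log t) ^ 2 ≤ L ^ 2 * (1 / c + 5) ^ 2 * (1 + z) := by
    have e0 : 1 / (c / L) = L * (1 / c) := by field_simp
    have e1 : 1 / (c / L) + Real.log t ≤ L * ((1 / c + 5) * Real.sqrt (1 + z)) := by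
      rw [e0]
      have : L * (1 / c) ≤ L * (1 / c * Real.sqrt (1 + z)) := by
        refine mul_le_mul_of_nonneg_left ?_ hL0.le
        nlinarith
      nlinarith
    have e2 : 0 ≤ 1 / (c / L) + Real.log t := by
      have := Real.log_nonneg ht
      positivity
    refine (pow_le_pow_left₀ e2 e1 2).trans (le_of_eq ?_)
    rw [mul_pow, mul_pow, Real.sq_sqrt (by linarith)]
    ring
  have hmin : min (δ ^ 2) (4 / t ^ 2) * t = δ * min (z ^ 2) (4 / z ^ 2) := by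
    have e1 : min (δ ^ 2) (4 / t ^ 2) * t = min (δ ^ 2 * t) (4 / t ^ 2 * t) :=
      min_mul_of_nonneg _ _ ht0.le
    have e2 : δ * min (z ^ 2) (4 / z ^ 2) = min (δ * z ^ 2) (δ * (4 / z ^ 2)) :=
      mul_min_of_nonneg _ _ hδ.le
    rw [e1, e2, hz2]
    congr 1
    · ring
    · field_simp
  have hA : min (δ ^ 2) (4 / t ^ 2) * t * (1 / (c / L) + Real.log t) ^ 2 ≤
      (320 * (1 / c + 5) ^ 2) * (δ * L ^ 2) * (1 / 10 * (z / (1 + z) ^ 2)) := by
    rw [hmin]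
    have e1 : 0 ≤ min (z ^ 2) (4 / z ^ 2) := le_min (sq_nonneg _) (by positivity)
    calc δ * min (z ^ 2) (4 / z ^ 2) * (1 / (c / L) + Real.log t) ^ 2 ≤
        δ * min (z ^ 2) (4 / z ^ 2) * (L ^ 2 * (1 / c + 5) ^ 2 * (1 + z)) :=
          mul_le_mul_of_nonneg_left hfirst (by positivity)
      _ = (δ * L ^ 2 * (1 / c + 5) ^ 2) * (min (z ^ 2) (4 / z ^ 2) * (1 + z)) := by ring
      _ ≤ (δ * L ^ 2 * (1 / c + 5) ^ 2) * (32 * (z / (1 + z) ^ 2)) :=
          mul_le_mul_of_nonneg_left (min_z hz0) (by positivity)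
      _ = _ := by ring
  have hB : δ ^ 2 / t * ((Real.log t / (c / L)) ^ 2 + 1) ≤
      (96 * (1 / c + 5) ^ 2) * (δ * L ^ 2) * (1 / 6 * (1 / p)) := by
    have e1 : Real.log t ≤ 4 * Real.sqrt p := by
      have := log_le_fourth ht0.le
      rw [← hp] at this
      exact this
    have e2 : 0 ≤ Real.log t := Real.log_nonneg ht
    have e3 : Real.log t ^ 2 ≤ 16 * p := by
      refine (pow_le_pow_left₀ e2 e1 2).trans (le_of_eq ?_)
      rw [mul_pow, Real.sq_sqrt (by linarith)]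
      norm_num
    have e4 : (Real.log t / (c / L)) ^ 2 + 1 ≤ 16 * L ^ 2 * (1 / c + 5) ^ 2 * p := by
      have e5 : (Real.log t / (c / L)) ^ 2 = Real.log t ^ 2 * (L ^ 2 * (1 / c) ^ 2) := by
        field_simp
      have e6 : Real.log t ^ 2 * (L ^ 2 * (1 / c) ^ 2) ≤ 16 * p * (L ^ 2 * (1 / c) ^ 2) :=
        mul_le_mul_of_nonneg_right e3 (by positivity)
      have e7 : (1 / c) ^ 2 + 1 ≤ (1 / c + 5) ^ 2 := by nlinarith
      have e8 : (1 : ℝ) ≤ L ^ 2 * p := by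
        have : (1 : ℝ) ≤ L ^ 2 := one_le_pow₀ hL1
        nlinarith
      have e9 : 16 * L ^ 2 * p * ((1 / c) ^ 2 + 1) ≤ 16 * L ^ 2 * p * (1 / c + 5) ^ 2 :=
        mul_le_mul_of_nonneg_left e7 (by positivity)
      rw [e5]
      nlinarith
    have hpt : δ ^ 2 / t * p = δ ^ 2 * (1 / p) := by
      rw [← hp2]; field_simp
    calc δ ^ 2 / t * ((Real.log t / (c / L)) ^ 2 + 1) ≤
        δ ^ 2 / t * (16 * L ^ 2 * (1 / c + 5) ^ 2 * p) :=
          mul_le_mul_of_nonneg_left e4 (by positivity)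
      _ = 16 * L ^ 2 * (1 / c + 5) ^ 2 * (δ ^ 2 * (1 / p)) := by rw [← hpt]; ring
      _ ≤ 16 * L ^ 2 * (1 / c + 5) ^ 2 * (δ * (1 / p)) := by
          refine mul_le_mul_of_nonneg_left ?_ (by positivity)
          exact mul_le_mul_of_nonneg_right (by nlinarith) (by positivity)
      _ = _ := by ring
  have hz4 : 0 ≤ 1 / 10 * (z / (1 + z) ^ 2) := by positivity
  have hp4 : 0 ≤ 1 / 6 * (1 / p) := by positivity
  obtain ⟨G, hG⟩ : ∃ G : ℝ, G = (1 / c + 5) ^ 2 * (δ * L ^ 2) := ⟨_, rfl⟩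
  have hG0 : 0 ≤ G := by rw [hG]; positivity
  have hA' : min (δ ^ 2) (4 / t ^ 2) * t * (1 / (c / L) + Real.log t) ^ 2 ≤
      500 * G * (1 / 10 * (z / (1 + z) ^ 2)) := by
    refine hA.trans ?_
    rw [hG]
    have : 0 ≤ (1 / c + 5) ^ 2 * (δ * L ^ 2) * (1 / 10 * (z / (1 + z) ^ 2)) := by positivity
    nlinarith
  have hB' : δ ^ 2 / t * ((Real.log t / (c / L)) ^ 2 + 1) ≤ 500 * G * (1 / 6 * (1 / p)) := by
    refine hB.trans ?_
    rw [hG]
    have : 0 ≤ (1 / c + 5) ^ 2 * (δ * L ^ 2) * (1 / 6 * (1 / p)) := by positivity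
    nlinarith
  calc _ ≤ 500 * G * (1 / 10 * (z / (1 + z) ^ 2)) + 500 * G * (1 / 6 * (1 / p)) := add_le_add hA' hB'
    _ = 500 * G * (1 / 10 * (z / (1 + z) ^ 2) + 1 / 6 * (1 / p)) := by ring
    _ ≤ 500 * G * (Ph δ (3 / 2 * t) - Ph δ t) := mul_le_mul_of_nonneg_left hinc (by positivity)
    _ = _ := by rw [hG]; ring

/-- summation over blocks -/
lemma sum_blocks {g : ℝ → ℝ} (hg : IntegrableOn g (Ioi 0)) {t0 K : ℝ} (ht0 : 1 ≤ t0) (hK : 0 ≤ K)
    {δ : ℝ} (h : ∀ t : ℝ, t0 ≤ t → ∫ τ in t..(3 / 2 * t), g τ ≤ K * (Ph δ (3 / 2 * t) - Ph δ t)) :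
    ∫ τ in Ioi t0, g τ ≤ 2 * K := by
  have hii : ∀ p q : ℝ, 0 < p → p ≤ q → IntervalIntegrable g volume p q := by
    intro p q hp hpq
    rw [intervalIntegrable_iff, uIoc_of_le hpq]
    exact hg.mono_set fun τ hτ => lt_trans hp hτ.1
  have hpow : ∀ n : ℕ, t0 ≤ (3 / 2 : ℝ) ^ n * t0 := by
    intro n
    have : (1 : ℝ) ≤ (3 / 2 : ℝ) ^ n := one_le_pow₀ (by norm_num)
    nlinarith
  have h1 : ∀ n : ℕ, ∫ τ in t0..((3 / 2 : ℝ) ^ n * t0), g τ ≤
      K * (Ph δ ((3 / 2 : ℝ) ^ n * t0) - Ph δ t0) := by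
    intro n
    induction n with
    | zero => simp
    | succ n ih =>
      have e : (3 / 2 : ℝ) ^ (n + 1) * t0 = 3 / 2 * ((3 / 2 : ℝ) ^ n * t0) := by rw [pow_succ]; ring
      have h2 := h _ (hpow n)
      have h3 := hpow n
      rw [e, ← intervalIntegral.integral_add_adjacent_intervals (hii t0 _ (by linarith) h3)
        (hii _ _ (by linarith) (by linarith))]
      have : K * (Ph δ (3 / 2 * ((3 / 2 : ℝ) ^ n * t0)) - Ph δ t0) =
          K * (Ph δ ((3 / 2 : ℝ) ^ n * t0) - Ph δ t0) +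
          K * (Ph δ (3 / 2 * ((3 / 2 : ℝ) ^ n * t0)) - Ph δ ((3 / 2 : ℝ) ^ n * t0)) := by ring
      rw [this]
      exact add_le_add ih h2
  have hlim : Tendsto (fun n : ℕ => (3 / 2 : ℝ) ^ n * t0) atTop atTop :=
    (tendsto_pow_atTop_atTop_of_one_lt (by norm_num)).atTop_mul_const (by linarith)
  have h4 := intervalIntegral_tendsto_integral_Ioi t0
    (hg.mono_set (Ioi_subset_Ioi (by linarith))) hlim
  refine le_of_tendsto h4 (Eventually.of_forall fun n => (h1 n).trans ?_)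
  have h5 := Ph_le δ (t := (3 / 2 : ℝ) ^ n * t0)
  have h6 := Ph_ge δ (t := t0) ht0
  nlinarith

/-- the upper bound -/
theorem sq_upper (hRH : RHs) {c : ℝ} (hc : 0 < c) : ∃ K : ℝ, 0 < K ∧ ∀ᶠ U : ℝ in atTop,
    (∀ a > 0, SqI (fv (1 / U)) a) → ∫ v in Ioi (0 : ℝ), fv (1 / U) v ^ 2 *
      Real.exp (-(2 * (c / Real.log U) * v)) ≤ K * (Real.log U ^ 2 / U) := by
  have hpi := Real.pi_pos
  have hpi3 := Real.pi_gt_three
  obtain ⟨C1, T0, hC1, hT0, h1⟩ := Rt_blk hRH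
  obtain ⟨C2, δ0, hC2, hδ0, h2⟩ := Rt_small hRH T0 (by linarith)
  obtain ⟨K1, hK1⟩ : ∃ K1 : ℝ, K1 = C1 * (500 * (1 / c + 5) ^ 2) := ⟨_, rfl⟩
  have hK10 : 0 < K1 := by rw [hK1]; positivity
  refine ⟨2 * K1 + T0 * C2 / c ^ 2, by positivity, ?_⟩
  have e1 : Tendsto (fun U : ℝ => 1 / U) atTop (𝓝 0) :=
    Tendsto.div_atTop tendsto_const_nhds tendsto_id
  filter_upwards [e1.eventually (gt_mem_nhds hδ0), eventually_ge_atTop (3 : ℝ),
    Real.tendsto_log_atTop.eventually (eventually_ge_atTop (16 * c))] with U g1 g2 g3 hS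
  have hU0 : 0 < U := by linarith
  obtain ⟨δ, hδ⟩ : ∃ δ : ℝ, δ = 1 / U := ⟨_, rfl⟩
  obtain ⟨L, hL⟩ : ∃ L : ℝ, L = Real.log U := ⟨_, rfl⟩
  rw [← hδ] at g1 hS ⊢
  rw [← hL] at g3 ⊢
  have hδp : 0 < δ := by rw [hδ]; positivity
  have hδ1 : δ ≤ 1 / 2 := by rw [hδ]; exact one_div_le_one_div_of_le (by norm_num) (by linarith)
  have hLδ : L = Real.log (1 / δ) := by rw [hδ, one_div_one_div, hL]
  have hL1 : 1 ≤ L := by
    rw [hL, Real.le_log_iff_exp_le hU0]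
    have := Real.exp_one_lt_d9
    linarith
  have hL0 : 0 < L := by linarith
  obtain ⟨a, ha⟩ : ∃ a : ℝ, a = c / L := ⟨_, rfl⟩
  have ha0 : 0 < a := by rw [ha]; positivity
  have ha1 : a ≤ 1 / 16 := by rw [ha, div_le_iff₀ hL0]; linarith
  rw [← ha]
  have hLI : ∀ a' > 0, LInt (fv δ) a' := fun a' ha' =>
    lint_of_sq (fv_meas δ) (hS (a' / 2) (by linarith)) (by linarith)
  obtain ⟨p1, p2⟩ := planch_half (fv_meas δ) (b := δ / 2) (by positivity) (hLI a ha0) (hS a ha0)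
  have hbig : ∫ τ in Ioi T0, Rt (fv δ) a (δ / 2) τ ^ 2 ≤ 2 * (K1 * (δ * L ^ 2)) := by
    refine sum_blocks p1 (by linarith) (by positivity) (δ := δ) fun t ht => ?_
    refine (h1 t ht δ hδp hδ1 a ha0 ha1 hLI (hS a ha0)).trans ?_
    have h3 := blk_dom hc hδp (by linarith) hLδ hL1 (show 1 ≤ t by linarith)
    rw [← ha] at h3
    calc _ ≤ C1 * ((500 * (1 / c + 5) ^ 2) * (δ * L ^ 2) * (Ph δ (3 / 2 * t) - Ph δ t)) :=
          mul_le_mul_of_nonneg_left h3 (by linarith)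
      _ = _ := by rw [hK1]; ring
  have hsmall : ∫ τ in Ioc 0 T0, Rt (fv δ) a (δ / 2) τ ^ 2 ≤ T0 * (C2 * (δ / a) ^ 2) := by
    have i1 : IntegrableOn (fun τ => Rt (fv δ) a (δ / 2) τ ^ 2) (Ioc 0 T0) :=
      p1.mono_set Ioc_subset_Ioi_self
    have i2 : IntegrableOn (fun _ : ℝ => C2 * (δ / a) ^ 2) (Ioc 0 T0) :=
      integrableOn_const (by rw [Real.volume_Ioc]; exact ENNReal.ofReal_ne_top)
    calc _ ≤ ∫ _ in Ioc 0 T0, C2 * (δ / a) ^ 2 := by
          refine setIntegral_mono_on i1 i2 measurableSet_Ioc fun τ hτ => ?_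
          exact h2 δ hδp g1.le 0 a le_rfl ha0 (by linarith) hLI (δ / 2) τ hτ.1.le hτ.2
      _ = _ := by
          rw [setIntegral_const, Real.volume_real_Ioc, smul_eq_mul, sub_zero,
            max_eq_left (by linarith)]
  have hsplit : ∫ τ in Ioi (0 : ℝ), Rt (fv δ) a (δ / 2) τ ^ 2 =
      (∫ τ in Ioc 0 T0, Rt (fv δ) a (δ / 2) τ ^ 2) + ∫ τ in Ioi T0, Rt (fv δ) a (δ / 2) τ ^ 2 := by
    rw [← setIntegral_union (Set.Ioc_disjoint_Ioi le_rfl) measurableSet_Ioi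
      (p1.mono_set Ioc_subset_Ioi_self) (p1.mono_set (Ioi_subset_Ioi (by linarith))),
      Ioc_union_Ioi_eq_Ioi (by linarith)]
  have hda : (δ / a) ^ 2 ≤ δ * L ^ 2 / c ^ 2 := by
    rw [ha]
    have : (δ / (c / L)) ^ 2 = δ ^ 2 * L ^ 2 / c ^ 2 := by field_simp
    rw [this]
    refine div_le_div_of_nonneg_right ?_ (by positivity)
    exact mul_le_mul_of_nonneg_right (by nlinarith) (by positivity)
  have htot : ∫ τ in Ioi (0 : ℝ), Rt (fv δ) a (δ / 2) τ ^ 2 ≤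
      (2 * K1 + T0 * C2 / c ^ 2) * (δ * L ^ 2) := by
    rw [hsplit]
    have h5 : T0 * (C2 * (δ / a) ^ 2) ≤ T0 * (C2 * (δ * L ^ 2 / c ^ 2)) :=
      mul_le_mul_of_nonneg_left (mul_le_mul_of_nonneg_left hda hC2) (by linarith)
    calc _ ≤ T0 * (C2 * (δ * L ^ 2 / c ^ 2)) + 2 * (K1 * (δ * L ^ 2)) :=
          add_le_add (hsmall.trans h5) hbig
      _ = _ := by ring
  have hval : ∫ v in Ioi (0 : ℝ), fv δ v ^ 2 * Real.exp (-(2 * a * v)) ≤
      ∫ τ in Ioi (0 : ℝ), Rt (fv δ) a (δ / 2) τ ^ 2 := by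
    have h6 : 0 ≤ ∫ v in Ioi (0 : ℝ), fv δ v ^ 2 * Real.exp (-(2 * a * v)) :=
      setIntegral_nonneg measurableSet_Ioi fun v _ => by positivity
    nlinarith
  refine hval.trans (htot.trans (le_of_eq ?_))
  rw [hδ]; ring

end

end Pool.Agent.X83.VP
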