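import Pool.Agent.X83.VP.L10
import Pool.Agent.H370R2.NT

set_option autoImplicit false

/-! # The range `x ≤ T` -/

open Filter Topology Set MeasureTheory

namespace Pool.Agent.X83.VP

noncomputable section

open ArithmeticFunction (vonMangoldt)

lemma sq_inv_int {p q : ℝ} (hp : 0 < p) (hpq : p ≤ q) :
    ∫ x in p..q, 1 / x ^ 2 = 1 / p - 1 / q := by
  have h1 : ∀ x ∈ uIcc p q, HasDerivAt (fun x : ℝ => -(1 / x)) (1 / x ^ 2) x := by
    intro x hx
    rw [uIcc_of_le hpq] at hx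
    have hx0 : x ≠ 0 := by have := hx.1; linarith
    have h2 : HasDerivAt (fun y : ℝ => -y⁻¹) (-(-(x ^ 2)⁻¹)) x := (hasDerivAt_inv hx0).neg
    simp only [one_div]
    rw [neg_neg] at h2
    exact h2
  have h2 : ContinuousOn (fun x : ℝ => 1 / x ^ 2) (uIcc p q) := by
    rw [uIcc_of_le hpq]
    refine ContinuousOn.div continuousOn_const (by fun_prop) fun x hx => ?_
    have h0 : 0 < x := lt_of_lt_of_le (by assumption) hx.1
    exact (pow_pos h0 2).ne'
  rw [intervalIntegral.integral_eq_sub_of_hasDerivAt h1 h2.intervalIntegrable]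
  ring

/-- at most one integer in a short interval -/
lemma psi_step {T x : ℝ} (hT : 0 < T) (hx0 : 0 ≤ x) (hx : x < T) {N : ℕ} (hN : T ≤ N) :
    (Chebyshev.psi (x + x / T) - Chebyshev.psi x) ^ 2 ≤
      ∑ n ∈ Finset.Icc 1 N, vonMangoldt n ^ 2 *
        (Ico ((n : ℝ) / (1 + 1 / T)) n).indicator (fun _ => (1 : ℝ)) x := by
  have hTx : x / T < 1 := by rw [div_lt_one hT]; exact hx
  have hxT0 : 0 ≤ x / T := by positivity
  obtain ⟨m, hm⟩ : ∃ m : ℕ, m = ⌊x⌋₊ := ⟨_, rfl⟩
  have hm1 : (m : ℝ) ≤ x := by rw [hm]; exact Nat.floor_le hx0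
  have hm2 : x < m + 1 := by rw [hm]; exact Nat.lt_floor_add_one x
  have hnn : ∀ n ∈ Finset.Icc 1 N, 0 ≤ vonMangoldt n ^ 2 *
        (Ico ((n : ℝ) / (1 + 1 / T)) n).indicator (fun _ => (1 : ℝ)) x := fun n _ =>
    mul_nonneg (sq_nonneg _) (indicator_nonneg (fun _ _ => zero_le_one) _)
  rcases lt_or_ge (x + x / T) (m + 1) with h | h
  · have e1 : ⌊x + x / T⌋₊ = m := by
      rw [Nat.floor_eq_iff (by positivity)]
      exact ⟨by linarith, h⟩
    have e2 : Chebyshev.psi (x + x / T) - Chebyshev.psi x = 0 := by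
      unfold Chebyshev.psi
      rw [e1, ← hm, sub_self]
    rw [e2, zero_pow (by norm_num)]
    exact Finset.sum_nonneg hnn
  · have e1 : ⌊x + x / T⌋₊ = m + 1 := by
      rw [Nat.floor_eq_iff (by positivity)]
      push_cast
      exact ⟨h, by linarith⟩
    have e2 : Chebyshev.psi (x + x / T) - Chebyshev.psi x = vonMangoldt (m + 1) := by
      unfold Chebyshev.psi
      rw [e1, ← hm, Finset.sum_Ioc_succ_top (by omega)]
      ring
    have hmem : m + 1 ∈ Finset.Icc 1 N := by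
      rw [Finset.mem_Icc]
      refine ⟨by omega, ?_⟩
      have : (m : ℝ) < N := by linarith
      have : m < N := by exact_mod_cast this
      omega
    rw [e2]
    refine le_trans (le_of_eq ?_) (Finset.single_le_sum hnn hmem)
    rw [indicator_of_mem, mul_one]
    constructor
    · rw [div_le_iff₀ (by positivity)]
      push_cast
      calc (m : ℝ) + 1 ≤ x + x / T := h
        _ = x * (1 + 1 / T) := by ring
    · push_cast; exact hm2

lemma ind_ii (n : ℕ) (T p q : ℝ) (hp : 0 < p) (hpq : p ≤ q) : IntervalIntegrable (fun x : ℝ =>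
    (Ico ((n : ℝ) / (1 + 1 / T)) n).indicator (fun _ => (1 : ℝ)) x * (1 / x ^ 2)) volume p q := by
  have h2 : ContinuousOn (fun x : ℝ => 1 / x ^ 2) (uIcc p q) := by
    rw [uIcc_of_le hpq]
    refine ContinuousOn.div continuousOn_const (by fun_prop) fun x hx => ?_
    have h0 : 0 < x := lt_of_lt_of_le (by assumption) hx.1
    exact (pow_pos h0 2).ne'
  have e : (fun x : ℝ => (Ico ((n : ℝ) / (1 + 1 / T)) n).indicator (fun _ => (1 : ℝ)) x *
      (1 / x ^ 2)) = (Ico ((n : ℝ) / (1 + 1 / T)) n).indicator fun x => 1 / x ^ 2 := by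
    funext x
    by_cases hx : x ∈ Ico ((n : ℝ) / (1 + 1 / T)) (n : ℝ)
    · rw [indicator_of_mem hx, indicator_of_mem hx, one_mul]
    · rw [indicator_of_notMem hx, indicator_of_notMem hx, zero_mul]
  rw [e, intervalIntegrable_iff]
  have h3 := h2.intervalIntegrable (μ := volume)
  rw [intervalIntegrable_iff] at h3
  exact h3.indicator measurableSet_Ico

lemma ind_int {T : ℝ} (hT : 1 ≤ T) {n : ℕ} (hn : 1 ≤ n) :
    ∫ x in (1 : ℝ)..T, (Ico ((n : ℝ) / (1 + 1 / T)) n).indicator (fun _ => (1 : ℝ)) x *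
      (1 / x ^ 2) ≤ 1 / (n * T) := by
  have hT0 : 0 < T := by linarith
  have hn0 : (0 : ℝ) < n := by exact_mod_cast hn
  obtain ⟨p, hp⟩ : ∃ p : ℝ, p = (n : ℝ) / (1 + 1 / T) := ⟨_, rfl⟩
  have hp0 : 0 < p := by rw [hp]; positivity
  have hpn : p ≤ n := by
    rw [hp, div_le_iff₀ (by positivity)]
    have : 0 < (n : ℝ) * (1 / T) := by positivity
    nlinarith
  have e : ∀ x : ℝ, (Ico ((n : ℝ) / (1 + 1 / T)) n).indicator (fun _ => (1 : ℝ)) x *
      (1 / x ^ 2) = (Ico p (n : ℝ)).indicator (fun x => 1 / x ^ 2) x := by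
    intro x
    rw [← hp]
    by_cases hx : x ∈ Ico p (n : ℝ)
    · rw [indicator_of_mem hx, indicator_of_mem hx, one_mul]
    · rw [indicator_of_notMem hx, indicator_of_notMem hx, zero_mul]
  have h2 : ContinuousOn (fun x : ℝ => 1 / x ^ 2) (Icc p n) := by
    refine ContinuousOn.div continuousOn_const (by fun_prop) fun x hx => ?_
    have h0 : 0 < x := lt_of_lt_of_le (by assumption) hx.1
    exact (pow_pos h0 2).ne'
  have hI : IntegrableOn (fun x : ℝ => 1 / x ^ 2) (Ico p n) :=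
    (h2.integrableOn_Icc).mono_set Ico_subset_Icc_self
  rw [intervalIntegral.integral_of_le hT]
  calc ∫ x in Ioc 1 T, (Ico ((n : ℝ) / (1 + 1 / T)) n).indicator (fun _ => (1 : ℝ)) x *
      (1 / x ^ 2) = ∫ x in Ioc 1 T, (Ico p (n : ℝ)).indicator (fun x => 1 / x ^ 2) x :=
        setIntegral_congr_fun measurableSet_Ioc fun x _ => e x
    _ ≤ ∫ x, (Ico p (n : ℝ)).indicator (fun x => 1 / x ^ 2) x := by
        refine setIntegral_le_integral ((integrable_indicator_iff measurableSet_Ico).2 hI) ?_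
        exact Eventually.of_forall fun x => indicator_nonneg (fun y _ => by positivity) x
    _ = 1 / p - 1 / n := by
        rw [integral_indicator measurableSet_Ico, integral_Ico_eq_integral_Ioc,
          ← intervalIntegral.integral_of_le hpn, sq_inv_int hp0 hpn]
    _ = 1 / (n * T) := by rw [hp]; field_simp; ring

/-- the range `1 ≤ x ≤ T` -/
theorem part01 {T : ℝ} (hT : 1 < T) : ∫ x in (1 : ℝ)..T, DD T x ^ 2 / x ^ 2 ≤
    (Real.log (T + 1) ^ 2 / 2 + 8 * (Real.log (T + 1) + 1) + 1) / T := by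
  have hT0 : 0 < T := by linarith
  obtain ⟨N, hN⟩ : ∃ N : ℕ, N = ⌈T⌉₊ := ⟨_, rfl⟩
  have hN1 : T ≤ N := by rw [hN]; exact Nat.le_ceil T
  have hN2 : (N : ℝ) ≤ T + 1 := by rw [hN]; exact (Nat.ceil_lt_add_one hT0.le).le
  have hNpos : 1 ≤ N := by
    have : (1 : ℝ) < N := lt_of_lt_of_le hT hN1
    exact_mod_cast this.le
  have hpt : ∀ x ∈ Ioo 1 T, DD T x ^ 2 / x ^ 2 ≤ (∑ n ∈ Finset.Icc 1 N, vonMangoldt n ^ 2 *
      ((Ico ((n : ℝ) / (1 + 1 / T)) n).indicator (fun _ => (1 : ℝ)) x * (1 / x ^ 2))) +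
      1 / T ^ 2 := by
    intro x hx
    have hx0 : 0 < x := by linarith [hx.1]
    have h1 := psi_step hT0 hx0.le hx.2 hN1
    obtain ⟨A, hA⟩ : ∃ A : ℝ, A = Chebyshev.psi (x + x / T) - Chebyshev.psi x := ⟨_, rfl⟩
    have hA0 : 0 ≤ A := by
      rw [hA, sub_nonneg]
      exact Chebyshev.psi_mono (by have : 0 ≤ x / T := by positivity
                                   linarith)
    have h2 : DD T x ^ 2 ≤ A ^ 2 + (x / T) ^ 2 := by
      unfold DD
      rw [← hA]
      have : 0 ≤ x / T := by positivity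
      nlinarith
    rw [← hA] at h1
    have h3 : DD T x ^ 2 / x ^ 2 ≤ (A ^ 2 + (x / T) ^ 2) / x ^ 2 :=
      div_le_div_of_nonneg_right h2 (by positivity)
    have h4 : (A ^ 2 + (x / T) ^ 2) / x ^ 2 = A ^ 2 * (1 / x ^ 2) + 1 / T ^ 2 := by
      field_simp
    rw [h4] at h3
    refine h3.trans (add_le_add ?_ le_rfl)
    calc A ^ 2 * (1 / x ^ 2) ≤ (∑ n ∈ Finset.Icc 1 N, vonMangoldt n ^ 2 *
        (Ico ((n : ℝ) / (1 + 1 / T)) n).indicator (fun _ => (1 : ℝ)) x) * (1 / x ^ 2) :=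
          mul_le_mul_of_nonneg_right h1 (by positivity)
      _ = _ := by
          rw [Finset.sum_mul]
          exact Finset.sum_congr rfl fun n _ => by ring
  have hi : ∀ n ∈ Finset.Icc 1 N, IntervalIntegrable (fun x : ℝ => vonMangoldt n ^ 2 *
      ((Ico ((n : ℝ) / (1 + 1 / T)) n).indicator (fun _ => (1 : ℝ)) x * (1 / x ^ 2))) volume 1 T :=
    fun n _ => (ind_ii n T 1 T one_pos hT.le).const_mul _
  have hi1 : IntervalIntegrable (fun x : ℝ => ∑ n ∈ Finset.Icc 1 N, vonMangoldt n ^ 2 *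
      ((Ico ((n : ℝ) / (1 + 1 / T)) n).indicator (fun _ => (1 : ℝ)) x * (1 / x ^ 2))) volume 1 T := by
    have h := IntervalIntegrable.sum (Finset.Icc 1 N) hi
    have e : (∑ n ∈ Finset.Icc 1 N, fun x : ℝ => vonMangoldt n ^ 2 *
      ((Ico ((n : ℝ) / (1 + 1 / T)) n).indicator (fun _ => (1 : ℝ)) x * (1 / x ^ 2))) =
      fun x : ℝ => ∑ n ∈ Finset.Icc 1 N, vonMangoldt n ^ 2 *
      ((Ico ((n : ℝ) / (1 + 1 / T)) n).indicator (fun _ => (1 : ℝ)) x * (1 / x ^ 2)) := by
      funext x; exact Finset.sum_apply _ _ _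
    rwa [e] at h
  have hi2 : IntervalIntegrable (fun _ : ℝ => 1 / T ^ 2) volume 1 T := intervalIntegrable_const
  have hDi : IntervalIntegrable (fun x => DD T x ^ 2 / x ^ 2) volume 1 T := by
    rw [intervalIntegrable_iff, uIoc_of_le hT.le]
    refine Measure.integrableOn_of_bounded (M := ((Real.log 4 + 4) * (2 * T) + 1) ^ 2)
      (by rw [Real.volume_Ioc]; exact ENNReal.ofReal_ne_top)
      ((((DD_meas T hT0).pow_const 2).div (by fun_prop)).aestronglyMeasurable) ?_
    rw [ae_restrict_iff' measurableSet_Ioc]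
    refine Eventually.of_forall fun x hx => ?_
    have hx0 : 0 < x := by linarith [hx.1]
    have hx1 : 1 ≤ x := hx.1.le
    have hc4 : 0 ≤ Real.log 4 := Real.log_nonneg (by norm_num)
    rw [Real.norm_of_nonneg (by positivity)]
    have h1 : |DD T x| ≤ (Real.log 4 + 4) * (2 * T) + 1 := by
      unfold DD
      have h2 : Chebyshev.psi x ≤ Chebyshev.psi (x + x / T) :=
        Chebyshev.psi_mono (by have : 0 ≤ x / T := by positivity
                               linarith)
      have h3 : Chebyshev.psi (x + x / T) ≤ (Real.log 4 + 4) * (x + x / T) :=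
        Chebyshev.psi_le_const_mul_self (by positivity)
      have h4 := Chebyshev.psi_nonneg x
      have h5 : x / T ≤ 1 := by rw [div_le_one hT0]; exact hx.2
      have h6 : 0 ≤ x / T := by positivity
      have h7 : (Real.log 4 + 4) * (x + x / T) ≤ (Real.log 4 + 4) * (2 * T) :=
        mul_le_mul_of_nonneg_left (by linarith [hx.2]) (by positivity)
      rw [abs_le]
      constructor <;> nlinarith
    calc DD T x ^ 2 / x ^ 2 ≤ DD T x ^ 2 := div_le_self (sq_nonneg _) (one_le_pow₀ hx1)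
      _ = |DD T x| ^ 2 := (sq_abs _).symm
      _ ≤ _ := pow_le_pow_left₀ (abs_nonneg _) h1 2
  calc ∫ x in (1 : ℝ)..T, DD T x ^ 2 / x ^ 2 ≤ ∫ x in (1 : ℝ)..T,
      ((∑ n ∈ Finset.Icc 1 N, vonMangoldt n ^ 2 *
      ((Ico ((n : ℝ) / (1 + 1 / T)) n).indicator (fun _ => (1 : ℝ)) x * (1 / x ^ 2))) +
      1 / T ^ 2) := by
        refine intervalIntegral.integral_mono_on_of_le_Ioo hT.le hDi (hi1.add hi2) hpt
    _ = (∑ n ∈ Finset.Icc 1 N, vonMangoldt n ^ 2 * ∫ x in (1 : ℝ)..T,
      (Ico ((n : ℝ) / (1 + 1 / T)) n).indicator (fun _ => (1 : ℝ)) x * (1 / x ^ 2)) +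
      (T - 1) * (1 / T ^ 2) := by
        rw [intervalIntegral.integral_add hi1 hi2, intervalIntegral.integral_finsetSum hi,
          intervalIntegral.integral_const, smul_eq_mul]
        congr 1
        exact Finset.sum_congr rfl fun n _ => intervalIntegral.integral_const_mul _ _
    _ ≤ (∑ n ∈ Finset.Icc 1 N, vonMangoldt n ^ 2 * (1 / (n * T))) + 1 / T := by
        refine add_le_add (Finset.sum_le_sum fun n hn => ?_) ?_
        · exact mul_le_mul_of_nonneg_left (ind_int hT.le (Finset.mem_Icc.1 hn).1) (sq_nonneg _)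
        · have : 1 / T = T * (1 / T ^ 2) := by field_simp
          rw [this]
          exact mul_le_mul_of_nonneg_right (by linarith) (by positivity)
    _ = (∑ n ∈ Finset.Icc 1 N, vonMangoldt n ^ 2 / n) / T + 1 / T := by
        rw [Finset.sum_div]
        congr 1
        refine Finset.sum_congr rfl fun n hn => ?_
        have : (0 : ℝ) < n := by exact_mod_cast (Finset.mem_Icc.1 hn).1
        field_simp
    _ ≤ (Real.log N ^ 2 / 2 + 8 * (Real.log N + 1)) / T + 1 / T :=
        add_le_add (div_le_div_of_nonneg_right (H370.lam_sq_sum_nat N hNpos) hT0.le) le_rfl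
    _ ≤ (Real.log (T + 1) ^ 2 / 2 + 8 * (Real.log (T + 1) + 1)) / T + 1 / T := by
        have hNr : (1 : ℝ) ≤ N := by exact_mod_cast hNpos
        have g1 : Real.log N ≤ Real.log (T + 1) := Real.log_le_log (by linarith) hN2
        have g2 : 0 ≤ Real.log N := Real.log_nonneg hNr
        have g3 : Real.log N ^ 2 ≤ Real.log (T + 1) ^ 2 := pow_le_pow_left₀ g2 g1 2
        refine add_le_add (div_le_div_of_nonneg_right (by linarith) hT0.le) le_rfl
    _ = _ := by ring

end

end Pool.Agent.X83.VP
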