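import Pool.Agent.X83.VP.L10

set_option autoImplicit false

/-! # Upper bounds in windows imply the finiteness of the mean squares -/

open Filter Topology Set MeasureTheory

namespace Pool.Agent.X83.VP

noncomputable section

/-- the normalised mean square over the window `[T^a, T^b]` -/
def VV (T a b : ℝ) : ℝ := T / Real.log T ^ 2 * ∫ x in (T ^ a)..(T ^ b), DD T x ^ 2 / x ^ 2

lemma VV_eq {T : ℝ} (hT : 1 < T) {a b : ℝ} (hab : a ≤ b) : VV T a b = T / Real.log T ^ 2 *
    ∫ v in (a * Real.log T)..(b * Real.log T), fv (Real.log (1 + 1 / T)) v ^ 2 := by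
  have hT0 : 0 < T := by linarith
  have hL : 0 < Real.log T := Real.log_pos hT
  unfold VV
  rw [Real.rpow_def_of_pos hT0, Real.rpow_def_of_pos hT0, mul_comm (Real.log T) a,
    mul_comm (Real.log T) b, cov_int hT.le (mul_le_mul_of_nonneg_right hab hL.le)]

lemma fv_step (δ v : ℝ) (J : ℕ) : fv ((J + 1 : ℕ) * δ) v =
    fv (J * δ) v + Real.exp (J * δ / 2) * fv δ (v + J * δ) := by
  unfold fv
  have e1 : v + ((J + 1 : ℕ) : ℝ) * δ = v + J * δ + δ := by push_cast; ring
  have e2 : Real.exp (((J + 1 : ℕ) : ℝ) * δ) = Real.exp (J * δ) * Real.exp δ := by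
    rw [← Real.exp_add]; congr 1; push_cast; ring
  have e3 : Real.exp (-(v + J * δ) / 2) = Real.exp (-v / 2) * Real.exp (-(J * δ / 2)) := by
    rw [← Real.exp_add]; congr 1; ring
  have e4 : Real.exp (J * δ / 2) * Real.exp (-(J * δ / 2)) = 1 := by
    rw [← Real.exp_add]; simp
  have e5 : Real.exp (v + J * δ) = Real.exp v * Real.exp (J * δ) := Real.exp_add _ _
  rw [e1, e2, e3]
  obtain ⟨P, hP⟩ : ∃ P : ℝ, P = Chebyshev.psi (Real.exp (v + J * δ + δ)) := ⟨_, rfl⟩
  obtain ⟨Q, hQ⟩ : ∃ Q : ℝ, Q = Chebyshev.psi (Real.exp (v + J * δ)) := ⟨_, rfl⟩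
  rw [← hP, ← hQ]
  have : Real.exp (J * δ / 2) * ((P - Q - (Real.exp δ - 1) * Real.exp (v + J * δ)) *
      (Real.exp (-v / 2) * Real.exp (-(J * δ / 2)))) =
      (P - Q - (Real.exp δ - 1) * Real.exp (v + J * δ)) * Real.exp (-v / 2) *
      (Real.exp (J * δ / 2) * Real.exp (-(J * δ / 2))) := by ring
  rw [this, e4, e5]
  ring

lemma fv_zero (v : ℝ) : fv 0 v = 0 := by
  unfold fv
  simp

lemma fv_tel (δ v : ℝ) (J : ℕ) : fv (J * δ) v =
    ∑ j ∈ Finset.range J, Real.exp (j * δ / 2) * fv δ (v + j * δ) := by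
  induction J with
  | zero => simp [fv_zero]
  | succ J ih => rw [Finset.sum_range_succ, ← ih, fv_step]

lemma fv_tel_sq {δ : ℝ} (hδ : 0 ≤ δ) (v : ℝ) (J : ℕ) : fv (J * δ) v ^ 2 ≤
    J * Real.exp (J * δ) * ∑ j ∈ Finset.range J, fv δ (v + j * δ) ^ 2 := by
  rw [fv_tel]
  have h1 := Finset.sum_mul_sq_le_sq_mul_sq (Finset.range J) (fun _ => (1 : ℝ))
    (fun j => Real.exp (j * δ / 2) * fv δ (v + j * δ))
  simp only [one_mul, one_pow, Finset.sum_const, Finset.card_range, nsmul_eq_mul, mul_one] at h1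
  refine h1.trans ?_
  rw [mul_assoc]
  refine mul_le_mul_of_nonneg_left ?_ (Nat.cast_nonneg J)
  rw [Finset.mul_sum]
  refine Finset.sum_le_sum fun j hj => ?_
  rw [mul_pow]
  refine mul_le_mul_of_nonneg_right ?_ (sq_nonneg _)
  rw [← Real.exp_nat_mul]
  refine Real.exp_le_exp.2 ?_
  have : (j : ℝ) ≤ J := by exact_mod_cast (Finset.mem_range.1 hj).le
  have := mul_le_mul_of_nonneg_right this hδ
  push_cast
  linarith

lemma fv_sq_ii (δ p q : ℝ) : IntervalIntegrable (fun v => fv δ v ^ 2) volume p q := by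
  rw [intervalIntegrable_iff]
  refine Measure.integrableOn_of_bounded (M := (Kd δ * Real.exp (max p q / 2)) ^ 2)
    (by rw [uIoc, Real.volume_Ioc]; exact ENNReal.ofReal_ne_top)
    (((fv_meas δ).pow_const 2).aestronglyMeasurable) ?_
  rw [ae_restrict_iff' measurableSet_uIoc]
  refine Eventually.of_forall fun v hv => ?_
  rw [Real.norm_of_nonneg (sq_nonneg _), ← sq_abs]
  refine pow_le_pow_left₀ (abs_nonneg _) ((fv_bd δ v).trans ?_) 2
  refine mul_le_mul_of_nonneg_left (Real.exp_le_exp.2 ?_) (Kd_nonneg δ)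
  have : v ≤ max p q := hv.2
  linarith

lemma fv_sq_mono (δ : ℝ) {p q p' q' : ℝ} (h1 : p' ≤ p) (h2 : p ≤ q) (h3 : q ≤ q') :
    ∫ v in p..q, fv δ v ^ 2 ≤ ∫ v in p'..q', fv δ v ^ 2 :=
  intervalIntegral.integral_mono_interval h1 h2 h3 (Eventually.of_forall fun _ => sq_nonneg _)
    (fv_sq_ii δ p' q')

lemma fv_tel_int {δ : ℝ} (hδ : 0 ≤ δ) (V : ℝ) (J : ℕ) (hJ : J * δ ≤ 1) :
    ∫ v in V..(V + 1), fv (J * δ) v ^ 2 ≤
      J ^ 2 * Real.exp 1 * ∫ v in V..(V + 2), fv δ v ^ 2 := by
  have hi : ∀ j ∈ Finset.range J, IntervalIntegrable (fun v => fv δ (v + j * δ) ^ 2) volume V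
      (V + 1) := by
    intro j _
    have := (fv_sq_ii δ (V + j * δ) (V + 1 + j * δ)).comp_add_right (j * δ)
    simpa only [add_sub_cancel_right] using this
  have hi2 : IntervalIntegrable (fun v => ∑ j ∈ Finset.range J, fv δ (v + j * δ) ^ 2) volume V
      (V + 1) := by
    have h := IntervalIntegrable.sum (Finset.range J) hi
    have e : (∑ j ∈ Finset.range J, fun v : ℝ => fv δ (v + j * δ) ^ 2) =
      fun v : ℝ => ∑ j ∈ Finset.range J, fv δ (v + j * δ) ^ 2 := by
      funext x; exact Finset.sum_apply _ _ _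
    rwa [e] at h
  obtain ⟨I, hI⟩ : ∃ I : ℝ, I = ∫ v in V..(V + 2), fv δ v ^ 2 := ⟨_, rfl⟩
  have hI0 : 0 ≤ I := by
    rw [hI]; exact intervalIntegral.integral_nonneg (by linarith) fun _ _ => sq_nonneg _
  rw [← hI]
  have he : Real.exp (J * δ) ≤ Real.exp 1 := Real.exp_le_exp.2 hJ
  calc ∫ v in V..(V + 1), fv (J * δ) v ^ 2 ≤ ∫ v in V..(V + 1), J * Real.exp (J * δ) *
      ∑ j ∈ Finset.range J, fv δ (v + j * δ) ^ 2 :=
        intervalIntegral.integral_mono_on (by linarith) (fv_sq_ii _ _ _) (hi2.const_mul _)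
          fun v _ => fv_tel_sq hδ v J
    _ = J * Real.exp (J * δ) * ∑ j ∈ Finset.range J,
        ∫ v in V..(V + 1), fv δ (v + j * δ) ^ 2 := by
        rw [intervalIntegral.integral_const_mul, intervalIntegral.integral_finsetSum hi]
    _ ≤ J * Real.exp (J * δ) * ∑ j ∈ Finset.range J, I := by
        refine mul_le_mul_of_nonneg_left (Finset.sum_le_sum fun j hj => ?_) (by positivity)
        rw [intervalIntegral.integral_comp_add_right (fun v => fv δ v ^ 2), hI]
        have h1 : (j : ℝ) * δ ≤ 1 := by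
          have : (j : ℝ) ≤ J := by exact_mod_cast (Finset.mem_range.1 hj).le
          exact (mul_le_mul_of_nonneg_right this hδ).trans hJ
        have h2 : 0 ≤ (j : ℝ) * δ := by positivity
        exact fv_sq_mono δ (by linarith) (by linarith) (by linarith)
    _ = J ^ 2 * Real.exp (J * δ) * I := by
        rw [Finset.sum_const, Finset.card_range, nsmul_eq_mul]; ring
    _ ≤ J ^ 2 * Real.exp 1 * I :=
        mul_le_mul_of_nonneg_right (mul_le_mul_of_nonneg_left he (by positivity)) hI0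

/-- the growth of the mean square over unit intervals -/
lemma unit_growth {δ : ℝ} (hδ : 0 < δ) (hδ1 : δ ≤ 1) {b : ℝ} (hb : 1 ≤ b)
    (H : ∀ᶠ T : ℝ in atTop, VV T b (b + 1) ≤ 2) :
    ∀ᶠ V : ℝ in atTop, ∫ v in V..(V + 1), fv δ v ^ 2 ≤ Real.exp (2 * (1 / (b + 1 / 2)) * V) := by
  obtain ⟨β, hβ⟩ : ∃ β : ℝ, β = 1 / (b + 1 / 2) := ⟨_, rfl⟩
  have hβ0 : 0 < β := by rw [hβ]; positivity
  have hβb : b * β = 1 - β / 2 := by
    have : (b + 1 / 2) * β = 1 := by rw [hβ]; field_simp
    linarith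
  rw [← hβ]
  obtain ⟨T1, hT1⟩ := eventually_atTop.1 H
  obtain ⟨C, hC⟩ : ∃ C : ℝ, C = Real.log (2 / δ) := ⟨_, rfl⟩
  have hC0 : 0 < C := by
    rw [hC]; exact Real.log_pos (by rw [lt_div_iff₀ hδ]; linarith)
  have hlog2 : Real.log 2 < 1 := by have := Real.log_two_lt_d9; linarith
  have hlog20 : 0 < Real.log 2 := Real.log_pos (by norm_num)
  -- polynomial versus exponential
  have hpoly : ∀ᶠ V : ℝ in atTop, 48 * (β * V + C) ^ 2 ≤ Real.exp (β * V) := by
    have h1 : Tendsto (fun y : ℝ => Real.exp y / y ^ 2) atTop atTop :=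
      Real.tendsto_exp_div_pow_atTop 2
    have h2 : Tendsto (fun V : ℝ => β * V + C) atTop atTop :=
      tendsto_atTop_add_const_right _ _ (tendsto_id.const_mul_atTop hβ0)
    have h3 := (h1.comp h2).eventually (eventually_ge_atTop (48 * Real.exp C))
    filter_upwards [h3, eventually_gt_atTop (0 : ℝ)] with V hV hV0
    simp only [Function.comp_apply] at hV
    rw [le_div_iff₀ (by positivity)] at hV
    rw [Real.exp_add] at hV
    have h4 := Real.exp_pos C
    have h5 : Real.exp C * (48 * (β * V + C) ^ 2) ≤ Real.exp C * Real.exp (β * V) := by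
      linarith
    exact le_of_mul_le_mul_left h5 h4
  have hexp : Tendsto (fun V : ℝ => Real.exp (β * V)) atTop atTop :=
    Real.tendsto_exp_atTop.comp (tendsto_id.const_mul_atTop hβ0)
  filter_upwards [hpoly, eventually_ge_atTop (2 * b * C / β),
    eventually_ge_atTop (2 * (b + 3) / β), hexp.eventually (eventually_ge_atTop (2 * T1)),
    hexp.eventually (eventually_ge_atTop (4 : ℝ)), eventually_gt_atTop (0 : ℝ)]
    with V h1 h2 h3 h4 h5 hV0
  obtain ⟨E, hE⟩ : ∃ E : ℝ, E = Real.exp (β * V) := ⟨_, rfl⟩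
  rw [← hE] at h1 h4 h5
  have hE0 : 0 < E := by linarith
  obtain ⟨J, hJ⟩ : ∃ J : ℕ, J = ⌈δ * E⌉₊ := ⟨_, rfl⟩
  have hJ1 : δ * E ≤ J := by rw [hJ]; exact Nat.le_ceil _
  have hJ2 : (J : ℝ) ≤ 2 * E := by
    have : (J : ℝ) < δ * E + 1 := by rw [hJ]; exact Nat.ceil_lt_add_one (by positivity)
    nlinarith
  have hJ0 : (0 : ℝ) < J := lt_of_lt_of_le (by positivity) hJ1
  obtain ⟨d, hd⟩ : ∃ d : ℝ, d = δ / J := ⟨_, rfl⟩
  have hd0 : 0 < d := by rw [hd]; positivity
  have hJd : J * d = δ := by rw [hd]; field_simp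
  have hdE : d ≤ 1 / E := by
    rw [hd, div_le_div_iff₀ hJ0 hE0]; linarith
  have hd4 : d ≤ 1 / 4 := hdE.trans (one_div_le_one_div_of_le (by norm_num) h5)
  have hdE2 : δ / (2 * E) ≤ d := by
    rw [hd]; exact div_le_div_of_nonneg_left hδ.le hJ0 hJ2
  obtain ⟨T, hT⟩ : ∃ T : ℝ, T = 1 / (Real.exp d - 1) := ⟨_, rfl⟩
  have hed0 : d ≤ Real.exp d - 1 := by have := Real.add_one_le_exp d; linarith
  have hed1 : Real.exp d - 1 ≤ 2 * d := exp_sub_le hd0.le (by linarith)
  have hed : 0 < Real.exp d - 1 := by linarith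
  have hTpos : 0 < T := by rw [hT]; positivity
  have hTlog : Real.log (1 + 1 / T) = d := by
    rw [hT, one_div_one_div, add_sub_cancel, Real.log_exp]
  have hTup : T ≤ 2 / δ * E := by
    rw [hT, div_le_iff₀ hed]
    have : 2 / δ * E * (δ / (2 * E)) = 1 := by field_simp
    calc (1 : ℝ) = 2 / δ * E * (δ / (2 * E)) := this.symm
      _ ≤ 2 / δ * E * (Real.exp d - 1) :=
          mul_le_mul_of_nonneg_left (by linarith) (by positivity)
  have hTlow : E / 2 ≤ T := by
    rw [hT, div_le_div_iff₀ (by norm_num) hed]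
    have : E * (Real.exp d - 1) ≤ E * (2 * (1 / E)) :=
      mul_le_mul_of_nonneg_left (by linarith) hE0.le
    have e : E * (2 * (1 / E)) = 2 := by field_simp
    linarith
  have hT2 : 1 < T := by linarith
  have hlogup : Real.log T ≤ β * V + C := by
    have := Real.log_le_log hTpos hTup
    rw [Real.log_mul (by positivity) hE0.ne', hE, Real.log_exp, ← hC] at this
    linarith
  have hloglow : β * V - Real.log 2 ≤ Real.log T := by
    have := Real.log_le_log (by positivity) hTlow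
    rw [Real.log_div hE0.ne' (by norm_num), hE, Real.log_exp] at this
    exact this
  have hlogpos : 0 < Real.log T := Real.log_pos hT2
  have hw1 : b * Real.log T ≤ V := by
    rw [div_le_iff₀ hβ0] at h2
    have g1 : b * Real.log T ≤ b * (β * V + C) := mul_le_mul_of_nonneg_left hlogup (by linarith)
    have g2 : b * (β * V + C) = V - β / 2 * V + b * C := by
      have : b * (β * V + C) = (b * β) * V + b * C := by ring
      rw [this, hβb]; ring
    nlinarith
  have hw2 : V + 2 ≤ (b + 1) * Real.log T := by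
    rw [div_le_iff₀ hβ0] at h3
    have g1 : (b + 1) * (β * V - Real.log 2) ≤ (b + 1) * Real.log T :=
      mul_le_mul_of_nonneg_left hloglow (by linarith)
    have g2 : (b + 1) * (β * V - Real.log 2) = V + β / 2 * V - (b + 1) * Real.log 2 := by
      have : (b + 1) * (β * V - Real.log 2) = (b * β) * V + β * V - (b + 1) * Real.log 2 := by ring
      rw [this, hβb]; ring
    have g3 : (b + 1) * Real.log 2 ≤ (b + 1) * 1 :=
      mul_le_mul_of_nonneg_left hlog2.le (by linarith)
    nlinarith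
  have hwin := hT1 T (by linarith)
  rw [VV_eq hT2 (by linarith), hTlog] at hwin
  have hint : ∫ v in V..(V + 2), fv d v ^ 2 ≤ 2 * (Real.log T ^ 2 / T) := by
    refine (fv_sq_mono d hw1 (by linarith) hw2).trans ?_
    have g : 0 < T / Real.log T ^ 2 := by positivity
    have g1 : T / Real.log T ^ 2 * (2 * (Real.log T ^ 2 / T)) = 2 := by field_simp
    rw [← g1] at hwin
    exact le_of_mul_le_mul_left hwin g
  have htel := fv_tel_int hd0.le V J (by rw [hJd]; exact hδ1)
  rw [hJd] at htel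
  refine htel.trans ?_
  have hT3 : Real.log T ^ 2 / T ≤ (β * V + C) ^ 2 * (2 / E) := by
    have g1 : Real.log T ^ 2 ≤ (β * V + C) ^ 2 := pow_le_pow_left₀ hlogpos.le hlogup 2
    have g2 : 1 / T ≤ 2 / E := by
      rw [div_le_div_iff₀ hTpos hE0]; linarith
    calc Real.log T ^ 2 / T = Real.log T ^ 2 * (1 / T) := by ring
      _ ≤ _ := mul_le_mul g1 g2 (by positivity) (by positivity)
  have he3 : Real.exp 1 ≤ 3 := by have := Real.exp_one_lt_d9; linarith
  calc (J : ℝ) ^ 2 * Real.exp 1 * ∫ v in V..(V + 2), fv d v ^ 2 ≤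
      (J : ℝ) ^ 2 * Real.exp 1 * (2 * ((β * V + C) ^ 2 * (2 / E))) :=
        mul_le_mul_of_nonneg_left (hint.trans (mul_le_mul_of_nonneg_left hT3 (by norm_num)))
          (by positivity)
    _ ≤ (2 * E) ^ 2 * 3 * (2 * ((β * V + C) ^ 2 * (2 / E))) := by
        refine mul_le_mul_of_nonneg_right ?_ (by positivity)
        exact mul_le_mul (pow_le_pow_left₀ hJ0.le hJ2 2) he3 (Real.exp_pos _).le (by positivity)
    _ = 48 * (β * V + C) ^ 2 * E := by field_simp; ring
    _ ≤ E * E := mul_le_mul_of_nonneg_right h1 hE0.le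
    _ = _ := by rw [hE, ← Real.exp_add]; congr 1; ring

/-- integrability from unit intervals -/
lemma integrable_of_units {g : ℝ → ℝ} (hg0 : ∀ v, 0 ≤ g v)
    (hgi : ∀ p q : ℝ, IntervalIntegrable g volume p q) {κ : ℝ} (hκ : 0 < κ)
    (h : ∀ᶠ V : ℝ in atTop, ∫ v in V..(V + 1), g v ≤ Real.exp (-(κ * V))) :
    IntegrableOn g (Ioi 0) := by
  obtain ⟨u, hu⟩ : ∃ u : ℕ → ℝ, u = fun n : ℕ => ∫ v in (n : ℝ)..(n + 1), g v := ⟨_, rfl⟩
  have hu0 : ∀ n, 0 ≤ u n := fun n => by
    rw [hu]; exact intervalIntegral.integral_nonneg (by linarith) fun v _ => hg0 v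
  have hsum : Summable u := by
    have h1 : Summable fun n : ℕ => Real.exp (-κ) ^ n :=
      summable_geometric_of_lt_one (Real.exp_pos _).le (by
        rw [Real.exp_lt_one_iff]; linarith)
    refine Summable.of_norm_bounded_eventually_nat h1 ?_
    filter_upwards [tendsto_natCast_atTop_atTop.eventually h] with n hn
    rw [Real.norm_of_nonneg (hu0 n), hu]
    refine hn.trans (le_of_eq ?_)
    rw [← Real.exp_nat_mul]; congr 1; ring
  refine integrableOn_Ioi_of_intervalIntegral_norm_bounded (∑' n, u n) 0 (b := fun n : ℕ => (n : ℝ))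
    (fun n => ?_) tendsto_natCast_atTop_atTop (Eventually.of_forall fun N => ?_)
  · have := hgi 0 n
    rwa [intervalIntegrable_iff, uIoc_of_le (Nat.cast_nonneg n)] at this
  · have e : ∫ v in (0 : ℝ)..(N : ℝ), ‖g v‖ = ∑ n ∈ Finset.range N, u n := by
      have e1 : ∀ v, ‖g v‖ = g v := fun v => Real.norm_of_nonneg (hg0 v)
      simp only [e1]
      have e2 := intervalIntegral.sum_integral_adjacent_intervals (f := g) (μ := volume)
        (a := fun n : ℕ => (n : ℝ)) (n := N) (fun k _ => hgi _ _)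
      simp only [Nat.cast_zero, Nat.cast_add, Nat.cast_one] at e2
      rw [← e2, hu]
    rw [e]
    exact hsum.sum_le_tsum _ fun n _ => hu0 n

/-- finiteness of all weighted mean squares -/
theorem sqI_of_windows
    (H : ∀ b : ℝ, 1 ≤ b → ∀ᶠ T : ℝ in atTop, VV T b (b + 1) ≤ 2) {δ : ℝ} (hδ : 0 < δ)
    (hδ1 : δ ≤ 1) {a : ℝ} (ha : 0 < a) : SqI (fv δ) a := by
  obtain ⟨b, hb⟩ : ∃ b : ℝ, b = 1 + 2 / a := ⟨_, rfl⟩
  have hb1 : 1 ≤ b := by rw [hb]; have : 0 < 2 / a := by positivity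
                         linarith
  have h1 := unit_growth hδ hδ1 hb1 (H b hb1)
  have hβ : 2 * (1 / (b + 1 / 2)) ≤ a := by
    have g1 : 1 / (b + 1 / 2) ≤ 1 / (2 / a) :=
      one_div_le_one_div_of_le (by positivity) (by rw [hb]; linarith)
    have g2 : 1 / (2 / a) = a / 2 := by field_simp
    rw [g2] at g1
    linarith
  unfold SqI
  have hii : ∀ p q : ℝ, IntervalIntegrable (fun v => fv δ v ^ 2 * Real.exp (-(2 * a * v)))
      volume p q := fun p q =>
    (fv_sq_ii δ p q).mul_continuousOn (by fun_prop)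
  refine integrable_of_units (fun v => by positivity) hii ha ?_
  filter_upwards [h1, eventually_ge_atTop (0 : ℝ)] with V hV hV0
  calc ∫ v in V..(V + 1), fv δ v ^ 2 * Real.exp (-(2 * a * v)) ≤
      ∫ v in V..(V + 1), fv δ v ^ 2 * Real.exp (-(2 * a * V)) := by
        refine intervalIntegral.integral_mono_on (by linarith) (hii _ _)
          ((fv_sq_ii δ _ _).mul_const _) fun v hv => ?_
        refine mul_le_mul_of_nonneg_left (Real.exp_le_exp.2 ?_) (sq_nonneg _)
        have := mul_le_mul_of_nonneg_left hv.1 ha.le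
        nlinarith
    _ = (∫ v in V..(V + 1), fv δ v ^ 2) * Real.exp (-(2 * a * V)) :=
        intervalIntegral.integral_mul_const _ _
    _ ≤ Real.exp (2 * (1 / (b + 1 / 2)) * V) * Real.exp (-(2 * a * V)) :=
        mul_le_mul_of_nonneg_right hV (Real.exp_pos _).le
    _ ≤ Real.exp (-(a * V)) := by
        rw [← Real.exp_add]
        refine Real.exp_le_exp.2 ?_
        have := mul_le_mul_of_nonneg_right hβ hV0
        nlinarith

end

end Pool.Agent.X83.VP
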