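import Pool.Agent.X83.VP.L14
import Pool.Agent.X83.VP.L15
import Pool.Agent.X83.VP.L16
import Pool.Agent.X83.VP.W1

set_option autoImplicit false

/-! # Upper bounds in all windows imply RH and the asymptotic formula -/

open Filter Topology Set MeasureTheory

namespace Pool.Agent.X83.VP

open SP (RHs)
open Pool.Agent.W263.BSD (LInt lap lapC lapC_ofReal lapC_differentiableAt)

noncomputable section

/-- the density in the variable `α = log x / log T` -/
def wT (T α : ℝ) : ℝ := |T / Real.log T| * fv (Real.log (1 + 1 / T)) (α * Real.log T) ^ 2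

lemma wT_nonneg (T α : ℝ) : 0 ≤ wT T α := by unfold wT; positivity

lemma wT_ii {T : ℝ} (hT : 1 < T) (p q : ℝ) : IntervalIntegrable (wT T) volume p q := by
  have hL : Real.log T ≠ 0 := (Real.log_pos hT).ne'
  have h1 := (fv_sq_ii (Real.log (1 + 1 / T)) (p * Real.log T) (q * Real.log T)).comp_mul_right
    (c := Real.log T)
  rw [mul_div_cancel_right₀ _ hL, mul_div_cancel_right₀ _ hL] at h1
  exact h1.const_mul _

lemma wT_weighted {T : ℝ} (hT : 1 < T) (c p q : ℝ) :
    ∫ α in p..q, Real.exp (-(2 * c * α)) * wT T α = T / Real.log T ^ 2 *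
      ∫ v in (p * Real.log T)..(q * Real.log T), fv (Real.log (1 + 1 / T)) v ^ 2 *
        Real.exp (-(2 * (c / Real.log T) * v)) := by
  have hL : 0 < Real.log T := Real.log_pos hT
  have hT0 : 0 < T := by linarith
  have h1 := intervalIntegral.integral_comp_mul_right (a := p) (b := q)
    (fun v => fv (Real.log (1 + 1 / T)) v ^ 2 * Real.exp (-(2 * (c / Real.log T) * v))) hL.ne'
  have h2 : ∀ α : ℝ, Real.exp (-(2 * c * α)) * wT T α = (T / Real.log T) *
      (fv (Real.log (1 + 1 / T)) (α * Real.log T) ^ 2 *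
        Real.exp (-(2 * (c / Real.log T) * (α * Real.log T)))) := by
    intro α
    unfold wT
    rw [abs_of_pos (by positivity)]
    have : 2 * (c / Real.log T) * (α * Real.log T) = 2 * c * α := by field_simp
    rw [this]
    ring
  simp only [h2]
  rw [intervalIntegral.integral_const_mul, h1, smul_eq_mul, ← mul_assoc]
  congr 1
  field_simp

lemma wT_int {T : ℝ} (hT : 1 < T) {p q : ℝ} (hpq : p ≤ q) : ∫ α in p..q, wT T α = VV T p q := by
  have h1 := wT_weighted hT 0 p q
  simp only [mul_zero, zero_mul, neg_zero, Real.exp_zero, one_mul, zero_div, mul_one] at h1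
  rw [h1, VV_eq hT hpq]

lemma VV_nonneg {T : ℝ} (hT : 1 < T) {p q : ℝ} (hpq : p ≤ q) : 0 ≤ VV T p q := by
  rw [← wT_int hT hpq]
  exact intervalIntegral.integral_nonneg hpq fun α _ => wT_nonneg T α

/-- the mass of `[0, 1]` -/
lemma VV_zero_one {ε : ℝ} (hε : 0 < ε) : ∀ᶠ T : ℝ in atTop, VV T 0 1 ≤ 1 / 2 + ε := by
  have hlog : Tendsto Real.log atTop atTop := Real.tendsto_log_atTop
  -- a bound in terms of `L = log T`
  have h1 : Tendsto (fun y : ℝ => ((y + 1 / y) ^ 2 / 2 + 8 * (y + 1 / y + 1) + 1) / y ^ 2) atTop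
      (𝓝 (1 / 2)) := by
    have e : ∀ᶠ y : ℝ in atTop, (1 + 1 / y ^ 2) ^ 2 / 2 + 8 * (1 / y + 1 / y ^ 3 + 1 / y ^ 2) +
        1 / y ^ 2 = ((y + 1 / y) ^ 2 / 2 + 8 * (y + 1 / y + 1) + 1) / y ^ 2 := by
      filter_upwards [eventually_gt_atTop (0 : ℝ)] with y hy
      field_simp
    refine Tendsto.congr' e ?_
    have a1 : Tendsto (fun y : ℝ => 1 / y) atTop (𝓝 0) :=
      Tendsto.div_atTop tendsto_const_nhds tendsto_id
    have a2 : Tendsto (fun y : ℝ => 1 / y ^ 2) atTop (𝓝 0) :=
      Tendsto.div_atTop tendsto_const_nhds (tendsto_pow_atTop (by norm_num))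
    have a3 : Tendsto (fun y : ℝ => 1 / y ^ 3) atTop (𝓝 0) :=
      Tendsto.div_atTop tendsto_const_nhds (tendsto_pow_atTop (by norm_num))
    have := ((((tendsto_const_nhds (x := (1 : ℝ))).add a2).pow 2).div_const 2).add
      (((a1.add a3).add a2).const_mul 8) |>.add a2
    simpa using this
  have h2 := (h1.comp hlog).eventually (gt_mem_nhds (show (1 / 2 : ℝ) < 1 / 2 + ε by linarith))
  filter_upwards [h2, eventually_ge_atTop (3 : ℝ)] with T hT hT3
  simp only [Function.comp_apply] at hT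
  have hT0 : 0 < T := by linarith
  have hL : 0 < Real.log T := Real.log_pos (by linarith)
  have h3 := part01 (T := T) (by linarith)
  unfold VV
  rw [Real.rpow_zero, Real.rpow_one]
  have h4 : Real.log (T + 1) ≤ Real.log T + 1 / Real.log T := by
    have e1 : Real.log (T + 1) = Real.log T + Real.log (1 + 1 / T) := by
      rw [← Real.log_mul hT0.ne' (by positivity)]
      congr 1
      field_simp
    have e2 : Real.log (1 + 1 / T) ≤ 1 / T := (delta_facts (by linarith)).2.1
    have e3 : 1 / T ≤ 1 / Real.log T := by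
      refine one_div_le_one_div_of_le hL ?_
      have := Real.log_le_sub_one_of_pos hT0
      linarith
    linarith
  have h5 : 0 ≤ Real.log (T + 1) := Real.log_nonneg (by linarith)
  have h6 : Real.log (T + 1) ^ 2 ≤ (Real.log T + 1 / Real.log T) ^ 2 := pow_le_pow_left₀ h5 h4 2
  calc T / Real.log T ^ 2 * ∫ x in (1 : ℝ)..T, DD T x ^ 2 / x ^ 2 ≤ T / Real.log T ^ 2 *
      ((Real.log (T + 1) ^ 2 / 2 + 8 * (Real.log (T + 1) + 1) + 1) / T) :=
        mul_le_mul_of_nonneg_left h3 (by positivity)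
    _ = (Real.log (T + 1) ^ 2 / 2 + 8 * (Real.log (T + 1) + 1) + 1) / Real.log T ^ 2 := by
        field_simp
    _ ≤ ((Real.log T + 1 / Real.log T) ^ 2 / 2 + 8 * (Real.log T + 1 / Real.log T + 1) + 1) /
        Real.log T ^ 2 := div_le_div_of_nonneg_right (by linarith) (by positivity)
    _ ≤ 1 / 2 + ε := hT.le

/-- the tail -/
lemma tail_le (hRH : RHs) (hS : ∀ δ : ℝ, 0 < δ → δ ≤ 1 → ∀ a > 0, SqI (fv δ) a) {c : ℝ}
    (hc : 0 < c) : ∃ K : ℝ, 0 < K ∧ ∀ᶠ T : ℝ in atTop, ∀ B : ℝ, 0 ≤ B → T / Real.log T ^ 2 *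
      ∫ v in Ioi (B * Real.log T), fv (Real.log (1 + 1 / T)) v ^ 2 *
        Real.exp (-(2 * (c / Real.log T) * v)) ≤ K * Real.exp (-(c * B)) := by
  obtain ⟨K, hK, h⟩ := sq_upper hRH (half_pos hc)
  have hU : Tendsto (fun T : ℝ => 1 / Real.log (1 + 1 / T)) atTop atTop := by
    refine tendsto_atTop_mono' atTop ?_ tendsto_id
    filter_upwards [eventually_ge_atTop (1 : ℝ)] with T hT
    exact (delta_facts hT).2.2.1
  refine ⟨4 * K, by positivity, ?_⟩
  filter_upwards [hU.eventually h, eventually_ge_atTop (3 : ℝ)] with T hT hT3 B hB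
  have hT1 : 1 < T := by linarith
  have hT0 : 0 < T := by linarith
  obtain ⟨d1, d2, d3, d4⟩ := delta_facts hT1.le
  obtain ⟨δ, hδ⟩ : ∃ δ : ℝ, δ = Real.log (1 + 1 / T) := ⟨_, rfl⟩
  obtain ⟨U, hUd⟩ : ∃ U : ℝ, U = 1 / δ := ⟨_, rfl⟩
  rw [← hδ] at hT d1 d2 d3 d4 ⊢
  rw [← hUd] at hT d3 d4
  have hUδ : 1 / U = δ := by rw [hUd, one_div_one_div]
  rw [hUδ] at hT
  have hδ1 : δ ≤ 1 := d2.trans (by rw [div_le_one hT0]; linarith)
  have hL : 0 < Real.log T := Real.log_pos hT1
  have hU0 : 0 < U := by linarith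
  have hLL : Real.log T ≤ Real.log U := Real.log_le_log hT0 d3
  have hLU : 0 < Real.log U := by linarith
  have hLL2 : Real.log U ≤ 2 * Real.log T := by
    have : Real.log (T ^ 2) = 2 * Real.log T := by rw [Real.log_pow]; norm_num
    rw [← this]
    exact Real.log_le_log hU0 (by nlinarith)
  have h1 := hT (hS δ d1 hδ1)
  have hcU : 0 < c / 2 / Real.log U := by positivity
  have hcT : 0 < c / Real.log T := by positivity
  have i1 : IntegrableOn (fun v => fv δ v ^ 2 * Real.exp (-(2 * (c / 2 / Real.log U) * v)))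
      (Ioi 0) := hS δ d1 hδ1 _ hcU
  have i2 : IntegrableOn (fun v => fv δ v ^ 2 * Real.exp (-(2 * (c / Real.log T) * v)))
      (Ioi 0) := hS δ d1 hδ1 _ hcT
  have hsub : Ioi (B * Real.log T) ⊆ Ioi 0 := Ioi_subset_Ioi (by positivity)
  have h2 : ∫ v in Ioi (B * Real.log T), fv δ v ^ 2 * Real.exp (-(2 * (c / Real.log T) * v)) ≤
      Real.exp (-(c * B)) * (K * (Real.log U ^ 2 / U)) := by
    calc _ ≤ ∫ v in Ioi (B * Real.log T), Real.exp (-(c * B)) *
        (fv δ v ^ 2 * Real.exp (-(2 * (c / 2 / Real.log U) * v))) := by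
          refine setIntegral_mono_on (i2.mono_set hsub) ((i1.mono_set hsub).const_mul _)
            measurableSet_Ioi fun v hv => ?_
          have hv' : B * Real.log T < v := hv
          have hv0 : 0 ≤ v := le_trans (by positivity) hv'.le
          have e : Real.exp (-(c * B)) * (fv δ v ^ 2 *
              Real.exp (-(2 * (c / 2 / Real.log U) * v))) = fv δ v ^ 2 *
              Real.exp (-(c * B) + -(2 * (c / 2 / Real.log U) * v)) := by
            rw [Real.exp_add]; ring
          rw [e]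
          refine mul_le_mul_of_nonneg_left (Real.exp_le_exp.2 ?_) (sq_nonneg _)
          have g1 : c * B ≤ c / Real.log T * v := by
            rw [div_mul_eq_mul_div, le_div_iff₀ hL]
            have := mul_le_mul_of_nonneg_left hv'.le hc.le
            linarith
          have g2 : 2 * (c / 2 / Real.log U) * v ≤ c / Real.log T * v := by
            refine mul_le_mul_of_nonneg_right ?_ hv0
            have : 2 * (c / 2 / Real.log U) = c / Real.log U := by ring
            rw [this]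
            exact div_le_div_of_nonneg_left hc.le hL hLL
          linarith
      _ = Real.exp (-(c * B)) * ∫ v in Ioi (B * Real.log T),
          fv δ v ^ 2 * Real.exp (-(2 * (c / 2 / Real.log U) * v)) := integral_const_mul _ _
      _ ≤ Real.exp (-(c * B)) * (K * (Real.log U ^ 2 / U)) := by
          refine mul_le_mul_of_nonneg_left (le_trans ?_ h1) (Real.exp_pos _).le
          exact setIntegral_mono_set i1 (Eventually.of_forall fun v => by positivity)
            hsub.eventuallyLE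
  have h3 : Real.log U ^ 2 / U ≤ 4 * (Real.log T ^ 2 / T) := by
    rw [mul_div_assoc', div_le_div_iff₀ hU0 hT0]
    have g1 : Real.log U ^ 2 ≤ (2 * Real.log T) ^ 2 := pow_le_pow_left₀ hLU.le hLL2 2
    calc Real.log U ^ 2 * T ≤ (2 * Real.log T) ^ 2 * U :=
          mul_le_mul g1 d3 hT0.le (by positivity)
      _ = _ := by ring
  calc T / Real.log T ^ 2 * ∫ v in Ioi (B * Real.log T),
      fv δ v ^ 2 * Real.exp (-(2 * (c / Real.log T) * v)) ≤ T / Real.log T ^ 2 *
      (Real.exp (-(c * B)) * (K * (4 * (Real.log T ^ 2 / T)))) := by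
        refine mul_le_mul_of_nonneg_left (h2.trans ?_) (by positivity)
        exact mul_le_mul_of_nonneg_left (mul_le_mul_of_nonneg_left h3 hK.le) (Real.exp_pos _).le
    _ = _ := by field_simp

/-- the integral of the exponential -/
lemma exp_int {c : ℝ} (hc : 0 < c) (p q : ℝ) : ∫ y in p..q, Real.exp (-(2 * c * y)) =
    (Real.exp (-(2 * c * p)) - Real.exp (-(2 * c * q))) / (2 * c) := by
  have h1 : ∀ y ∈ uIcc p q, HasDerivAt (fun y : ℝ => -(Real.exp (-(2 * c * y)) / (2 * c)))
      (Real.exp (-(2 * c * y))) y := by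
    intro y _
    have h2 : HasDerivAt (fun y : ℝ => -(2 * c * y)) (-(2 * c * 1)) y :=
      ((hasDerivAt_id y).const_mul (2 * c)).neg
    have h3 := (h2.exp.div_const (2 * c)).neg
    have e : Real.exp (-(2 * c * y)) = -(Real.exp (-(2 * c * y)) * (-(2 * c * 1)) / (2 * c)) := by
      field_simp
    rw [e]
    exact h3
  rw [intervalIntegral.integral_eq_sub_of_hasDerivAt h1
    ((by fun_prop : Continuous fun y : ℝ => Real.exp (-(2 * c * y))).intervalIntegrable _ _)]
  ring

lemma exp_neg_le {x : ℝ} (hx : 0 ≤ x) : Real.exp (-x) ≤ 1 - x + x ^ 2 / 2 := by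
  have h1 := Real.quadratic_le_exp_of_nonneg hx
  rw [Real.exp_neg, inv_eq_one_div, div_le_iff₀ (Real.exp_pos x)]
  have h2 : 0 < 1 - x + x ^ 2 / 2 := by nlinarith [sq_nonneg (x - 1)]
  calc (1 : ℝ) ≤ (1 - x + x ^ 2 / 2) * (1 + x + x ^ 2 / 2) := by nlinarith [sq_nonneg (x ^ 2)]
    _ ≤ _ := mul_le_mul_of_nonneg_left h1 h2.le

/-- the hypothesis: upper bounds in all windows -/
def Upper : Prop := ∀ a b : ℝ, 1 ≤ a → a < b → ∀ ε : ℝ, 0 < ε → ∀ᶠ T : ℝ in atTop,
  VV T a b ≤ b - a + ε

lemma Upper.sqI (H : Upper) : ∀ δ : ℝ, 0 < δ → δ ≤ 1 → ∀ a > 0, SqI (fv δ) a := by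
  intro δ hδ hδ1 a ha
  refine sqI_of_windows (fun b hb => ?_) hδ hδ1 ha
  filter_upwards [H b (b + 1) hb (by linarith) 1 one_pos] with T hT
  linarith

theorem Upper.rh (H : Upper) : RiemannHypothesis := by
  rw [Pool.Agent.W190.rh_free]
  intro s hs
  have hlog2 : (0.69 : ℝ) < Real.log 2 := by have := Real.log_two_gt_d9; linarith
  have ha : 0 < (s.re - 1 / 2) / 2 := by linarith
  refine zero_free (δ := 1 / 2) (by norm_num) (by linarith) ha.le (fun a' ha' => ?_) (by linarith)
  exact lint_of_sq (fv_meas _) (H.sqI (1 / 2) (by norm_num) (by norm_num) _ ha) ha'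

/-- upper bounds tested against an exponential -/
lemma Upper.weighted (H : Upper) {c : ℝ} {p q : ℝ} (hp : 1 ≤ p) (hpq : p ≤ q) {ε : ℝ}
    (hε : 0 < ε) : ∀ᶠ T : ℝ in atTop, ∫ α in p..q, Real.exp (-(2 * c * α)) * wT T α ≤
      (∫ α in p..q, Real.exp (-(2 * c * α))) + ε := by
  rcases eq_or_lt_of_le hpq with rfl | hpq
  · exact Eventually.of_forall fun T => by
      rw [intervalIntegral.integral_same, intervalIntegral.integral_same]; linarith
  refine weight_up (w := wT) hpq wT_nonneg ?_ ?_ (φ := fun α => Real.exp (-(2 * c * α)))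
    (by fun_prop) (fun y => (Real.exp_pos _).le) hε
  · filter_upwards [eventually_gt_atTop (1 : ℝ)] with T hT using wT_ii hT p q
  · intro a b ha hab hb ε' hε'
    filter_upwards [H a b (hp.trans ha) hab ε' hε', eventually_gt_atTop (1 : ℝ)] with T hT hT1
    rw [wT_int hT1 hab.le]
    exact hT

/-- the lower bound in a window -/
theorem Upper.lower (H : Upper) {a b : ℝ} (ha : 1 ≤ a) (hab : a < b) {η : ℝ} (hη : 0 < η) :
    ∀ᶠ T : ℝ in atTop, b - a - η ≤ VV T a b := by
  have hRH : RHs := RHs_of H.rh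
  obtain ⟨c, hcd⟩ : ∃ c : ℝ, c = η / (4 * (1 + b ^ 2)) := ⟨_, rfl⟩
  have hc : 0 < c := by rw [hcd]; positivity
  have hcb : c * (1 + b ^ 2) = η / 4 := by rw [hcd]; field_simp
  obtain ⟨K, hK, htail⟩ := tail_le hRH H.sqI hc
  obtain ⟨ε, hε⟩ : ∃ ε : ℝ, ε = η / 16 := ⟨_, rfl⟩
  have hε0 : 0 < ε := by rw [hε]; positivity
  -- choice of `B`
  have hB : ∃ B : ℝ, b ≤ B ∧ K * Real.exp (-(c * B)) ≤ η / 4 := by
    have h1 : Tendsto (fun B : ℝ => K * Real.exp (-(c * B))) atTop (𝓝 (K * 0)) :=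
      (Real.tendsto_exp_neg_atTop_nhds_zero.comp (tendsto_id.const_mul_atTop hc)).const_mul K
    rw [mul_zero] at h1
    obtain ⟨B, h2, h3⟩ := ((h1.eventually (gt_mem_nhds (show (0 : ℝ) < η / 4 by positivity))).and
      (eventually_ge_atTop b)).exists
    exact ⟨B, h3, h2.le⟩
  obtain ⟨B, hbB, hKB⟩ := hB
  have hB0 : 0 ≤ B := by linarith
  have w1 := H.weighted (c := c) le_rfl ha hε0
  have w2 := H.weighted (c := c) (ha.trans hab.le) hbB hε0
  filter_upwards [w1, w2, htail, low_T hc hε0, VV_zero_one hε0, eventually_ge_atTop (3 : ℝ)]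
    with T g1 g2 g3 g4 g5 hT3
  have hT1 : 1 < T := by linarith
  have hT0 : 0 < T := by linarith
  have hL : 0 < Real.log T := Real.log_pos hT1
  obtain ⟨d1, d2, d3, d4⟩ := delta_facts hT1.le
  have hδ1 : Real.log (1 + 1 / T) ≤ 1 := d2.trans (by rw [div_le_one hT0]; linarith)
  obtain ⟨f, hf⟩ : ∃ f : ℝ → ℝ, f = fun v => fv (Real.log (1 + 1 / T)) v ^ 2 *
    Real.exp (-(2 * (c / Real.log T) * v)) := ⟨_, rfl⟩
  have hSq := H.sqI _ d1 hδ1 (c / Real.log T) (by positivity)
  have i0 : IntegrableOn f (Ioi 0) := by rw [hf]; exact hSq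
  have g4' := g4 hSq
  have g3' := g3 B hB0
  obtain ⟨M, hM⟩ : ∃ M : ℝ, M = T / Real.log T ^ 2 := ⟨_, rfl⟩
  have hM0 : 0 < M := by rw [hM]; positivity
  obtain ⟨L, hLd⟩ : ∃ L : ℝ, L = Real.log T := ⟨_, rfl⟩
  rw [← hM] at g3'
  have hff : ∀ v, fv (Real.log (1 + 1 / T)) v ^ 2 * Real.exp (-(2 * (c / Real.log T) * v)) = f v :=
    fun v => by rw [hf]
  simp only [hff] at g3' g4'
  -- the four windows
  have hG : ∀ p q : ℝ, M * ∫ v in (p * L)..(q * L), f v =
      ∫ α in p..q, Real.exp (-(2 * c * α)) * wT T α := by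
    intro p q
    rw [wT_weighted hT1, hM, hLd, hf]
  have hii : ∀ p q : ℝ, 0 ≤ p → p ≤ q → IntervalIntegrable f volume (p * L) (q * L) := by
    intro p q hp hpq
    rw [hLd, intervalIntegrable_iff, uIoc_of_le (mul_le_mul_of_nonneg_right hpq hL.le)]
    exact i0.mono_set fun v hv => lt_of_le_of_lt (by positivity) hv.1
  have hsplit : ∫ v in Ioi (0 : ℝ), f v = (∫ v in (0 * L)..(1 * L), f v) +
      (∫ v in (1 * L)..(a * L), f v) + (∫ v in (a * L)..(b * L), f v) +
      (∫ v in (b * L)..(B * L), f v) + ∫ v in Ioi (B * L), f v := by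
    rw [intervalIntegral.integral_add_adjacent_intervals (hii 0 1 le_rfl zero_le_one)
      (hii 1 a zero_le_one ha), intervalIntegral.integral_add_adjacent_intervals
      (hii 0 a le_rfl (by linarith)) (hii a b (by linarith) hab.le),
      intervalIntegral.integral_add_adjacent_intervals
      (hii 0 b le_rfl (by linarith)) (hii b B (by linarith) hbB), zero_mul,
      intervalIntegral.integral_of_le (by rw [hLd]; positivity),
      ← setIntegral_union (Set.Ioc_disjoint_Ioi le_rfl) measurableSet_Ioi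
        (i0.mono_set Ioc_subset_Ioi_self) (i0.mono_set (Ioi_subset_Ioi (by rw [hLd]; positivity))),
      Ioc_union_Ioi_eq_Ioi (by rw [hLd]; positivity)]
  have hexp1 : ∀ α : ℝ, 0 ≤ α → Real.exp (-(2 * c * α)) ≤ 1 := by
    intro α hα
    rw [Real.exp_le_one_iff]
    have : 0 ≤ 2 * c * α := by positivity
    linarith
  have hdrop : ∀ p q : ℝ, 0 ≤ p → p ≤ q →
      ∫ α in p..q, Real.exp (-(2 * c * α)) * wT T α ≤ VV T p q := by
    intro p q hp hpq
    rw [← wT_int hT1 hpq]
    have hi := wT_ii hT1 p q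
    refine intervalIntegral.integral_mono_on hpq
      (hi.continuousOn_mul (by fun_prop)) hi fun α hα => ?_
    exact mul_le_of_le_one_left (wT_nonneg T α) (hexp1 α (hp.trans hα.1))
  -- the total
  have htot : 1 / (2 * c) - 1 / 2 - ε ≤ M * ∫ v in Ioi (0 : ℝ), f v := by
    have e : M * ((1 / (2 * c) - 1 / 2 - ε) * (Real.log T ^ 2 / T)) = 1 / (2 * c) - 1 / 2 - ε := by
      rw [hM]; field_simp
    rw [← e]
    exact mul_le_mul_of_nonneg_left g4' hM0.le
  rw [hsplit, mul_add, mul_add, mul_add, mul_add, hG, hG, hG, hG] at htot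
  have t1 := hdrop 0 1 le_rfl zero_le_one
  have t2 := hdrop a b (by linarith) hab.le
  rw [exp_int hc] at g1 g2
  rw [← hLd] at g3'
  -- elementary inequalities
  have q1 : Real.exp (-(2 * c * 1)) ≤ 1 - 2 * c * 1 + (2 * c * 1) ^ 2 / 2 :=
    exp_neg_le (by positivity)
  have q2 : 1 - 2 * c * a ≤ Real.exp (-(2 * c * a)) := by
    have := Real.add_one_le_exp (-(2 * c * a)); linarith
  have q3 : Real.exp (-(2 * c * b)) ≤ 1 - 2 * c * b + (2 * c * b) ^ 2 / 2 :=
    exp_neg_le (by have : 0 ≤ b := by linarith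
                   positivity)
  have q4 := Real.exp_pos (-(2 * c * B))
  have q5 : (Real.exp (-(2 * c * 1)) - Real.exp (-(2 * c * a))) / (2 * c) +
      (Real.exp (-(2 * c * b)) - Real.exp (-(2 * c * B))) / (2 * c) ≤
      1 / (2 * c) - 1 - (b - a) + c * (1 + b ^ 2) := by
    rw [← add_div]
    have e : 1 / (2 * c) - 1 - (b - a) + c * (1 + b ^ 2) =
        (1 - 2 * c - 2 * c * (b - a) + 2 * c ^ 2 * (1 + b ^ 2)) / (2 * c) := by
      field_simp
    rw [e]
    refine div_le_div_of_nonneg_right ?_ (by positivity)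
    nlinarith
  linarith

/-- **Upper bounds in all windows imply RH and the asymptotic formula in all windows.** -/
theorem upper_decides : Upper ↔ RiemannHypothesis ∧ ∀ a b : ℝ, 1 ≤ a → a < b →
    Tendsto (fun T : ℝ => VV T a b) atTop (𝓝 (b - a)) := by
  constructor
  · intro H
    refine ⟨H.rh, fun a b ha hab => ?_⟩
    rw [Metric.tendsto_nhds]
    intro η hη
    filter_upwards [H a b ha hab (η / 2) (half_pos hη), H.lower ha hab (half_pos hη)] with T h1 h2
    rw [Real.dist_eq, abs_lt]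
    constructor <;> linarith
  · rintro ⟨-, h⟩ a b ha hab ε hε
    filter_upwards [(h a b ha hab).eventually (gt_mem_nhds (show b - a < b - a + ε by linarith))]
      with T hT using hT.le

end

end Pool.Agent.X83.VP
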