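import Pool.Agent.X83.VP.L17

set_option autoImplicit false

/-! # The unconditional lower bound in the range `x > T` -/

open Filter Topology Set MeasureTheory

namespace Pool.Agent.X83.VP

noncomputable section

lemma exp_image_Ioi' (p : ℝ) : Real.exp '' Ioi p = Ioi (Real.exp p) := by
  ext x
  constructor
  · rintro ⟨v, hv, rfl⟩
    exact Real.exp_lt_exp.2 hv
  · intro hx
    have hx0 : 0 < x := (Real.exp_pos p).trans hx
    exact ⟨Real.log x, (Real.lt_log_iff_exp_lt hx0).2 hx, Real.exp_log hx0⟩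

lemma cov_lint' {T : ℝ} (hT : 1 ≤ T) (a : ℝ) :
    ∫⁻ x in Ioi T, ENNReal.ofReal (DD T x ^ 2 * x ^ (-(2 + 2 * a))) =
      ∫⁻ v in Ioi (Real.log T), ENNReal.ofReal (fv (Real.log (1 + 1 / T)) v ^ 2 *
        Real.exp (-(2 * a * v))) := by
  have hT0 : 0 < T := by linarith
  have h1 : Real.exp '' Ioi (Real.log T) = Ioi T := by rw [exp_image_Ioi', Real.exp_log hT0]
  rw [← h1, lintegral_image_eq_lintegral_abs_deriv_mul measurableSet_Ioi
    (fun v _ => (Real.hasDerivAt_exp v).hasDerivWithinAt) (Real.exp_injective.injOn)]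
  refine setLIntegral_congr_fun measurableSet_Ioi fun v _ => ?_
  rw [← ENNReal.ofReal_mul (abs_nonneg _), abs_of_pos (Real.exp_pos v), DD_sq hT]

/-- the unconditional lower bound for `x > T` -/
theorem scale_low2 {c : ℝ} (hc : 0 < c) {ε : ℝ} (hε : 0 < ε) :
    ∀ᶠ T : ℝ in atTop, ENNReal.ofReal ((1 / (2 * c) - 1 - ε) * (Real.log T ^ 2 / T)) ≤
      ∫⁻ x in Ioi T, ENNReal.ofReal (DD T x ^ 2 * x ^ (-(2 + 2 * (c / Real.log T)))) := by
  filter_upwards [low_T hc (half_pos hε), VV_zero_one (half_pos hε), eventually_ge_atTop (3 : ℝ)]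
    with T hT hV hT3
  have hT1 : 1 < T := by linarith
  have hT0 : 0 < T := by linarith
  have hL : 0 < Real.log T := Real.log_pos hT1
  rw [cov_lint' hT1.le]
  obtain ⟨f, hf⟩ : ∃ f : ℝ → ℝ, f = fun v => fv (Real.log (1 + 1 / T)) v ^ 2 *
    Real.exp (-(2 * (c / Real.log T) * v)) := ⟨_, rfl⟩
  have hf0 : ∀ v, 0 ≤ f v := fun v => by rw [hf]; positivity
  have hfm : Measurable f := by rw [hf]; exact ((fv_meas _).pow_const 2).mul (by fun_prop)
  have hloc : IntegrableOn f (Ioc 0 (Real.log T)) := by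
    have h1 : IntervalIntegrable f volume 0 (Real.log T) := by
      rw [hf]; exact (fv_sq_ii _ _ _).mul_continuousOn (by fun_prop)
    rwa [intervalIntegrable_iff, uIoc_of_le hL.le] at h1
  have hun : Ioc 0 (Real.log T) ∪ Ioi (Real.log T) = Ioi (0 : ℝ) := Ioc_union_Ioi_eq_Ioi hL.le
  have hff : ∀ v, fv (Real.log (1 + 1 / T)) v ^ 2 * Real.exp (-(2 * (c / Real.log T) * v)) = f v :=
    fun v => by rw [hf]
  simp only [hff] at hT ⊢
  by_cases hS : SqI (fv (Real.log (1 + 1 / T))) (c / Real.log T)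
  · have h1 := hT hS
    have i0 : IntegrableOn f (Ioi 0) := by rw [hf]; exact hS
    have i1 : IntegrableOn f (Ioi (Real.log T)) := i0.mono_set (Ioi_subset_Ioi hL.le)
    rw [← ofReal_integral_eq_lintegral_ofReal i1 (Eventually.of_forall hf0)]
    refine ENNReal.ofReal_le_ofReal ?_
    have h2 : ∫ v in Ioi (0 : ℝ), f v = (∫ v in Ioc 0 (Real.log T), f v) +
        ∫ v in Ioi (Real.log T), f v := by
      rw [← setIntegral_union (Set.Ioc_disjoint_Ioi le_rfl) measurableSet_Ioi hloc i1, hun]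
    have h3 : ∫ v in Ioc 0 (Real.log T), f v ≤ (1 / 2 + ε / 2) * (Real.log T ^ 2 / T) := by
      rw [VV_eq hT1 zero_le_one, zero_mul, one_mul] at hV
      have g : 0 < T / Real.log T ^ 2 := by positivity
      have g1 : T / Real.log T ^ 2 * ((1 / 2 + ε / 2) * (Real.log T ^ 2 / T)) = 1 / 2 + ε / 2 := by
        field_simp
      rw [← g1] at hV
      refine le_trans ?_ (le_of_mul_le_mul_left hV g)
      rw [← intervalIntegral.integral_of_le hL.le]
      refine intervalIntegral.integral_mono_on hL.le ?_ (fv_sq_ii _ _ _) fun v hv => ?_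
      · rw [intervalIntegrable_iff, uIoc_of_le hL.le]; exact hloc
      · rw [hf]
        refine mul_le_of_le_one_right (sq_nonneg _) ?_
        rw [Real.exp_le_one_iff]
        have : 0 ≤ 2 * (c / Real.log T) * v := mul_nonneg (by positivity) hv.1
        linarith
    have h4 : (1 / (2 * c) - 1 - ε) * (Real.log T ^ 2 / T) =
        (1 / (2 * c) - 1 / 2 - ε / 2) * (Real.log T ^ 2 / T) -
        (1 / 2 + ε / 2) * (Real.log T ^ 2 / T) := by ring
    rw [h4]
    linarith
  · have h2 : ∫⁻ v in Ioi (Real.log T), ENNReal.ofReal (f v) = ⊤ := by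
      by_contra h3
      apply hS
      have i1 : IntegrableOn f (Ioi (Real.log T)) := by
        refine ⟨hfm.aestronglyMeasurable, ?_⟩
        rw [hasFiniteIntegral_iff_ofReal (Eventually.of_forall hf0)]
        exact lt_top_iff_ne_top.2 h3
      have i2 := hloc.union i1
      rw [hun] at i2
      unfold SqI
      rw [hf] at i2
      exact i2
    rw [h2]
    exact le_top

end

end Pool.Agent.X83.VP
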