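import Pool.Agent.X83.VP.L1

set_option autoImplicit false

/-! # The continuation of the Laplace transform; finite mean squares exclude zeros -/

open MeasureTheory Filter Topology Set

namespace Pool.Agent.X83.VP

open Pool.Agent.W263.BSD (LInt lap lapC lapC_ofReal lapC_differentiableAt)
open Pool.Agent.X112.RO (psi_lap exp_lap zeta1_eq deriv_log_eq)

noncomputable section

/-- the weighted mean square is finite -/
def SqI (f : ℝ → ℝ) (a : ℝ) : Prop := IntegrableOn (fun v => f v ^ 2 * Real.exp (-(2 * a * v))) (Ioi 0)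

lemma lint_of_sq {f : ℝ → ℝ} (hf : Measurable f) {a0 a : ℝ} (h : SqI f a0) (ha : a0 < a) :
    LInt f a := by
  unfold Pool.Agent.W263.BSD.LInt
  unfold SqI at h
  have h1 : IntegrableOn (fun v : ℝ => f v ^ 2 * Real.exp (-(2 * a0 * v)) +
      Real.exp (-(2 * (a - a0)) * v)) (Ioi 0) :=
    h.add (integrableOn_exp_mul_Ioi (by linarith) 0)
  refine Integrable.mono' h1 ((hf.mul (by fun_prop)).aestronglyMeasurable) ?_
  filter_upwards with v
  rw [norm_mul, Real.norm_eq_abs, Real.norm_of_nonneg (Real.exp_pos _).le]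
  obtain ⟨x, hx⟩ : ∃ x : ℝ, x = |f v| * Real.exp (-(a0 * v)) := ⟨_, rfl⟩
  obtain ⟨y, hy⟩ : ∃ y : ℝ, y = Real.exp (-((a - a0) * v)) := ⟨_, rfl⟩
  have hx2 : f v ^ 2 * Real.exp (-(2 * a0 * v)) = x ^ 2 := by
    rw [hx, mul_pow, sq_abs, ← Real.exp_nat_mul]; congr 2; push_cast; ring
  have hy2 : Real.exp (-(2 * (a - a0)) * v) = y ^ 2 := by
    rw [hy, ← Real.exp_nat_mul]; congr 1; push_cast; ring
  have hxy : |f v| * Real.exp (-(a * v)) = x * y := by
    rw [hx, hy, mul_assoc, ← Real.exp_add]; congr 2; ring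
  rw [hxy, hx2, hy2]
  nlinarith [sq_nonneg (x - y), sq_nonneg x, sq_nonneg y]

lemma CC_diff (δ : ℝ) {s : ℂ} (hs : s ≠ 0) : DifferentiableAt ℂ (CC δ) s := by
  unfold CC
  exact DifferentiableAt.div (by fun_prop) differentiableAt_id hs

lemma CC_ne {δ : ℝ} (hδ : 0 < δ) {s : ℂ} (hs : 0 < s.re) : CC δ s ≠ 0 := by
  unfold CC
  have hs0 : s ≠ 0 := by rintro rfl; simp at hs
  refine div_ne_zero ?_ hs0
  intro h
  have h1 : Complex.exp (δ * s) = 1 := by linear_combination h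
  have h2 := congrArg (fun z => ‖z‖) h1
  simp only [Complex.norm_exp, norm_one] at h2
  rw [Real.exp_eq_one_iff] at h2
  have h3 : ((δ : ℂ) * s).re = δ * s.re := by simp
  rw [h3] at h2
  have := mul_pos hδ hs
  linarith

/-- the identity between the transform and `ζ`, without division -/
theorem cont_id {δ : ℝ} (hδ : 0 ≤ δ) (hδ2 : δ ≤ Real.log 2) {a0 : ℝ} (ha0 : 0 ≤ a0)
    (h : ∀ a > a0, LInt (fv δ) a) {w : ℂ} (hw : a0 < w.re) :
    (w - 1 / 2) * riemannZeta₁ (1 / 2 + w) * lapC (fv δ) w + CC δ (1 / 2 + w) *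
      ((w - 1 / 2) * deriv riemannZeta₁ (1 / 2 + w) - riemannZeta₁ (1 / 2 + w)) +
      ((Real.exp δ - 1 : ℝ) : ℂ) * riemannZeta₁ (1 / 2 + w) = 0 := by
  obtain ⟨U, hU⟩ : ∃ U : Set ℂ, U = {w : ℂ | a0 < w.re} := ⟨_, rfl⟩
  have hUo : IsOpen U := by rw [hU]; exact isOpen_lt continuous_const Complex.continuous_re
  have hUc : IsPreconnected U := by
    rw [hU]; exact (convex_halfSpace_re_gt a0).isPreconnected
  obtain ⟨F, hF⟩ : ∃ F : ℂ → ℂ, ∀ w, F w = (w - 1 / 2) * riemannZeta₁ (1 / 2 + w) * lapC (fv δ) w +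
      CC δ (1 / 2 + w) * ((w - 1 / 2) * deriv riemannZeta₁ (1 / 2 + w) - riemannZeta₁ (1 / 2 + w)) +
      ((Real.exp δ - 1 : ℝ) : ℂ) * riemannZeta₁ (1 / 2 + w) := ⟨_, fun w => rfl⟩
  have hZ : Differentiable ℂ riemannZeta₁ := differentiable_riemannZeta₁
  have hZ' : Differentiable ℂ (deriv riemannZeta₁) := fun z =>
    ((hZ.analyticAt z).deriv).differentiableAt
  have hs : Differentiable ℂ fun w : ℂ => 1 / 2 + w := by fun_prop
  have hF' : F = fun w => (w - 1 / 2) * riemannZeta₁ (1 / 2 + w) * lapC (fv δ) w +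
      CC δ (1 / 2 + w) * ((w - 1 / 2) * deriv riemannZeta₁ (1 / 2 + w) - riemannZeta₁ (1 / 2 + w)) +
      ((Real.exp δ - 1 : ℝ) : ℂ) * riemannZeta₁ (1 / 2 + w) := funext hF
  have hFd : DifferentiableOn ℂ F U := by
    intro w hw
    rw [hU] at hw
    have hw' : a0 < w.re := hw
    have hne : (1 / 2 + w : ℂ) ≠ 0 := by
      intro h0
      have h1 := congrArg Complex.re h0
      simp at h1
      norm_num at h1
      linarith
    have d1 : DifferentiableAt ℂ (lapC (fv δ)) w := lapC_differentiableAt (fv_meas δ) h hw'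
    have d2 : DifferentiableAt ℂ (fun w => riemannZeta₁ (1 / 2 + w)) w :=
      (hZ (1 / 2 + w)).comp w (hs w)
    have d3 : DifferentiableAt ℂ (fun w => deriv riemannZeta₁ (1 / 2 + w)) w :=
      (hZ' (1 / 2 + w)).comp w (hs w)
    have d4 : DifferentiableAt ℂ (fun w => CC δ (1 / 2 + w)) w :=
      DifferentiableAt.comp w (CC_diff δ hne) (hs w)
    have d5 : DifferentiableAt ℂ (fun w : ℂ => w - 1 / 2) w := by fun_prop
    rw [hF']
    exact ((((d5.mul d2).mul d1).add (d4.mul ((d5.mul d3).sub d2))).add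
      (d2.const_mul _)).differentiableWithinAt
  have hFa : AnalyticOnNhd ℂ F U := hFd.analyticOnNhd hUo
  have h0a : AnalyticOnNhd ℂ (fun _ : ℂ => (0 : ℂ)) U := analyticOnNhd_const
  have hz0 : ((a0 + 1 : ℝ) : ℂ) ∈ U := by
    rw [hU]
    show a0 < ((a0 + 1 : ℝ) : ℂ).re
    rw [Complex.ofReal_re]; linarith
  have hev : F =ᶠ[𝓝 ((a0 + 1 : ℝ) : ℂ)] fun _ => 0 := by
    have ho : IsOpen {w : ℂ | 1 / 2 < w.re} := isOpen_lt continuous_const Complex.continuous_re
    filter_upwards [ho.mem_nhds (show ((a0 + 1 : ℝ) : ℂ) ∈ {w : ℂ | 1 / 2 < w.re} by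
      show 1 / 2 < ((a0 + 1 : ℝ) : ℂ).re
      rw [Complex.ofReal_re]; linarith)] with w hw
    have hw' : 1 / 2 < w.re := hw
    rw [hF, lapC_fv hδ hδ2 hw']
    obtain ⟨s, hs⟩ : ∃ s : ℂ, s = 1 / 2 + w := ⟨_, rfl⟩
    rw [← hs]
    have hsre : 1 < s.re := by
      rw [hs, Complex.add_re]; norm_num; linarith
    have hs1 : s ≠ 1 := by rintro rfl; norm_num at hsre
    have hz : riemannZeta s ≠ 0 := riemannZeta_ne_zero_of_one_lt_re hsre
    have hw1 : w - 1 / 2 = s - 1 := by rw [hs]; ring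
    have hs1' : s - 1 ≠ 0 := sub_ne_zero.2 hs1
    have hz1 : riemannZeta₁ s ≠ 0 := by
      rw [zeta1_eq hs1]; exact mul_ne_zero hs1' hz
    rw [deriv_log_eq hs1 hz, hw1]
    field_simp
    ring
  have hkey := hFa.eqOn_of_preconnected_of_eventuallyEq h0a hUc hz0 hev
  have h2 := hkey (x := w) (by rw [hU]; exact hw)
  rw [← hF]
  exact h2

lemma zeta1_ne_of {s : ℂ} (h1 : s = 1 ∨ riemannZeta s ≠ 0) : riemannZeta₁ s ≠ 0 := by
  rcases eq_or_ne s 1 with rfl | hs
  · rw [riemannZeta₁_one]; exact one_ne_zero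
  · rw [zeta1_eq hs]
    exact mul_ne_zero (sub_ne_zero.2 hs) (h1.resolve_left hs)

/-- a finite mean square excludes zeros -/
theorem zero_free {δ : ℝ} (hδ : 0 < δ) (hδ2 : δ ≤ Real.log 2) {a0 : ℝ} (ha0 : 0 ≤ a0)
    (h : ∀ a > a0, LInt (fv δ) a) {s : ℂ} (hs : 1 / 2 + a0 < s.re) : riemannZeta s ≠ 0 := by
  intro hz
  have hs1 : s ≠ 1 := by
    rintro rfl
    exact riemannZeta_ne_zero_of_one_le_re (by simp) hz
  have hZ : Differentiable ℂ riemannZeta₁ := differentiable_riemannZeta₁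
  have hz1 : riemannZeta₁ s = 0 := by rw [zeta1_eq hs1, hz, mul_zero]
  have hs1' : s - 1 ≠ 0 := sub_ne_zero.2 hs1
  have han : AnalyticAt ℂ riemannZeta₁ s := hZ.analyticAt s
  -- the order is finite
  have hfin : analyticOrderAt riemannZeta₁ s ≠ ⊤ := by
    have hall : AnalyticOnNhd ℂ riemannZeta₁ univ := fun z _ => hZ.analyticAt z
    refine hall.analyticOrderAt_ne_top_of_isPreconnected isPreconnected_univ (mem_univ 1)
      (mem_univ s) ?_
    rw [(hall 1 (mem_univ _)).analyticOrderAt_eq_zero.mpr (by rw [riemannZeta₁_one]; exact one_ne_zero)]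
    exact ENat.zero_ne_top
  have hord := han.analyticOrderAt_deriv_add_one
  have e1 : analyticOrderAt (fun z => riemannZeta₁ z - riemannZeta₁ s) s =
      analyticOrderAt riemannZeta₁ s := by
    rw [hz1]; simp
  rw [e1] at hord
  -- the two sides of the identity
  have hs0 : s ≠ 0 := by
    rintro rfl
    simp at hs
    linarith
  have hsre : 0 < s.re := by linarith
  obtain ⟨A, hA⟩ : ∃ A : ℂ → ℂ, A = fun z => CC δ z * (z - 1) := ⟨_, rfl⟩
  obtain ⟨B, hB⟩ : ∃ B : ℂ → ℂ, B = fun z => CC δ z - (z - 1) * lapC (fv δ) (z - 1 / 2) -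
      ((Real.exp δ - 1 : ℝ) : ℂ) := ⟨_, rfl⟩
  have ho1 : IsOpen {z : ℂ | 1 / 2 + a0 < z.re} := isOpen_lt continuous_const Complex.continuous_re
  have hCC : ∀ z ∈ {z : ℂ | 1 / 2 + a0 < z.re}, DifferentiableAt ℂ (CC δ) z := by
    intro z hz
    have hz' : 1 / 2 + a0 < z.re := hz
    exact CC_diff δ (by rintro rfl; simp at hz'; linarith)
  have hlap : ∀ z ∈ {z : ℂ | 1 / 2 + a0 < z.re},
      DifferentiableAt ℂ (fun z => lapC (fv δ) (z - 1 / 2)) z := by
    intro z hz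
    have hz' : 1 / 2 + a0 < z.re := hz
    have hz2 : a0 < (z - 1 / 2).re := by
      rw [Complex.sub_re]; norm_num; linarith
    exact DifferentiableAt.comp z (g := lapC (fv δ)) (f := fun z : ℂ => z - 1 / 2)
      (lapC_differentiableAt (fv_meas δ) h hz2) (by fun_prop)
  have hAan : AnalyticAt ℂ A s := by
    have : DifferentiableOn ℂ A {z : ℂ | 1 / 2 + a0 < z.re} := by
      intro z hz
      rw [hA]
      exact ((hCC z hz).mul (by fun_prop)).differentiableWithinAt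
    exact (this.analyticOnNhd ho1) s hs
  have hBan : AnalyticAt ℂ B s := by
    have : DifferentiableOn ℂ B {z : ℂ | 1 / 2 + a0 < z.re} := by
      intro z hz
      rw [hB]
      have d5 : DifferentiableAt ℂ (fun z : ℂ => z - 1) z := by fun_prop
      exact (((hCC z hz).sub (d5.mul (hlap z hz))).sub_const _).differentiableWithinAt
    exact (this.analyticOnNhd ho1) s hs
  have heq : (A * deriv riemannZeta₁) =ᶠ[𝓝 s] (B * riemannZeta₁) := by
    filter_upwards [ho1.mem_nhds hs] with z hz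
    have hz' : 1 / 2 + a0 < z.re := hz
    have hz2 : a0 < (z - 1 / 2).re := by
      rw [Complex.sub_re]; norm_num; linarith
    have h1 := cont_id hδ.le hδ2 ha0 h hz2
    rw [show (1 / 2 : ℂ) + (z - 1 / 2) = z by ring, show z - 1 / 2 - 1 / 2 = z - 1 by ring] at h1
    rw [hA, hB]
    simp only [Pi.mul_apply]
    linear_combination h1
  have ho := analyticOrderAt_congr heq
  rw [analyticOrderAt_mul hAan han.deriv, analyticOrderAt_mul hBan han] at ho
  have hA0 : analyticOrderAt A s = 0 := by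
    rw [hAan.analyticOrderAt_eq_zero, hA]
    exact mul_ne_zero (CC_ne hδ hsre) hs1'
  rw [hA0, zero_add, ← hord] at ho
  -- `n = b + (n + 1)` with `n` finite
  obtain ⟨n, hn⟩ := ENat.ne_top_iff_exists.1 (show analyticOrderAt (deriv riemannZeta₁) s ≠ ⊤ by
    intro ht
    rw [ht, top_add] at hord
    exact hfin hord.symm)
  rw [← hn] at ho
  have h3 : ((n : ℕ∞)) + 1 ≤ analyticOrderAt B s + ((n : ℕ∞) + 1) := le_add_self
  rw [← ho] at h3
  have h4 : ((n + 1 : ℕ) : ℕ∞) ≤ (n : ℕ∞) := by push_cast; exact h3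
  have h5 := Nat.cast_le.1 h4
  omega

/-- the transform to the right of all zeros -/
theorem lapC_eq {δ : ℝ} (hδ : 0 < δ) (hδ2 : δ ≤ Real.log 2) {a0 : ℝ} (ha0 : 0 ≤ a0)
    (h : ∀ a > a0, LInt (fv δ) a) {w : ℂ} (hw : a0 < w.re) (hw1 : w ≠ 1 / 2) :
    lapC (fv δ) w = -(CC δ (1 / 2 + w) * (deriv riemannZeta (1 / 2 + w) /
      riemannZeta (1 / 2 + w))) - ((Real.exp δ - 1 : ℝ) : ℂ) / (w - 1 / 2) := by
  have h1 := cont_id hδ.le hδ2 ha0 h hw
  obtain ⟨s, hs⟩ : ∃ s : ℂ, s = 1 / 2 + w := ⟨_, rfl⟩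
  rw [← hs] at h1 ⊢
  have hsre : 1 / 2 + a0 < s.re := by
    rw [hs, Complex.add_re]; norm_num; linarith
  have hs1 : s ≠ 1 := by
    rintro rfl
    apply hw1
    linear_combination -hs
  have hz := zero_free hδ hδ2 ha0 h hsre
  have hw2 : w - 1 / 2 = s - 1 := by rw [hs]; ring
  have hs1' : s - 1 ≠ 0 := sub_ne_zero.2 hs1
  have hz1 : riemannZeta₁ s ≠ 0 := by
    rw [zeta1_eq hs1]; exact mul_ne_zero hs1' hz
  rw [deriv_log_eq hs1 hz, hw2]
  rw [hw2] at h1
  have h2 : lapC (fv δ) w = -(CC δ s * ((s - 1) * deriv riemannZeta₁ s - riemannZeta₁ s) +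
      ((Real.exp δ - 1 : ℝ) : ℂ) * riemannZeta₁ s) / ((s - 1) * riemannZeta₁ s) := by
    rw [eq_div_iff (mul_ne_zero hs1' hz1)]
    linear_combination h1
  rw [h2]
  field_simp
  ring

end

end Pool.Agent.X83.VP
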