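import Pool.Agent.X83.VP.L2
import Pool.Agent.Helper625.Planch

set_option autoImplicit false

/-! # Plancherel's identity for the real part of the transform -/

open MeasureTheory Filter Topology Set
open scoped FourierTransform

namespace Pool.Agent.X83.VP

open Pool.Agent.W263.BSD (LInt lap lapC lapC_ofReal lapC_differentiableAt)

noncomputable section

/-- the real part of the shifted transform on the line `Re w = a` -/
def Rt (f : ℝ → ℝ) (a b t : ℝ) : ℝ :=
  (Complex.exp (-(Complex.I * b * t)) * lapC f ((a : ℂ) + t * Complex.I)).re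

theorem planch {f : ℝ → ℝ} (hf : Measurable f) {a b : ℝ} (hb : 0 ≤ b) (h1 : LInt f a)
    (h2 : SqI f a) : Integrable (fun t : ℝ => Rt f a b t ^ 2) ∧
    ∫ t : ℝ, Rt f a b t ^ 2 = Real.pi * ∫ v in Ioi (0 : ℝ), f v ^ 2 * Real.exp (-(2 * a * v)) := by
  have hpi := Real.pi_pos
  -- the function on `(0, ∞)` and its shift
  obtain ⟨g, hg⟩ : ∃ g : ℝ → ℝ, g = (Ioi (0 : ℝ)).indicator fun v => f v * Real.exp (-(a * v)) :=
    ⟨_, rfl⟩
  have hgm : Measurable g := by
    rw [hg]; exact (hf.mul (by fun_prop)).indicator measurableSet_Ioi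
  have hg0 : ∀ v, v ≤ 0 → g v = 0 := fun v hv => by
    rw [hg]; exact indicator_of_notMem (by simpa using hv) _
  have hgi : Integrable g := by
    rw [hg]; exact (integrable_indicator_iff measurableSet_Ioi).2 h1
  have hg2 : ∀ v, g v ^ 2 = (Ioi (0 : ℝ)).indicator (fun v => f v ^ 2 * Real.exp (-(2 * a * v))) v := by
    intro v
    rw [hg]
    by_cases hv : v ∈ Ioi (0 : ℝ)
    · rw [indicator_of_mem hv, indicator_of_mem hv, mul_pow, ← Real.exp_nat_mul]
      congr 2; push_cast; ring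
    · rw [indicator_of_notMem hv, indicator_of_notMem hv]; norm_num
  have hgs : Integrable (fun v => g v ^ 2) := by
    have : (fun v => g v ^ 2) = (Ioi (0 : ℝ)).indicator
        (fun v => f v ^ 2 * Real.exp (-(2 * a * v))) := funext hg2
    rw [this]; exact (integrable_indicator_iff measurableSet_Ioi).2 h2
  have hgI : ∫ v, g v ^ 2 = ∫ v in Ioi (0 : ℝ), f v ^ 2 * Real.exp (-(2 * a * v)) := by
    have : (fun v => g v ^ 2) = (Ioi (0 : ℝ)).indicator
        (fun v => f v ^ 2 * Real.exp (-(2 * a * v))) := funext hg2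
    rw [this, integral_indicator measurableSet_Ioi]
  obtain ⟨w, hw⟩ : ∃ w : ℝ → ℝ, ∀ v, w v = g (v - b) := ⟨_, fun v => rfl⟩
  have hwf : w = fun v => g (v - b) := funext hw
  have hwm : Measurable w := by rw [hwf]; exact hgm.comp (by fun_prop)
  have hwi : Integrable w := by rw [hwf]; exact hgi.comp_sub_right b
  have hws : Integrable (fun v => w v ^ 2) := by
    have : (fun v => w v ^ 2) = fun v => (fun u => g u ^ 2) (v - b) := by
      funext v; rw [hw]
    rw [this]; exact hgs.comp_sub_right b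
  have hwI : ∫ v, w v ^ 2 = ∫ v, g v ^ 2 := by
    have : (fun v => w v ^ 2) = fun v => (fun u => g u ^ 2) (v - b) := by
      funext v; rw [hw]
    rw [this]; exact integral_sub_right_eq_self (fun u => g u ^ 2) b
  have hw0 : ∀ v, v ≤ 0 → w v = 0 := fun v hv => by
    rw [hw]; exact hg0 _ (by linarith)
  -- the even function
  obtain ⟨E, hE⟩ : ∃ E : ℝ → ℂ, ∀ v, E v = ((w v + w (-v) : ℝ) : ℂ) := ⟨_, fun v => rfl⟩
  have hEf : E = fun v => ((w v + w (-v) : ℝ) : ℂ) := funext hE
  have hwn : Integrable fun v => w (-v) := hwi.comp_neg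
  have hEi : Integrable E := by rw [hEf]; exact (hwi.add hwn).ofReal
  have hEm : AEStronglyMeasurable E volume := hEi.aestronglyMeasurable
  have hprod : ∀ v, w v * w (-v) = 0 := by
    intro v
    rcases le_total v 0 with hv | hv
    · rw [hw0 v hv, zero_mul]
    · rw [hw0 (-v) (by linarith), mul_zero]
  have hE2 : ∀ v, ‖E v‖ ^ 2 = w v ^ 2 + w (-v) ^ 2 := by
    intro v
    rw [hE, Complex.norm_real, Real.norm_eq_abs, sq_abs]
    linear_combination 2 * hprod v
  have hwns : Integrable fun v => w (-v) ^ 2 := by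
    have : (fun v => w (-v) ^ 2) = fun v => (fun u => w u ^ 2) (-v) := rfl
    rw [this]; exact hws.comp_neg
  have hEs : Integrable fun v => ‖E v‖ ^ 2 := by
    have : (fun v => ‖E v‖ ^ 2) = fun v => w v ^ 2 + w (-v) ^ 2 := funext hE2
    rw [this]; exact hws.add hwns
  have hEmem : MemLp E 2 := (memLp_two_iff_integrable_sq_norm hEm).2 hEs
  have hEI : ∫ v, ‖E v‖ ^ 2 = 2 * ∫ v, w v ^ 2 := by
    have : (fun v => ‖E v‖ ^ 2) = fun v => w v ^ 2 + w (-v) ^ 2 := funext hE2
    rw [this, integral_add hws hwns]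
    have h3 : ∫ v, w (-v) ^ 2 = ∫ v, w v ^ 2 := integral_neg_eq_self (fun v => w v ^ 2) volume
    rw [h3]; ring
  obtain ⟨hP1, hP2⟩ := Pool.Agent.Helper625.Planch.plancherel E hEi hEmem
  -- the transform of `w`
  have hFw : ∀ ξ : ℝ, 𝓕 (fun v => ((w v : ℝ) : ℂ)) ξ =
      Complex.exp (-(Complex.I * b * (2 * Real.pi * ξ : ℝ))) *
        lapC f ((a : ℂ) + ((2 * Real.pi * ξ : ℝ) : ℂ) * Complex.I) := by
    intro ξ
    rw [Real.fourier_real_eq_integral_exp_smul]
    have e1 : ∫ v : ℝ, Complex.exp (((-2 * Real.pi * v * ξ : ℝ) : ℂ) * Complex.I) • ((w v : ℝ) : ℂ) =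
        ∫ v : ℝ, Complex.exp (((-2 * Real.pi * (v + b) * ξ : ℝ) : ℂ) * Complex.I) •
          ((g v : ℝ) : ℂ) := by
      rw [← integral_sub_right_eq_self (fun v : ℝ =>
        Complex.exp (((-2 * Real.pi * (v + b) * ξ : ℝ) : ℂ) * Complex.I) • ((g v : ℝ) : ℂ)) b]
      refine integral_congr_ae (Eventually.of_forall fun v => ?_)
      simp only
      rw [hw, sub_add_cancel]
    rw [e1]
    unfold Pool.Agent.W263.BSD.lapC
    rw [← integral_const_mul, ← integral_indicator measurableSet_Ioi]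
    refine integral_congr_ae (Eventually.of_forall fun v => ?_)
    simp only
    rw [hg]
    by_cases hv : v ∈ Ioi (0 : ℝ)
    · rw [indicator_of_mem hv, indicator_of_mem hv, smul_eq_mul]
      push_cast
      have a1 : Complex.exp (-2 * Real.pi * (v + b) * ξ * Complex.I) * Complex.exp (-(a * v)) =
          Complex.exp (-(Complex.I * b * (2 * Real.pi * ξ))) *
            Complex.exp (-((a + 2 * Real.pi * ξ * Complex.I) * v)) := by
        rw [← Complex.exp_add, ← Complex.exp_add]; congr 1; ring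
      calc _ = (f v : ℂ) * (Complex.exp (-2 * Real.pi * (v + b) * ξ * Complex.I) *
            Complex.exp (-(a * v))) := by ring
        _ = _ := by rw [a1]; ring
    · rw [indicator_of_notMem hv, indicator_of_notMem hv]
      simp
  have hFn : ∀ ξ : ℝ, 𝓕 (fun v => ((w (-v) : ℝ) : ℂ)) ξ =
      (starRingEnd ℂ) (𝓕 (fun v => ((w v : ℝ) : ℂ)) ξ) := by
    intro ξ
    rw [Real.fourier_real_eq_integral_exp_smul, Real.fourier_real_eq_integral_exp_smul,
      ← integral_conj, ← integral_neg_eq_self]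
    refine integral_congr_ae (Eventually.of_forall fun v => ?_)
    simp only [smul_eq_mul, map_mul, Complex.conj_ofReal, neg_neg]
    rw [← Complex.exp_conj, map_mul, Complex.conj_ofReal, Complex.conj_I]
    congr 2
    push_cast
    ring
  have hFE : ∀ ξ : ℝ, 𝓕 E ξ = ((2 * Rt f a b (2 * Real.pi * ξ) : ℝ) : ℂ) := by
    intro ξ
    have e1 : 𝓕 E ξ = 𝓕 (fun v => ((w v : ℝ) : ℂ)) ξ + 𝓕 (fun v => ((w (-v) : ℝ) : ℂ)) ξ := by
      rw [Real.fourier_real_eq_integral_exp_smul, Real.fourier_real_eq_integral_exp_smul,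
        Real.fourier_real_eq_integral_exp_smul, ← integral_add]
      · refine integral_congr_ae (Eventually.of_forall fun v => ?_)
        simp only [smul_eq_mul]
        rw [hE]; push_cast; ring
      · refine (hwi.ofReal (𝕜 := ℂ)).bdd_mul (c := 1) (by fun_prop) (Eventually.of_forall fun v => ?_)
        rw [Complex.norm_exp_ofReal_mul_I]
      · refine (hwn.ofReal (𝕜 := ℂ)).bdd_mul (c := 1) (by fun_prop) (Eventually.of_forall fun v => ?_)
        rw [Complex.norm_exp_ofReal_mul_I]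
    rw [e1, hFn, Complex.add_conj, hFw]
    unfold Rt
    push_cast
    rfl
  have hN : ∀ ξ : ℝ, ‖𝓕 E ξ‖ ^ 2 = 4 * Rt f a b (2 * Real.pi * ξ) ^ 2 := by
    intro ξ
    rw [hFE, Complex.norm_real, Real.norm_eq_abs, sq_abs]; ring
  have hI1 : Integrable fun ξ : ℝ => Rt f a b (2 * Real.pi * ξ) ^ 2 := by
    have h3 := hP1.integrable_norm_pow (by norm_num : (2 : ℕ) ≠ 0)
    have h4 : Integrable fun ξ : ℝ => ‖𝓕 E ξ‖ ^ 2 := h3
    have h5 : (fun ξ : ℝ => Rt f a b (2 * Real.pi * ξ) ^ 2) = fun ξ => (1 / 4) * ‖𝓕 E ξ‖ ^ 2 := by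
      funext ξ; rw [hN]; ring
    rw [h5]; exact h4.const_mul _
  have h2pi : (2 * Real.pi) ≠ 0 := by positivity
  have hI2 : Integrable fun t : ℝ => Rt f a b t ^ 2 := by
    have h3 := (integrable_comp_mul_left_iff (fun t : ℝ => Rt f a b t ^ 2) h2pi).1 hI1
    exact h3
  refine ⟨hI2, ?_⟩
  have h6 : ∫ ξ : ℝ, Rt f a b (2 * Real.pi * ξ) ^ 2 = (2 * Real.pi)⁻¹ * ∫ t : ℝ, Rt f a b t ^ 2 := by
    have := Measure.integral_comp_mul_left (fun t : ℝ => Rt f a b t ^ 2) (2 * Real.pi)
    rw [this, abs_of_pos (by positivity), smul_eq_mul]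
  have h7 : ∫ ξ : ℝ, ‖𝓕 E ξ‖ ^ 2 = 4 * ∫ ξ : ℝ, Rt f a b (2 * Real.pi * ξ) ^ 2 := by
    rw [← integral_const_mul]
    exact integral_congr_ae (Eventually.of_forall hN)
  rw [h7, h6, hEI, hwI, hgI] at hP2
  field_simp at hP2
  linarith

end

end Pool.Agent.X83.VP
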