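import Pool.Agent.X83.VP.L4
import Pool.Agent.W54.TCF.NT

set_option autoImplicit false

/-! # The mean square of the sum over zeros on an interval -/

open Complex Filter Topology Set MeasureTheory

namespace Pool.Agent.X83.VP

open SP SP.LocAux H370 H370.Loc

noncomputable section

lemma pk_ind (x : ℝ) : pk x = (Icc (-1 : ℝ) 1).indicator fun y => x / (x ^ 2 + y ^ 2) := by
  funext y
  unfold pk
  by_cases h : |y| ≤ 1
  · rw [if_pos h, indicator_of_mem (by rw [mem_Icc]; exact abs_le.1 h)]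
  · rw [if_neg h, indicator_of_notMem (by rw [mem_Icc]; exact fun h' => h (abs_le.2 h'))]

lemma pk_meas (x : ℝ) : Measurable (pk x) := by
  rw [pk_ind]; exact (by fun_prop : Measurable fun y : ℝ => x / (x ^ 2 + y ^ 2)).indicator
    measurableSet_Icc

lemma pk_le {x : ℝ} (hx : 0 < x) (y : ℝ) : pk x y ≤ 1 / x := by
  unfold pk
  split_ifs
  · rw [div_le_div_iff₀ (by positivity) hx]; nlinarith [sq_nonneg y]
  · positivity

lemma pois_cont {x : ℝ} (hx : 0 < x) : Continuous fun y : ℝ => x / (x ^ 2 + y ^ 2) := by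
  refine Continuous.div continuous_const (by fun_prop) fun y => ?_
  positivity

lemma pk_integrable {x : ℝ} (hx : 0 < x) : Integrable (pk x) := by
  rw [pk_ind, integrable_indicator_iff measurableSet_Icc]
  exact (pois_cont hx).continuousOn.integrableOn_Icc

lemma pk_total {x : ℝ} (hx : 0 < x) : ∫ y, pk x y ≤ Real.pi := by
  rw [pk_ind, integral_indicator measurableSet_Icc, integral_Icc_eq_integral_Ioc,
    ← intervalIntegral.integral_of_le (by norm_num)]
  have h1 : ∫ y in (-1 : ℝ)..1, x / (x ^ 2 + y ^ 2) = Real.arctan (1 / x) - Real.arctan (-1 / x) := by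
    refine intervalIntegral.integral_eq_sub_of_hasDerivAt (f := fun y => Real.arctan (y / x))
      (fun y _ => ?_) ((pois_cont hx).intervalIntegrable _ _)
    have h2 : HasDerivAt (fun y : ℝ => Real.arctan (y / x)) (1 / (1 + (y / x) ^ 2) * (1 / x)) y :=
      ((hasDerivAt_id y).div_const x).arctan
    have e : x / (x ^ 2 + y ^ 2) = 1 / (1 + (y / x) ^ 2) * (1 / x) := by field_simp
    rw [e]
    exact h2
  rw [h1]
  have h3 := Real.arctan_lt_pi_div_two (1 / x)
  have h4 := Real.neg_pi_div_two_lt_arctan (-1 / x)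
  linarith

lemma pk_sq_total {x : ℝ} (hx : 0 < x) :
    Real.pi / (2 * x) - 1 ≤ ∫ y in (-1 : ℝ)..1, (x / (x ^ 2 + y ^ 2)) ^ 2 := by
  have hc : Continuous fun y : ℝ => (x / (x ^ 2 + y ^ 2)) ^ 2 := (pois_cont hx).pow 2
  have h1 : ∫ y in (-1 : ℝ)..1, (x / (x ^ 2 + y ^ 2)) ^ 2 =
      (1 / 2 * ((1 : ℝ) / (x ^ 2 + 1 ^ 2) + 1 / x * Real.arctan (1 / x))) -
      (1 / 2 * ((-1 : ℝ) / (x ^ 2 + (-1) ^ 2) + 1 / x * Real.arctan (-1 / x))) := by
    refine intervalIntegral.integral_eq_sub_of_hasDerivAt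
      (f := fun y => 1 / 2 * (y / (x ^ 2 + y ^ 2) + 1 / x * Real.arctan (y / x)))
      (fun y _ => ?_) (hc.intervalIntegrable _ _)
    have hne : x ^ 2 + y ^ 2 ≠ 0 := by positivity
    have h2 : HasDerivAt (fun y : ℝ => Real.arctan (y / x)) (1 / (1 + (y / x) ^ 2) * (1 / x)) y :=
      ((hasDerivAt_id y).div_const x).arctan
    have h3 : HasDerivAt (fun y : ℝ => x ^ 2 + y ^ 2) (2 * y) y := by
      simpa using (hasDerivAt_pow 2 y).const_add (x ^ 2)
    have h4 : HasDerivAt (fun y : ℝ => y / (x ^ 2 + y ^ 2))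
      ((1 * (x ^ 2 + y ^ 2) - y * (2 * y)) / (x ^ 2 + y ^ 2) ^ 2) y := (hasDerivAt_id y).div h3 hne
    have h5 : HasDerivAt (fun y => 1 / 2 * (y / (x ^ 2 + y ^ 2) + 1 / x * Real.arctan (y / x)))
      (1 / 2 * ((1 * (x ^ 2 + y ^ 2) - y * (2 * y)) / (x ^ 2 + y ^ 2) ^ 2 +
        1 / x * (1 / (1 + (y / x) ^ 2) * (1 / x)))) y :=
      (h4.add (h2.const_mul (1 / x))).const_mul (1 / 2)
    have e : (x / (x ^ 2 + y ^ 2)) ^ 2 =
        1 / 2 * ((1 * (x ^ 2 + y ^ 2) - y * (2 * y)) / (x ^ 2 + y ^ 2) ^ 2 +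
        1 / x * (1 / (1 + (y / x) ^ 2) * (1 / x))) := by
      field_simp
      ring
    rw [e]
    exact h5
  rw [h1]
  have e1 : Real.arctan (-1 / x) = - Real.arctan (1 / x) := by
    rw [neg_div, Real.arctan_neg]
  have e2 : Real.arctan (1 / x) = Real.pi / 2 - Real.arctan x := by
    rw [one_div, Real.arctan_inv_of_pos hx]
  have e3 : Real.arctan x ≤ x := by
    have h8 : 0 < Real.arctan x := Real.arctan_pos.2 hx
    have h9 := Real.lt_tan h8 (Real.arctan_lt_pi_div_two x)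
    rw [Real.tan_arctan] at h9
    exact h9.le
  rw [e1, e2]
  have h6 : (0 : ℝ) ≤ 1 / (x ^ 2 + 1 ^ 2) := by positivity
  have e4 : 1 / 2 * (1 / (x ^ 2 + 1 ^ 2) + 1 / x * (Real.pi / 2 - Real.arctan x)) -
      1 / 2 * (-1 / (x ^ 2 + (-1) ^ 2) + 1 / x * -(Real.pi / 2 - Real.arctan x)) =
      1 / (x ^ 2 + 1 ^ 2) + 1 / x * (Real.pi / 2 - Real.arctan x) := by ring
  rw [e4]
  have h7 : 1 / x * (Real.pi / 2 - x) ≤ 1 / x * (Real.pi / 2 - Real.arctan x) :=
    mul_le_mul_of_nonneg_left (by linarith) (by positivity)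
  have e5 : 1 / x * (Real.pi / 2 - x) = Real.pi / (2 * x) - 1 := by
    field_simp
  linarith

lemma pk_ii {x : ℝ} (hx : 0 < x) (c A B : ℝ) :
    IntervalIntegrable (fun v => pk x (v - c)) volume A B :=
  ((pk_integrable hx).comp_sub_right c).intervalIntegrable

lemma pk_sq_ii {x : ℝ} (hx : 0 < x) (c A B : ℝ) :
    IntervalIntegrable (fun v => pk x (v - c) ^ 2) volume A B := by
  have h1 : Integrable fun y => pk x y ^ 2 := by
    have h2 : (fun y => pk x y ^ 2) = fun y => pk x y * pk x y := by funext y; ring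
    rw [h2]
    refine (pk_integrable hx).mul_bdd (c := 1 / x) (pk_meas x).aestronglyMeasurable ?_
    filter_upwards with y
    rw [Real.norm_of_nonneg (pk_nonneg hx.le y)]
    exact pk_le hx y
  exact (h1.comp_sub_right c).intervalIntegrable

lemma pk_le_pi {x : ℝ} (hx : 0 < x) (c : ℝ) {A B : ℝ} (hAB : A ≤ B) :
    ∫ v in A..B, pk x (v - c) ≤ if A - 1 ≤ c ∧ c ≤ B + 1 then Real.pi else 0 := by
  split_ifs with h
  · rw [intervalIntegral.integral_of_le hAB]
    refine (setIntegral_le_integral ((pk_integrable hx).comp_sub_right c)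
      (Eventually.of_forall fun v => pk_nonneg hx.le _)).trans ?_
    rw [integral_sub_right_eq_self (pk x) c]
    exact pk_total hx
  · rw [intervalIntegral.integral_congr_ae (g := fun _ => (0 : ℝ))]
    · simp
    · refine Eventually.of_forall fun v hv => ?_
      rw [uIoc_of_le hAB] at hv
      unfold pk
      rw [if_neg]
      intro h'
      rw [abs_le] at h'
      exact h ⟨by linarith [hv.1, h'.2], by linarith [hv.2, h'.1]⟩

lemma pk_sq_ge {x : ℝ} (hx : 0 < x) {c A B : ℝ} (hA : A + 1 ≤ c) (hB : c ≤ B - 1) :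
    Real.pi / (2 * x) - 1 ≤ ∫ v in A..B, pk x (v - c) ^ 2 := by
  have h1 : ∫ v in (c - 1)..(c + 1), pk x (v - c) ^ 2 ≤ ∫ v in A..B, pk x (v - c) ^ 2 := by
    refine intervalIntegral.integral_mono_interval (by linarith) (by linarith) (by linarith)
      (Eventually.of_forall fun v => sq_nonneg _) (pk_sq_ii hx c A B)
  refine le_trans ?_ h1
  have h2 : ∫ v in (c - 1)..(c + 1), pk x (v - c) ^ 2 =
      ∫ v in (c - 1)..(c + 1), (fun y => (x / (x ^ 2 + y ^ 2)) ^ 2) (v - c) := by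
    refine intervalIntegral.integral_congr fun v hv => ?_
    rw [uIcc_of_le (by linarith)] at hv
    simp only
    unfold pk
    rw [if_pos (abs_le.2 ⟨by linarith [hv.1], by linarith [hv.2]⟩)]
  rw [h2, intervalIntegral.integral_comp_sub_right (fun y => (x / (x ^ 2 + y ^ 2)) ^ 2) c]
  rw [show c - 1 - c = -1 by ring, show c + 1 - c = 1 by ring]
  exact pk_sq_total hx

lemma hh_ii {x : ℝ} (hx : 0 < x) (T A B : ℝ) : IntervalIntegrable (hh T x) volume A B := by
  unfold hh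
  refine IntervalIntegrable.sum (s := Zf riemannZeta T (2 * T))
    (f := fun s v => (mult riemannZeta s : ℝ) * pk x (v - s.im)) ?_ |>.congr ?_
  · exact fun s _ => (pk_ii hx s.im A B).const_mul _
  · intro v _
    simp

lemma hh_nonneg {x : ℝ} (hx : 0 ≤ x) (T v : ℝ) : 0 ≤ hh T x v :=
  Finset.sum_nonneg fun s _ => mul_nonneg (Nat.cast_nonneg _) (pk_nonneg hx _)

lemma hh_meas (T x : ℝ) : Measurable (hh T x) := by
  unfold hh
  refine Finset.measurable_sum _ fun s _ => ?_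
  exact ((pk_meas x).comp (by fun_prop)).const_mul _

lemma hh_up {x : ℝ} (hx : 0 < x) {T A B : ℝ} (hT : 1 ≤ T) (hAB : A ≤ B) (hA : 3 ≤ A) :
    ∫ v in A..B, hh T x v ≤ Real.pi * (NN riemannZeta (A - 2) (B + 1) : ℝ) := by
  classical
  have h1 : ∫ v in A..B, hh T x v = ∑ s ∈ Zf riemannZeta T (2 * T), (mult riemannZeta s : ℝ) *
      ∫ v in A..B, pk x (v - s.im) := by
    unfold hh
    rw [intervalIntegral.integral_finsetSum fun s _ => (pk_ii hx s.im A B).const_mul _]
    exact Finset.sum_congr rfl fun s _ => intervalIntegral.integral_const_mul _ _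
  rw [h1]
  have h2 : ∑ s ∈ Zf riemannZeta T (2 * T), (mult riemannZeta s : ℝ) *
      ∫ v in A..B, pk x (v - s.im) ≤ ∑ s ∈ Zf riemannZeta T (2 * T), (mult riemannZeta s : ℝ) *
      (if A - 1 ≤ s.im ∧ s.im ≤ B + 1 then Real.pi else 0) :=
    Finset.sum_le_sum fun s _ => mul_le_mul_of_nonneg_left (pk_le_pi hx s.im hAB) (Nat.cast_nonneg _)
  refine h2.trans ?_
  have h3 : ∑ s ∈ Zf riemannZeta T (2 * T), (mult riemannZeta s : ℝ) *
      (if A - 1 ≤ s.im ∧ s.im ≤ B + 1 then Real.pi else 0) =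
      Real.pi * ∑ s ∈ (Zf riemannZeta T (2 * T)).filter (fun s => A - 1 ≤ s.im ∧ s.im ≤ B + 1),
        (mult riemannZeta s : ℝ) := by
    rw [Finset.sum_filter, Finset.mul_sum]
    refine Finset.sum_congr rfl fun s _ => ?_
    split_ifs <;> ring
  rw [h3]
  have hA2 : 1 ≤ A - 2 := by linarith
  rw [NN_eq good_zeta hA2]
  push_cast
  refine mul_le_mul_of_nonneg_left ?_ Real.pi_pos.le
  refine Finset.sum_le_sum_of_subset_of_nonneg ?_ fun _ _ _ => Nat.cast_nonneg _
  intro s hs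
  rw [Finset.mem_filter, mem_Zf good_zeta hT] at hs
  rw [mem_Zf good_zeta hA2]
  obtain ⟨⟨a1, a2, a3, a4, a5⟩, a6, a7⟩ := hs
  exact ⟨a1, a2, by linarith, a7, a5⟩

lemma hh_sq_ge {x : ℝ} (hx : 0 < x) {T v : ℝ} (hT : 1 ≤ T) :
    ∑ s ∈ Zf riemannZeta T (2 * T), (mult riemannZeta s : ℝ) * pk x (v - s.im) ^ 2 ≤ hh T x v ^ 2 := by
  classical
  have h0 : ∀ s ∈ Zf riemannZeta T (2 * T), 0 ≤ (mult riemannZeta s : ℝ) * pk x (v - s.im) :=
    fun s _ => mul_nonneg (Nat.cast_nonneg _) (pk_nonneg hx.le _)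
  have h1 : ∑ s ∈ Zf riemannZeta T (2 * T), ((mult riemannZeta s : ℝ) * pk x (v - s.im)) ^ 2 ≤
      hh T x v ^ 2 := by
    unfold hh
    rw [sq (∑ s ∈ Zf riemannZeta T (2 * T), (mult riemannZeta s : ℝ) * pk x (v - s.im)),
      Finset.sum_mul]
    refine Finset.sum_le_sum fun s hs => ?_
    rw [sq]
    exact mul_le_mul_of_nonneg_left (Finset.single_le_sum h0 hs) (h0 s hs)
  refine le_trans (Finset.sum_le_sum fun s hs => ?_) h1
  rw [mem_Zf good_zeta hT] at hs
  have hm : 1 ≤ mult riemannZeta s := mult_pos' good_zeta (by linarith [hs.2.2.1]) hs.2.2.2.2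
  have hm' : (1 : ℝ) ≤ (mult riemannZeta s : ℝ) := by exact_mod_cast hm
  rw [mul_pow]
  have h2 : (mult riemannZeta s : ℝ) ≤ (mult riemannZeta s : ℝ) ^ 2 := by nlinarith
  exact mul_le_mul_of_nonneg_right h2 (sq_nonneg _)

lemma hh_le {x : ℝ} (hx : 0 < x) (T v : ℝ) :
    hh T x v ≤ ∑ s ∈ Zf riemannZeta T (2 * T), (mult riemannZeta s : ℝ) * (1 / x) := by
  unfold hh
  exact Finset.sum_le_sum fun s _ => mul_le_mul_of_nonneg_left (pk_le hx _) (Nat.cast_nonneg _)

lemma hh_sq_ii {x : ℝ} (hx : 0 < x) (T A B : ℝ) :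
    IntervalIntegrable (fun v => hh T x v ^ 2) volume A B := by
  have h1 : (fun v => hh T x v ^ 2) = fun v => hh T x v * hh T x v := by funext v; ring
  rw [h1, intervalIntegrable_iff]
  have h2 := hh_ii hx T A B
  rw [intervalIntegrable_iff] at h2
  refine Integrable.mul_bdd (c := ∑ s ∈ Zf riemannZeta T (2 * T), (mult riemannZeta s : ℝ) * (1 / x))
    h2 (hh_meas T x).aestronglyMeasurable ?_
  filter_upwards with v
  rw [Real.norm_of_nonneg (hh_nonneg hx.le T v)]
  exact hh_le hx T v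

lemma hh_low {x : ℝ} (hx : 0 < x) (hx1 : x ≤ 1) {T A B : ℝ} (hT : 1 ≤ T) (hAB : A ≤ B)
    (hA : T ≤ A) (hB : B ≤ 2 * T) :
    (Real.pi / (2 * x) - 1) * (NN riemannZeta (A + 1) (B - 1) : ℝ) ≤ ∫ v in A..B, hh T x v ^ 2 := by
  classical
  have hx0 : 0 ≤ Real.pi / (2 * x) - 1 := by
    have := Real.pi_gt_three
    rw [sub_nonneg, le_div_iff₀ (by positivity)]; linarith
  have h1 : ∫ v in A..B, ∑ s ∈ Zf riemannZeta T (2 * T), (mult riemannZeta s : ℝ) *
      pk x (v - s.im) ^ 2 ≤ ∫ v in A..B, hh T x v ^ 2 := by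
    refine intervalIntegral.integral_mono_on hAB ?_ (hh_sq_ii hx T A B) fun v _ => hh_sq_ge hx hT
    refine IntervalIntegrable.sum (s := Zf riemannZeta T (2 * T))
      (f := fun s v => (mult riemannZeta s : ℝ) * pk x (v - s.im) ^ 2) ?_ |>.congr ?_
    · exact fun s _ => (pk_sq_ii hx s.im A B).const_mul _
    · intro v _
      simp
  refine le_trans ?_ h1
  rw [intervalIntegral.integral_finsetSum fun s _ => (pk_sq_ii hx s.im A B).const_mul _]
  have hA2 : 1 ≤ A + 1 := by linarith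
  rw [NN_eq good_zeta hA2]
  push_cast
  rw [mul_comm, Finset.sum_mul]
  have hsub : Zf riemannZeta (A + 1) (B - 1) ⊆ Zf riemannZeta T (2 * T) := by
    intro s hs
    rw [mem_Zf good_zeta hA2] at hs
    rw [mem_Zf good_zeta hT]
    obtain ⟨a1, a2, a3, a4, a5⟩ := hs
    exact ⟨a1, a2, by linarith, by linarith, a5⟩
  calc ∑ s ∈ Zf riemannZeta (A + 1) (B - 1), (mult riemannZeta s : ℝ) * (Real.pi / (2 * x) - 1)
      ≤ ∑ s ∈ Zf riemannZeta (A + 1) (B - 1), ∫ v in A..B, (mult riemannZeta s : ℝ) *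
        pk x (v - s.im) ^ 2 := by
        refine Finset.sum_le_sum fun s hs => ?_
        rw [mem_Zf good_zeta hA2] at hs
        rw [intervalIntegral.integral_const_mul]
        exact mul_le_mul_of_nonneg_left (pk_sq_ge hx hs.2.2.1.le hs.2.2.2.1) (Nat.cast_nonneg _)
    _ ≤ _ := by
        refine Finset.sum_le_sum_of_subset_of_nonneg hsub fun s _ _ => ?_
        exact intervalIntegral.integral_nonneg hAB fun v _ =>
          mul_nonneg (Nat.cast_nonneg _) (sq_nonneg _)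

end

end Pool.Agent.X83.VP
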