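import Pool.Agent.X83.VP.L7

set_option autoImplicit false

/-! # The lower bound for the weighted mean square, under RH: conclusion -/

open Filter Topology Set MeasureTheory

namespace Pool.Agent.X83.VP

open SP (RHs)
open Pool.Agent.W263.BSD (LInt lap lapC lapC_ofReal lapC_differentiableAt)

noncomputable section

/-- the weight -/
def φf (y : ℝ) : ℝ := Real.sinc (y / 2) ^ 2

lemma φf_cont : Continuous φf := by
  unfold φf
  exact (Real.continuous_sinc.comp (by fun_prop)).pow 2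

lemma φf_nonneg (y : ℝ) : 0 ≤ φf y := sq_nonneg _

lemma φf_le (y : ℝ) : φf y ≤ 1 := by
  unfold φf
  rw [← sq_abs]
  exact pow_le_one₀ (abs_nonneg _) (Real.abs_sinc_le_one _)

lemma φf_int : IntegrableOn φf (Ioi 0) ∧ ∫ y in Ioi (0 : ℝ), φf y = Real.pi := by
  have hpi := Real.pi_pos
  have h2pi : 0 < 2 * Real.pi := by positivity
  have h1 := integral_comp_mul_left_Ioi φf 0 h2pi
  have h2 : ∀ x : ℝ, φf (2 * Real.pi * x) = Real.sinc (Real.pi * x) ^ 2 := by
    intro x; unfold φf; congr 2; ring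
  constructor
  · have h3 := (integrableOn_Ioi_comp_mul_left_iff φf 0 h2pi).1
    rw [mul_zero] at h3
    apply h3
    have h4 : (fun x => φf (2 * Real.pi * x)) = fun x => Real.sinc (Real.pi * x) ^ 2 := funext h2
    rw [h4]
    exact H336V.ExistsLam.sinc_sq_integrable.integrableOn
  · simp only [h2, mul_zero, smul_eq_mul] at h1
    rw [H336V.ExistsLam.integral_sinc_sq] at h1
    field_simp at h1
    linarith

lemma φf_pq {ε : ℝ} (hε : 0 < ε) : ∃ p q : ℝ, 0 < p ∧ p < q ∧ Real.pi - ε ≤ ∫ y in p..q, φf y := by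
  obtain ⟨h1, h2⟩ := φf_int
  have h3 := intervalIntegral_tendsto_integral_Ioi 0 h1 tendsto_id
  rw [h2] at h3
  obtain ⟨q, hq1, hq2⟩ := ((h3.eventually (lt_mem_nhds (show Real.pi - ε / 2 < Real.pi by
    linarith))).and (eventually_ge_atTop (1 : ℝ))).exists
  obtain ⟨p, hp⟩ : ∃ p : ℝ, p = min (1 / 2) (ε / 2) := ⟨_, rfl⟩
  have hp0 : 0 < p := by rw [hp]; exact lt_min (by norm_num) (by positivity)
  have hp1 : p ≤ 1 / 2 := by rw [hp]; exact min_le_left _ _
  have hp2 : p ≤ ε / 2 := by rw [hp]; exact min_le_right _ _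
  simp only [id] at hq1
  refine ⟨p, q, hp0, by linarith, ?_⟩
  have h4 := intervalIntegral.integral_add_adjacent_intervals
    (φf_cont.intervalIntegrable (μ := volume) 0 p) (φf_cont.intervalIntegrable p q)
  have h5 : ∫ y in (0 : ℝ)..p, φf y ≤ ∫ y in (0 : ℝ)..p, (1 : ℝ) :=
    intervalIntegral.integral_mono_on hp0.le (φf_cont.intervalIntegrable _ _)
      intervalIntegrable_const fun y _ => φf_le y
  rw [intervalIntegral.integral_const, smul_eq_mul] at h5
  linarith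

/-- the normalised density -/
def wU (c U y : ℝ) : ℝ := (RZ (c / Real.log U) (U * y) / Real.log U) ^ 2

lemma wU_int {c U a b : ℝ} (hU : 0 < U) (hl : 0 < Real.log U) :
    ∫ y in a..b, wU c U y = (U * Real.log U ^ 2)⁻¹ *
      ∫ v in (a * U)..(b * U), RZ (c / Real.log U) v ^ 2 := by
  have h1 := intervalIntegral.integral_comp_mul_left
    (fun v => RZ (c / Real.log U) v ^ 2) hU.ne' (a := a) (b := b)
  have h2 : ∫ y in a..b, wU c U y =
      (Real.log U ^ 2)⁻¹ * ∫ y in a..b, RZ (c / Real.log U) (U * y) ^ 2 := by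
    rw [← intervalIntegral.integral_const_mul]
    refine intervalIntegral.integral_congr fun y _ => ?_
    unfold wU
    rw [div_pow, div_eq_inv_mul]
  rw [h2, h1, smul_eq_mul, mul_comm U a, mul_comm U b, mul_inv]
  ring

theorem low_main (hRH : RHs) {c : ℝ} (hc : 0 < c) {ε : ℝ} (hε : 0 < ε) :
    ∀ᶠ U : ℝ in atTop, ∀ a0 : ℝ, 0 ≤ a0 → a0 < c / Real.log U →
      (∀ a' > a0, LInt (fv (1 / U)) a') → SqI (fv (1 / U)) (c / Real.log U) →
      (1 / (2 * c) - 1 / 2 - ε) * (Real.log U ^ 2 / U) ≤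
        ∫ v in Ioi (0 : ℝ), fv (1 / U) v ^ 2 * Real.exp (-(2 * (c / Real.log U) * v)) := by
  have hpi := Real.pi_pos
  have hpi3 := Real.pi_gt_three
  obtain ⟨κ, hκ⟩ : ∃ κ : ℝ, κ = 1 / (4 * c) - 1 / 4 := ⟨_, rfl⟩
  have hκ2 : 1 / (2 * c) - 1 / 2 = 2 * κ := by rw [hκ]; field_simp; ring
  rw [hκ2]
  rcases lt_or_ge κ 0 with hneg | hκ0
  · filter_upwards [eventually_gt_atTop (1 : ℝ)] with U hU a0 _ _ _ _
    have h1 : 0 ≤ Real.log U ^ 2 / U := by positivity
    have h2 : (2 * κ - ε) * (Real.log U ^ 2 / U) ≤ 0 :=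
      mul_nonpos_of_nonpos_of_nonneg (by linarith) h1
    refine h2.trans (setIntegral_nonneg measurableSet_Ioi fun v _ => ?_)
    positivity
  -- parameters
  obtain ⟨e1, he1⟩ : ∃ e1 : ℝ, e1 = ε / (8 * (κ + 1)) := ⟨_, rfl⟩
  have he10 : 0 < e1 := by rw [he1]; positivity
  have he11 : (κ + 1) * e1 = ε / 8 := by rw [he1]; field_simp
  obtain ⟨p, q, hp, hpq, hφ⟩ := φf_pq he10
  obtain ⟨θ, hθ⟩ : ∃ θ : ℝ, θ = min (1 / 2) (ε / (8 * (κ * Real.pi + 1))) := ⟨_, rfl⟩
  have hθ0 : 0 < θ := by rw [hθ]; exact lt_min (by norm_num) (by positivity)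
  have hθ1 : θ < 1 := by rw [hθ]; exact (min_le_left _ _).trans_lt (by norm_num)
  have hθ2 : θ * (κ * Real.pi + 1) ≤ ε / 8 := by
    have h1 : θ ≤ ε / (8 * (κ * Real.pi + 1)) := by rw [hθ]; exact min_le_right _ _
    rw [le_div_iff₀ (by positivity)] at h1
    linarith
  -- the weighted lower bound
  have hq0 : 0 < q := hp.trans hpq
  have hwi : ∀ᶠ U : ℝ in atTop, IntervalIntegrable (wU c U) volume p q := by
    filter_upwards [(tendsto_id.const_mul_atTop hp).eventually_ge_atTop 1,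
      eventually_gt_atTop (1 : ℝ)] with U h1 h2
    simp only [id] at h1
    have hU0 : 0 < U := by linarith
    have hl : 0 < Real.log U := Real.log_pos h2
    refine ContinuousOn.intervalIntegrable fun y hy => ?_
    rw [uIcc_of_le hpq.le] at hy
    have h3 : 1 ≤ U * y := by nlinarith [hy.1]
    have h4 : ContinuousAt (fun y : ℝ => RZ (c / Real.log U) (U * y)) y :=
      ContinuousAt.comp (g := RZ (c / Real.log U)) (f := fun y : ℝ => U * y)
        (RZ_cont hRH (by positivity) h3) (by fun_prop)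
    exact ((h4.div_const _).pow 2).continuousWithinAt
  have hW := weight_low (w := wU c) (l := atTop) hκ0 (r := p / 2) hpq (by positivity)
    (fun U y => sq_nonneg _) hwi (fun a b ha hab hb hr ε' hε' => by
      filter_upwards [blk_asym hRH hc (p := a) (q := b) (by linarith) hab (by linarith) hε',
        eventually_gt_atTop (1 : ℝ)] with U h1 h2
      have hU0 : 0 < U := by linarith
      have hl : 0 < Real.log U := Real.log_pos h2
      rw [wU_int hU0 hl, hκ]
      have h3 : 0 < U * Real.log U ^ 2 := by positivity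
      rw [← div_eq_inv_mul, le_div_iff₀ h3]
      exact h1) φf_cont φf_nonneg he10
  -- the pointwise bound for `ζ'/ζ`
  obtain ⟨C, T0, hC, hT0, hld⟩ := ld_loc hRH
  obtain ⟨E0, hE0⟩ : ∃ E0 : ℝ, E0 = (3 / p) * (C * (2 / c)) + 2 / p := ⟨_, rfl⟩
  have hE00 : 0 < E0 := by rw [hE0]; positivity
  have herr : Tendsto (fun U : ℝ => 1 / θ * ((q - p) * E0 ^ 2) * (Real.log U ^ 2 / U)) atTop (𝓝 0) := by
    have h1 : Tendsto (fun U : ℝ => Real.log U ^ 2 / U) atTop (𝓝 0) := by
      have := Real.tendsto_pow_log_div_mul_add_atTop 1 0 2 one_ne_zero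
      simpa using this
    simpa using h1.const_mul (1 / θ * ((q - p) * E0 ^ 2))
  have hpU : Tendsto (fun U : ℝ => p * U) atTop atTop := tendsto_id.const_mul_atTop hp
  filter_upwards [hW, herr.eventually (gt_mem_nhds (show (0 : ℝ) < ε / 8 by positivity)),
    hpU.eventually_ge_atTop (T0 + 10), eventually_gt_atTop (Real.exp 1),
    Real.tendsto_log_atTop.eventually_ge_atTop (16 * c),
    Real.tendsto_log_atTop.eventually_ge_atTop |Real.log q|, hwi] with U u1 u2 u3 u4 u5 u6 u7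
  intro a0 ha0 haa hL hS
  have hU0 : 0 < U := (Real.exp_pos 1).trans u4
  have hl1 : 1 < Real.log U := by rw [Real.lt_log_iff_exp_lt hU0]; exact u4
  have hU2 : 2 ≤ U := by
    have := Real.add_one_le_exp (1 : ℝ)
    linarith
  obtain ⟨L, hLL⟩ : ∃ L : ℝ, L = Real.log U := ⟨_, rfl⟩
  obtain ⟨a, ha⟩ : ∃ a : ℝ, a = c / L := ⟨_, rfl⟩
  rw [← hLL] at hl1 u2 u5 u6 haa hS ⊢
  rw [← ha] at haa hS ⊢
  have hl0 : 0 < L := by linarith
  have ha00 : 0 < a := by rw [ha]; positivity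
  have ha1 : a ≤ 1 / 16 := by
    rw [ha, div_le_div_iff₀ hl0 (by norm_num)]; linarith
  have hδ : 0 < 1 / U := by positivity
  have hδ1 : 1 / U ≤ 1 / 2 := one_div_le_one_div_of_le (by norm_num) hU2
  obtain ⟨hi, hI⟩ := planch_half (fv_meas (1 / U)) (b := 1 / U / 2) (by positivity)
    (hL a haa) hS
  -- restriction to the block
  have hpqU : p * U ≤ q * U := mul_le_mul_of_nonneg_right hpq.le hU0.le
  have hpU0 : 0 < p * U := by positivity
  have hblk : ∫ t in (p * U)..(q * U), Rt (fv (1 / U)) a (1 / U / 2) t ^ 2 ≤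
      ∫ t in Ioi (0 : ℝ), Rt (fv (1 / U)) a (1 / U / 2) t ^ 2 := by
    rw [intervalIntegral.integral_of_le hpqU]
    refine setIntegral_mono_set hi (Eventually.of_forall fun t => sq_nonneg _) ?_
    exact (Ioc_subset_Ioi_self.trans (Ioi_subset_Ioi hpU0.le)).eventuallyLE
  have hRti : IntervalIntegrable (fun t => Rt (fv (1 / U)) a (1 / U / 2) t ^ 2) volume (p * U)
      (q * U) := by
    rw [intervalIntegrable_iff_integrableOn_Ioc_of_le hpqU]
    exact hi.mono_set (Ioc_subset_Ioi_self.trans (Ioi_subset_Ioi hpU0.le))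
  -- pointwise
  have hpt : ∀ t ∈ Icc (p * U) (q * U),
      (1 - θ) * ((2 * Real.sin (1 / U * t / 2) / t) ^ 2 * RZ a t ^ 2) -
        1 / θ * (E0 * (L ^ 2 / U ^ 2)) ^ 2 ≤ Rt (fv (1 / U)) a (1 / U / 2) t ^ 2 := by
    intro t ht
    have ht0 : 0 < t := hpU0.trans_le ht.1
    have hnear := Rt_near hδ hδ1 ha0 haa (by linarith : a ≤ 1 / 2) hL ht0
    obtain ⟨-, hZ⟩ := hld (t - 2) (by linarith [ht.1]) t (by linarith) (by linarith [ht.1]) a ha00 ha1
    obtain ⟨Z, hZZ⟩ : ∃ Z : ℝ, Z = ‖deriv riemannZeta (⟨1 / 2 + a, t⟩ : ℂ) /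
        riemannZeta (⟨1 / 2 + a, t⟩ : ℂ)‖ := ⟨_, rfl⟩
    rw [← hZZ] at hZ hnear
    have hlt : Real.log (t - 2) ≤ 2 * L := by
      have h1 : Real.log (t - 2) ≤ Real.log (q * U) :=
        Real.log_le_log (by linarith [ht.1]) (by linarith [ht.2])
      rw [Real.log_mul hq0.ne' hU0.ne', ← hLL] at h1
      have := le_abs_self (Real.log q)
      linarith
    have hZ2 : Z ≤ C * (2 / c) * L ^ 2 := by
      refine hZ.trans ?_
      have h1 : Real.log (t - 2) / a ≤ 2 * L / a := div_le_div_of_nonneg_right hlt ha00.le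
      have h2 : 2 * L / a = 2 / c * L ^ 2 := by rw [ha]; field_simp
      rw [h2] at h1
      calc C * (Real.log (t - 2) / a) ≤ C * (2 / c * L ^ 2) := mul_le_mul_of_nonneg_left h1 hC.le
        _ = _ := by ring
    have hit : 1 / t ≤ 1 / (p * U) := one_div_le_one_div_of_le hpU0 ht.1
    have hcoef : 3 * (1 / U) / t ≤ (3 / p) / U ^ 2 := by
      have h1 : 3 * (1 / U) / t ≤ 3 * (1 / U) * (1 / (p * U)) := by
        rw [div_eq_mul_one_div (3 * (1 / U)) t]
        exact mul_le_mul_of_nonneg_left hit (by positivity)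
      have h3 : 3 * (1 / U) * (1 / (p * U)) = (3 / p) / U ^ 2 := by field_simp
      linarith
    have hlast : 2 * (1 / U) / t ≤ 2 / p * (L ^ 2 / U ^ 2) := by
      have h1 : 2 * (1 / U) / t ≤ 2 * (1 / U) * (1 / (p * U)) := by
        rw [div_eq_mul_one_div (2 * (1 / U)) t]
        exact mul_le_mul_of_nonneg_left hit (by positivity)
      have h2 : 2 * (1 / U) * (1 / (p * U)) = 2 / p * (1 / U ^ 2) := by field_simp
      rw [h2] at h1
      refine h1.trans (mul_le_mul_of_nonneg_left ?_ (by positivity))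
      exact div_le_div_of_nonneg_right (by nlinarith) (by positivity)
    have hE : |Rt (fv (1 / U)) a (1 / U / 2) t + 2 * Real.sin (1 / U * t / 2) / t * RZ a t| ≤
        E0 * (L ^ 2 / U ^ 2) := by
      refine hnear.trans ?_
      have hZ0 : 0 ≤ Z := by rw [hZZ]; exact norm_nonneg _
      calc _ ≤ (3 / p) / U ^ 2 * (C * (2 / c) * L ^ 2) + 2 / p * (L ^ 2 / U ^ 2) := by
            refine add_le_add (mul_le_mul hcoef hZ2 hZ0 (by positivity)) hlast
        _ = _ := by rw [hE0]; ring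
    obtain ⟨K, hK⟩ : ∃ K : ℝ, K = 2 * Real.sin (1 / U * t / 2) / t * RZ a t := ⟨_, rfl⟩
    obtain ⟨R, hR⟩ : ∃ R : ℝ, R = Rt (fv (1 / U)) a (1 / U / 2) t := ⟨_, rfl⟩
    rw [← hK, ← hR] at hE
    rw [← mul_pow, ← hK, ← hR]
    obtain ⟨e, he⟩ : ∃ e : ℝ, e = R + K := ⟨_, rfl⟩
    rw [← he] at hE
    have h4 : e ^ 2 ≤ (E0 * (L ^ 2 / U ^ 2)) ^ 2 := by
      rw [← sq_abs e]; exact pow_le_pow_left₀ (abs_nonneg _) hE 2
    have h5 : R = e - K := by rw [he]; ring
    rw [h5]
    have h6 : 0 ≤ θ * (K - e / θ) ^ 2 + e ^ 2 := by positivity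
    have h7 : θ * (K - e / θ) ^ 2 + e ^ 2 = (e - K) ^ 2 - (1 - θ) * K ^ 2 + 1 / θ * e ^ 2 := by
      field_simp; ring
    rw [h7] at h6
    have h8 : 1 / θ * e ^ 2 ≤ 1 / θ * (E0 * (L ^ 2 / U ^ 2)) ^ 2 :=
      mul_le_mul_of_nonneg_left h4 (by positivity)
    linarith
  have hRZi : IntervalIntegrable (fun t => RZ a t ^ 2) volume (p * U) (q * U) :=
    RZ_ii hRH ha00 (by linarith) hpqU
  have hmc : ContinuousOn (fun t : ℝ => (2 * Real.sin (1 / U * t / 2) / t) ^ 2)
      (uIcc (p * U) (q * U)) := by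
    rw [uIcc_of_le hpqU]
    refine ContinuousOn.pow (ContinuousOn.div (by fun_prop) continuousOn_id fun t ht => ?_) 2
    exact (hpU0.trans_le ht.1).ne'
  have hmi : IntervalIntegrable (fun t => (2 * Real.sin (1 / U * t / 2) / t) ^ 2 * RZ a t ^ 2)
      volume (p * U) (q * U) := hRZi.continuousOn_mul hmc
  have hmono := intervalIntegral.integral_mono_on (μ := volume) hpqU
    ((hmi.const_mul (1 - θ)).sub intervalIntegrable_const) hRti hpt
  rw [intervalIntegral.integral_sub (hmi.const_mul (1 - θ)) intervalIntegrable_const,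
    intervalIntegral.integral_const_mul, intervalIntegral.integral_const, smul_eq_mul] at hmono
  -- the main term
  have hmain : ∫ t in (p * U)..(q * U), (2 * Real.sin (1 / U * t / 2) / t) ^ 2 * RZ a t ^ 2 =
      L ^ 2 / U * ∫ y in p..q, φf y * wU c U y := by
    have h1 := intervalIntegral.integral_comp_mul_left
      (fun t => (2 * Real.sin (1 / U * t / 2) / t) ^ 2 * RZ a t ^ 2) hU0.ne' (a := p) (b := q)
    rw [smul_eq_mul, mul_comm U p, mul_comm U q] at h1
    have h2 : ∫ t in (p * U)..(q * U), (2 * Real.sin (1 / U * t / 2) / t) ^ 2 * RZ a t ^ 2 =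
        U * ∫ y in p..q, (2 * Real.sin (1 / U * (U * y) / 2) / (U * y)) ^ 2 * RZ a (U * y) ^ 2 := by
      rw [h1]; field_simp
    rw [h2, ← intervalIntegral.integral_const_mul, ← intervalIntegral.integral_const_mul]
    refine intervalIntegral.integral_congr fun y hy => ?_
    rw [uIcc_of_le hpq.le] at hy
    have hy0 : 0 < y := hp.trans_le hy.1
    unfold φf wU
    rw [← hLL, ← ha, Real.sinc_of_ne_zero (by positivity)]
    have e1 : 1 / U * (U * y) / 2 = y / 2 := by field_simp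
    rw [e1]
    field_simp
  rw [hmain] at hmono
  -- conclusion
  have hkey : κ * (Real.pi - e1) - e1 ≤ ∫ y in p..q, φf y * wU c U y :=
    le_trans (by
      have := mul_le_mul_of_nonneg_left hφ hκ0
      linarith) u1
  obtain ⟨J, hJ⟩ : ∃ J : ℝ, J = ∫ y in p..q, φf y * wU c U y := ⟨_, rfl⟩
  rw [← hJ] at hmono hkey
  obtain ⟨S, hSS⟩ : ∃ S : ℝ, S = ∫ v in Ioi (0 : ℝ), fv (1 / U) v ^ 2 * Real.exp (-(2 * a * v)) :=
    ⟨_, rfl⟩
  rw [← hSS] at hI ⊢
  have hLU : 0 < L ^ 2 / U := by positivity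
  have h9 : (q * U - p * U) * (1 / θ * (E0 * (L ^ 2 / U ^ 2)) ^ 2) =
      (1 / θ * ((q - p) * E0 ^ 2) * (L ^ 2 / U)) * (L ^ 2 / U) * (1 / U) := by
    field_simp
  have h10 : (q * U - p * U) * (1 / θ * (E0 * (L ^ 2 / U ^ 2)) ^ 2) ≤ ε / 8 * (L ^ 2 / U) := by
    rw [h9]
    have h11 : (1 / θ * ((q - p) * E0 ^ 2) * (L ^ 2 / U)) * (L ^ 2 / U) * (1 / U) ≤
        (1 / θ * ((q - p) * E0 ^ 2) * (L ^ 2 / U)) * (L ^ 2 / U) * 1 := by
      refine mul_le_mul_of_nonneg_left (by linarith) ?_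
      have : 0 < q - p := by linarith
      positivity
    refine h11.trans ?_
    rw [mul_one]
    exact mul_le_mul_of_nonneg_right u2.le hLU.le
  have h12 : (1 - θ) * J * (L ^ 2 / U) - ε / 8 * (L ^ 2 / U) ≤ Real.pi / 2 * S := by
    have : (1 - θ) * (L ^ 2 / U * J) = (1 - θ) * J * (L ^ 2 / U) := by ring
    linarith
  have h13 : κ * Real.pi - ε / 4 ≤ (1 - θ) * J := by
    have h14 : κ * Real.pi - ε / 8 ≤ J := by nlinarith
    have h15 : (1 - θ) * (κ * Real.pi - ε / 8) ≤ (1 - θ) * J :=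
      mul_le_mul_of_nonneg_left h14 (by linarith)
    have h16 : θ * (κ * Real.pi) ≤ ε / 8 := by
      have : θ * (κ * Real.pi) ≤ θ * (κ * Real.pi + 1) := by
        apply mul_le_mul_of_nonneg_left _ hθ0.le; linarith
      linarith
    nlinarith
  have h17 : (κ * Real.pi - ε / 2) * (L ^ 2 / U) ≤ Real.pi / 2 * S := by
    have h18 : (κ * Real.pi - ε / 2) * (L ^ 2 / U) ≤ ((1 - θ) * J - ε / 8) * (L ^ 2 / U) :=
      mul_le_mul_of_nonneg_right (by linarith) hLU.le
    linarith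
  have h19 : (2 * κ - ε) * (L ^ 2 / U) * (Real.pi / 2) ≤ Real.pi / 2 * S := by
    refine le_trans ?_ h17
    have h20 : (2 * κ - ε) * (Real.pi / 2) ≤ κ * Real.pi - ε / 2 := by nlinarith
    calc _ = (2 * κ - ε) * (Real.pi / 2) * (L ^ 2 / U) := by ring
      _ ≤ _ := mul_le_mul_of_nonneg_right h20 hLU.le
  have h21 : 0 < Real.pi / 2 := by positivity
  rw [mul_comm (Real.pi / 2) S] at h19
  exact le_of_mul_le_mul_right h19 h21

end

end Pool.Agent.X83.VP
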